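import Pool.Agent.Lib.MP_a82f45_ag.Ell

set_option autoImplicit false
set_option linter.unusedSectionVars false
set_option linter.unusedSimpArgs false
set_option linter.unusedVariables false

namespace Pool.Agent.Lib.MP_a82f45_ag

universe u

open WithZero IntermediateField

/-- `K` is finite over the rational function field embedded by sending the variable to `x` -/
def FF (k : Type u) [Field k] (K : Type u) [Field K] [Algebra k K] (x : K) : Prop :=
  ∃ φ : RatFunc k →ₐ[k] K, φ RatFunc.X = x ∧ (φ : RatFunc k →+* K).Finite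

section ff

variable {k : Type u} [Field k] {K : Type u} [Field K] [Algebra k K] {x : K}

theorem FF.step (h : FF k K x) (f : K) [Fact (∀ r : K, r ^ 2 ≠ f + 1 * r)] :
    FF k (QuadraticAlgebra K f 1) (inc k f x) := by
  obtain ⟨φ, hφ, hfin⟩ := h
  refine ⟨(inc k f).comp φ, by rw [AlgHom.comp_apply, hφ], ?_⟩
  have h1 : ((inc k f : K →ₐ[k] QuadraticAlgebra K f 1) : K →+* QuadraticAlgebra K f 1).Finite := by
    have h2 : (algebraMap K (QuadraticAlgebra K f 1)).Finite := by
      rw [RingHom.finite_algebraMap]; infer_instance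
    exact h2
  exact RingHom.Finite.comp h1 hfin

theorem FF.transcendental (h : FF k K x) : Transcendental k x := by
  obtain ⟨φ, rfl, -⟩ := h
  rw [Transcendental, isAlgebraic_algHom_iff φ φ.toRingHom.injective]
  exact RatFunc.transcendental_X

theorem FF.finite (h : FF k K x) : FiniteDimensional (IntermediateField.adjoin k {x}) K := by
  obtain ⟨φ, rfl, hfin⟩ := h
  have h1 : ∀ r : RatFunc k, φ r ∈ IntermediateField.adjoin k {φ RatFunc.X} := by
    intro r
    have h2 : (IntermediateField.adjoin k {(RatFunc.X : RatFunc k)}).map φ =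
        IntermediateField.adjoin k {φ RatFunc.X} := by
      rw [IntermediateField.adjoin_map, Set.image_singleton]
    rw [← h2]
    refine ⟨r, ?_, rfl⟩
    have h3 : IntermediateField.adjoin k {(RatFunc.X : RatFunc k)} = ⊤ := RatFunc.adjoin_X
    change r ∈ IntermediateField.adjoin k {(RatFunc.X : RatFunc k)}
    rw [h3]
    trivial
  obtain ⟨s, hs⟩ := hfin
  refine ⟨⟨s, ?_⟩⟩
  rw [eq_top_iff]
  intro a _
  let _ := (φ : RatFunc k →+* K).toAlgebra
  have h4 : a ∈ Submodule.span (RatFunc k) (s : Set K) := by rw [hs]; trivial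
  induction h4 using Submodule.span_induction with
  | mem y hy => exact Submodule.subset_span hy
  | zero => exact zero_mem _
  | add y z _ _ hy hz => exact add_mem (hy trivial) (hz trivial)
  | smul r y _ hy =>
    have : r • y = (⟨φ r, h1 r⟩ : IntermediateField.adjoin k {φ RatFunc.X}) • y := rfl
    rw [this]
    exact Submodule.smul_mem _ _ (hy trivial)

end ff

section all

variable (k : Type u) [Field k] [CharP k 2] [IsAlgClosed k]

theorem exists_stage_all (g : ℕ) (hg : 1 ≤ g) :
    ∃ (K : Type u) (_ : Field K) (_ : Algebra k K) (x : K), FF k K x ∧ Nonempty (Stage k K x g) := by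
  induction g using Nat.strong_induction_on with
  | _ g ih =>
    rcases Nat.eq_or_lt_of_le hg with h1 | h1
    · subst h1
      refine ⟨EE k, inferInstance, inferInstance, iE k (tt k), ?_, exists_stage_one⟩
      have h2 : FF k (RatFunc k) (tt k) :=
        ⟨AlgHom.id k _, rfl, RingHom.Finite.id _⟩
      exact h2.step (fE k)
    · rcases Nat.even_or_odd' g with ⟨m, hm | hm⟩
      · obtain ⟨K, _, _, x, hF, ⟨St⟩⟩ := ih m (by omega) (by omega)
        obtain ⟨f1, hf, hS⟩ := exists_stage_double St
        refine ⟨QuadraticAlgebra K f1 1, inferInstance, inferInstance, inc k f1 x, hF.step f1, ?_⟩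
        rw [hm]; exact hS
      · obtain ⟨K, _, _, x, hF, ⟨St⟩⟩ := ih m (by omega) (by omega)
        obtain ⟨f1, hf, hS⟩ := exists_stage_double_add_one St
        refine ⟨QuadraticAlgebra K f1 1, inferInstance, inferInstance, inc k f1 x, hF.step f1, ?_⟩
        rw [hm]; exact hS

end all

end Pool.Agent.Lib.MP_a82f45_ag
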