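import Mathlib

set_option autoImplicit false
set_option linter.unusedSectionVars false
set_option linter.unusedSimpArgs false

namespace Pool.Agent.Lib.MP_a82f45_ag

universe u

/-- elements of `K` integral over the subalgebra generated by `s` -/
def intRing (k : Type u) [Field k] {K : Type u} [Field K] [Algebra k K] (s : Set K) :
    Subalgebra k K :=
  (integralClosure (Algebra.adjoin k s) K).restrictScalars k

section basics

variable {k : Type u} [Field k] {K : Type u} [Field K] [Algebra k K]

theorem mem_intRing {s : Set K} {a : K} :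
    a ∈ intRing k s ↔ IsIntegral (Algebra.adjoin k s) a := Iff.rfl

theorem subset_intRing {s : Set K} {a : K} (h : a ∈ s) : a ∈ intRing k s := by
  rw [mem_intRing]
  exact isIntegral_algebraMap (R := Algebra.adjoin k s) (A := K) (x := ⟨a, Algebra.subset_adjoin h⟩)

theorem intRing_mono {s t : Set K} (h : s ⊆ t) : intRing k s ≤ intRing k t := by
  intro a ha
  rw [mem_intRing] at *
  have hle : Algebra.adjoin k s ≤ Algebra.adjoin k t := Algebra.adjoin_mono h
  obtain ⟨p, hp, hp0⟩ := ha
  refine ⟨p.map (Subalgebra.inclusion hle).toRingHom, hp.map _, ?_⟩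
  rw [Polynomial.eval₂_map]
  exact hp0

theorem isIntegral_intRing {s : Set K} {a : K} (h : IsIntegral (intRing k s) a) :
    a ∈ intRing k s := by
  rw [mem_intRing]
  have : Algebra.IsIntegral (Algebra.adjoin k s) (integralClosure (Algebra.adjoin k s) K) :=
    inferInstance
  exact isIntegral_trans (R := Algebra.adjoin k s) (A := integralClosure (Algebra.adjoin k s) K) a h

theorem quad_mem {s : Set K} {b c z : K} (hb : b ∈ intRing k s) (hc : c ∈ intRing k s)
    (h : z ^ 2 + b * z + c = 0) : z ∈ intRing k s := by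
  apply isIntegral_intRing
  refine ⟨Polynomial.X ^ 2 + Polynomial.C ⟨b, hb⟩ * Polynomial.X + Polynomial.C ⟨c, hc⟩, ?_, ?_⟩
  · monicity!
  · simp only [Polynomial.eval₂_add, Polynomial.eval₂_mul, Polynomial.eval₂_pow, Polynomial.eval₂_X, Polynomial.eval₂_C]
    exact h

/-- integrality is preserved by homs -/
theorem map_mem_intRing {L : Type u} [Field L] [Algebra k L] (φ : K →ₐ[k] L) {s : Set K} {t : Set L}
    (hst : ∀ a ∈ s, φ a ∈ t) {a : K} (ha : a ∈ intRing k s) : φ a ∈ intRing k t := by
  rw [mem_intRing] at *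
  have hle : (Algebra.adjoin k s).map φ ≤ Algebra.adjoin k t := by
    rw [AlgHom.map_adjoin]
    apply Algebra.adjoin_mono
    rintro _ ⟨a, ha, rfl⟩
    exact hst a ha
  obtain ⟨p, hp, hp0⟩ := ha
  let ψ : Algebra.adjoin k s →ₐ[k] Algebra.adjoin k t :=
    (Subalgebra.inclusion hle).comp ((φ.comp (Algebra.adjoin k s).val).codRestrict
      ((Algebra.adjoin k s).map φ) (fun x => ⟨x, x.2, rfl⟩))
  refine ⟨p.map ψ.toRingHom, hp.map _, ?_⟩
  rw [Polynomial.eval₂_map]
  have h2 : (algebraMap (Algebra.adjoin k t) L).comp ψ.toRingHom =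
      φ.toRingHom.comp (algebraMap (Algebra.adjoin k s) K) := by
    ext x; rfl
  rw [h2]
  have h3 := Polynomial.hom_eval₂ p (algebraMap (Algebra.adjoin k s) K) φ.toRingHom a
  rw [hp0, map_zero] at h3
  exact h3.symm

theorem mem_of_map_mem_intRing {L : Type u} [Field L] [Algebra k L] (φ : K →ₐ[k] L) {s : Set K}
    {a : K} (ha : φ a ∈ intRing k (φ '' s)) : a ∈ intRing k s := by
  rw [mem_intRing] at *
  have heq : Algebra.adjoin k (φ '' s) = (Algebra.adjoin k s).map φ := by
    rw [AlgHom.map_adjoin]
  obtain ⟨p, hp, hp0⟩ := ha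
  have hinj : Function.Injective φ := φ.injective
  let e : Algebra.adjoin k s ≃ₐ[k] (Algebra.adjoin k s).map φ :=
    (Algebra.adjoin k s).equivMapOfInjective φ hinj
  let ψ : Algebra.adjoin k (φ '' s) →ₐ[k] Algebra.adjoin k s :=
    e.symm.toAlgHom.comp (Subalgebra.inclusion heq.le)
  refine ⟨p.map ψ.toRingHom, hp.map _, ?_⟩
  apply hinj
  rw [map_zero, Polynomial.eval₂_map]
  have h2 : φ.toRingHom.comp ((algebraMap (Algebra.adjoin k s) K).comp ψ.toRingHom) =
      algebraMap (Algebra.adjoin k (φ '' s)) L := by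
    ext x
    have : ((e (e.symm (Subalgebra.inclusion heq.le x))) : L) = x := by
      rw [AlgEquiv.apply_symm_apply]; rfl
    exact this
  have h3 := Polynomial.hom_eval₂ p ((algebraMap (Algebra.adjoin k s) K).comp ψ.toRingHom) φ.toRingHom a
  rw [h2] at h3
  exact h3.trans hp0

end basics


section quad

variable {k : Type u} [Field k] [CharP k 2] {K : Type u} [Field K] [Algebra k K]

theorem two_eq_zero (k : Type u) [Field k] [CharP k 2] (K : Type u) [Field K] [Algebra k K] : (2 : K) = 0 := by
  have h : (2 : k) = 0 := by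
    have := CharP.cast_eq_zero k 2
    exact_mod_cast this
  have h2 := congrArg (algebraMap k K) h
  rwa [map_ofNat, map_zero] at h2

theorem neg_eq (k : Type u) [Field k] [CharP k 2] {K : Type u} [Field K] [Algebra k K] (a : K) : -a = a := by
  linear_combination (-a) * two_eq_zero k K

variable (k) {f : K} [hf : Fact (∀ r : K, r ^ 2 ≠ f + 1 * r)]

/-- the embedding of `K` into the quadratic extension -/
noncomputable def inc (f : K) : K →ₐ[k] QuadraticAlgebra K f 1 := IsScalarTower.toAlgHom k K _

@[simp] theorem inc_re (a : K) : (inc k f a).re = a := rfl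
@[simp] theorem inc_im (a : K) : (inc k f a).im = 0 := rfl

variable {k}

theorem star_mem {s : Set K} {z : QuadraticAlgebra K f 1} (hz : z ∈ intRing k (inc k f '' s)) :
    star z ∈ intRing k (inc k f '' s) := by
  let τ : QuadraticAlgebra K f 1 →ₐ[k] QuadraticAlgebra K f 1 :=
    { toFun := star
      map_one' := star_one _
      map_mul' := fun x y => by rw [star_mul, mul_comm]
      map_zero' := star_zero _
      map_add' := star_add
      commutes' := fun r => by
        have h1 : (algebraMap k (QuadraticAlgebra K f 1) r) = ⟨algebraMap k K r, 0⟩ := rfl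
        rw [h1]
        ext
        · simp
        · simp }
  refine map_mem_intRing τ ?_ hz
  rintro _ ⟨a, ha, rfl⟩
  refine ⟨a, ha, ?_⟩
  change _ = star (inc k f a)
  ext
  · simp
  · simp

/-- elements of the quadratic extension which are integral -/
theorem mem_quad {s : Set K} {z : QuadraticAlgebra K f 1} :
    z ∈ intRing k (inc k f '' s) ↔
      z.im ∈ intRing k s ∧ z.re ^ 2 + z.re * z.im + z.im ^ 2 * f ∈ intRing k s := by
  have h2 := two_eq_zero k K
  constructor
  · intro hz
    have hz' := star_mem hz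
    constructor
    · apply mem_of_map_mem_intRing (inc k f)
      have : inc k f z.im = z + star z := by
        ext
        · simp
          linear_combination (-z.re) * h2
        · simp
      rw [this]
      exact add_mem hz hz'
    · apply mem_of_map_mem_intRing (inc k f)
      have : inc k f (z.re ^ 2 + z.re * z.im + z.im ^ 2 * f) = z * star z := by
        ext
        · rw [inc_re]
          simp
          linear_combination (z.im ^ 2 * f) * h2
        · rw [inc_im]
          simp
          ring
      rw [this]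
      exact mul_mem hz hz'
  · rintro ⟨h1, h3⟩
    have h1' := map_mem_intRing (inc k f) (t := inc k f '' s) (fun a ha => ⟨a, ha, rfl⟩) h1
    have h3' := map_mem_intRing (inc k f) (t := inc k f '' s) (fun a ha => ⟨a, ha, rfl⟩) h3
    refine quad_mem h1' h3' ?_
    ext
    · simp [pow_two]
      linear_combination (z.re * z.re + f * z.im * z.im + z.im * z.re) * h2
    · simp [pow_two]
      linear_combination (z.re * z.im + z.im * z.im) * h2

end quad

section val

open WithZero

theorem val_le_one {k : Type u} [Field k] {K : Type u} [Field K] [Algebra k K]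
    (v : Valuation K ℤᵐ⁰) {s : Set K} (hs : ∀ b ∈ s, v b ≤ 1)
    (hk : ∀ c : k, v (algebraMap k K c) ≤ 1) {a : K} (ha : a ∈ intRing k s) : v a ≤ 1 := by
  rw [mem_intRing] at ha
  have hle : ∀ b ∈ Algebra.adjoin k s, v b ≤ 1 := by
    intro b hb
    induction hb using Algebra.adjoin_induction with
    | mem x hx => exact hs x hx
    | algebraMap r => exact hk r
    | add x y _ _ hx hy => exact v.map_add_le hx hy
    | mul x y _ _ hx hy => rw [map_mul]; exact mul_le_one' hx hy
  obtain ⟨p, hp, hp0⟩ := ha
  let ψ : Algebra.adjoin k s →+* v.integer :=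
    { toFun := fun b => ⟨b, hle b b.2⟩
      map_one' := rfl
      map_mul' := fun _ _ => rfl
      map_zero' := rfl
      map_add' := fun _ _ => rfl }
  have h1 : IsIntegral v.integer a := by
    refine ⟨p.map ψ, hp.map _, ?_⟩
    rw [Polynomial.eval₂_map]
    exact hp0
  exact (Valuation.integer.integers v).mem_of_integral h1

/-- parity argument at a ramified point -/
theorem parity {K : Type u} [Field K] (v : Valuation K ℤᵐ⁰) {a b f : K} {d : ℤ} (hd : Odd d)
    (hf : v f = exp d) (hb : v b ≤ 1) (hN : v (a ^ 2 + a * b + b ^ 2 * f) ≤ 1) :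
    v (b ^ 2 * f) ≤ 1 := by
  by_contra hcon
  rw [not_le] at hcon
  have h1 : v (a * (a + b)) = v (b ^ 2 * f) := by
    have h2 : a * (a + b) = (a ^ 2 + a * b + b ^ 2 * f) - b ^ 2 * f := by ring
    rw [h2]
    exact v.map_sub_eq_of_lt_right (lt_of_le_of_lt hN hcon)
  have ha : 1 < v a := by
    by_contra ha
    rw [not_lt] at ha
    have h3 : v (a * (a + b)) ≤ 1 := by
      rw [map_mul]
      exact mul_le_one' ha (v.map_add_le ha hb)
    rw [h1] at h3
    exact absurd hcon (not_lt.mpr h3)
  have h4 : v (a + b) = v a := v.map_add_eq_of_lt_left (lt_of_le_of_lt hb ha)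
  rw [map_mul, h4, map_mul, map_pow, hf] at h1
  have hb0 : v b ≠ 0 := by
    intro h0
    rw [map_mul, map_pow, h0] at hcon
    simp at hcon
  have ha0 : v a ≠ 0 := (lt_trans zero_lt_one ha).ne'
  have h5 := congrArg log h1
  rw [log_mul ha0 ha0, log_mul (pow_ne_zero 2 hb0) exp_ne_zero, log_exp, log_pow] at h5
  obtain ⟨m, hm⟩ := hd
  simp only [nsmul_eq_mul] at h5
  push_cast at h5
  omega

end val

section laurent

open WithZero

variable {k : Type u} [Field k]

theorem coeff_single_one_mul (z : LaurentSeries k) (n : ℤ) :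
    (HahnSeries.single (1 : ℤ) (1 : k) * z).coeff (n + 1) = z.coeff n := by
  rw [HahnSeries.coeff_single_mul_add, one_mul]

theorem coeff_zero_mul {z w : LaurentSeries k} (hz : Valued.v z ≤ (1 : ℤᵐ⁰))
    (hw : Valued.v w ≤ (1 : ℤᵐ⁰)) : (z * w).coeff 0 = z.coeff 0 * w.coeff 0 := by
  rw [LaurentSeries.val_le_one_iff_eq_coe] at hz hw
  obtain ⟨y, rfl⟩ := hz
  obtain ⟨y', rfl⟩ := hw
  rw [← PowerSeries.coe_mul]
  have : ∀ y : PowerSeries k, ((y : PowerSeries k) : LaurentSeries k).coeff 0 = PowerSeries.constantCoeff y := by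
    intro y
    have := LaurentSeries.coeff_coe_powerSeries y 0
    rw [PowerSeries.coeff_zero_eq_constantCoeff] at this
    exact_mod_cast this
  rw [this, this, this, map_mul]

theorem val_le_exp_iff {z : LaurentSeries k} {D : ℤ} :
    Valued.v z ≤ exp (-D) ↔ ∀ n < D, z.coeff n = 0 :=
  LaurentSeries.valuation_le_iff_coeff_lt_eq_zero k

theorem val_le_one_iff {z : LaurentSeries k} :
    Valued.v z ≤ (1 : ℤᵐ⁰) ↔ ∀ n < 0, z.coeff n = 0 := by
  have := val_le_exp_iff (z := z) (D := 0)
  simpa using this

theorem val_single_one : Valued.v (HahnSeries.single (1 : ℤ) (1 : k) : LaurentSeries k) = exp (-1 : ℤ) := by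
  rw [LaurentSeries.valuation_single_zpow]

theorem val_eq_one_of {z : LaurentSeries k} (hz : Valued.v z ≤ (1 : ℤᵐ⁰)) (h0 : z.coeff 0 ≠ 0) :
    Valued.v z = (1 : ℤᵐ⁰) := by
  refine le_antisymm hz ?_
  by_contra hlt
  rw [not_le] at hlt
  apply h0
  have h1 : Valued.v z ≤ exp (-(1 : ℤ)) := by
    by_cases hz0 : Valued.v z = (0 : ℤᵐ⁰)
    · rw [hz0]; exact zero_le
    · rw [← log_le_iff_le_exp hz0]
      rw [← log_lt_log hz0 one_ne_zero, log_one] at hlt
      omega
  exact (val_le_exp_iff.mp h1) 0 (by norm_num)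

theorem coeff_sq_aux [CharP k 2] (n : ℕ) (y : PowerSeries k) :
    PowerSeries.coeff n (y ^ 2) = if Even n then (PowerSeries.coeff (n / 2) y) ^ 2 else 0 := by
  have h2 : (2 : k) = 0 := by exact_mod_cast CharP.cast_eq_zero k 2
  rw [pow_two, PowerSeries.coeff_mul]
  have key : ∑ x ∈ (Finset.HasAntidiagonal.antidiagonal n).filter (fun x => x.1 ≠ x.2),
      PowerSeries.coeff x.1 y * PowerSeries.coeff x.2 y = 0 := by
    refine Finset.sum_involution (fun x _ => x.swap) ?_ ?_ ?_ ?_
    · intro x _
      simp only [Prod.fst_swap, Prod.snd_swap]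
      linear_combination (PowerSeries.coeff x.1 y * PowerSeries.coeff x.2 y) * h2
    · intro x hx _ h
      simp only [Finset.mem_filter] at hx
      apply hx.2
      have := congrArg Prod.fst h
      simp only [Prod.fst_swap] at this
      exact this.symm
    · intro x hx
      simp only [Finset.mem_filter, Finset.HasAntidiagonal.mem_antidiagonal] at hx ⊢
      refine ⟨by rw [Prod.fst_swap, Prod.snd_swap]; omega, fun h => hx.2 ?_⟩
      exact h.symm
    · intro x _
      exact Prod.swap_swap x
  rw [← Finset.sum_filter_add_sum_filter_not _ (fun x => x.1 ≠ x.2), key, zero_add]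
  split_ifs with hn
  · rw [Finset.sum_eq_single (n / 2, n / 2)]
    · rw [pow_two]
    · intro b hb hb2
      exfalso
      simp only [Finset.mem_filter, Finset.HasAntidiagonal.mem_antidiagonal, ne_eq, not_not] at hb
      apply hb2
      obtain ⟨m, hm⟩ := hn
      ext
      · simp only; omega
      · simp only; omega
    · intro h
      exfalso
      apply h
      simp only [Finset.mem_filter, Finset.HasAntidiagonal.mem_antidiagonal, ne_eq, not_not, and_true]
      obtain ⟨m, hm⟩ := hn
      omega
  · apply Finset.sum_eq_zero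
    intro x hx
    exfalso
    simp only [Finset.mem_filter, Finset.HasAntidiagonal.mem_antidiagonal, ne_eq, not_not] at hx
    apply hn
    exact ⟨x.1, by omega⟩

/-- coefficients of a square -/
theorem coeff_sq [CharP k 2] (n : ℤ) (z : LaurentSeries k) :
    (z ^ 2).coeff n = if Even n then (z.coeff (n / 2)) ^ 2 else 0 := by
  obtain ⟨N, hN⟩ : ∃ N : ℤ, N = z.order := ⟨_, rfl⟩
  have hz := LaurentSeries.single_order_mul_powerSeriesPart z
  rw [← hN] at hz
  set y := LaurentSeries.powerSeriesPart z
  have h1 : z ^ 2 = HahnSeries.single (2 * N) 1 * ((y ^ 2 : PowerSeries k) : LaurentSeries k) := by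
    rw [← hz, mul_pow, PowerSeries.coe_pow, HahnSeries.single_pow]
    simp
  have h2 : ∀ m : ℤ, (z ^ 2).coeff (m + 2 * N) = ((y ^ 2 : PowerSeries k) : LaurentSeries k).coeff m := by
    intro m
    rw [h1, HahnSeries.coeff_single_mul_add, one_mul]
  have h3 : ∀ m : ℤ, z.coeff (m + N) = ((y : PowerSeries k) : LaurentSeries k).coeff m := by
    intro m
    conv_lhs => rw [← hz]
    rw [HahnSeries.coeff_single_mul_add, one_mul]
  have h4 : ∀ (w : PowerSeries k) (m : ℤ), m < 0 → ((w : PowerSeries k) : LaurentSeries k).coeff m = 0 := by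
    intro w m hm
    exact val_le_one_iff.mp ((LaurentSeries.val_le_one_iff_eq_coe k _).mpr ⟨w, rfl⟩) m hm
  have h5 := h2 (n - 2 * N)
  have h6 := h3 (n / 2 - N)
  rw [sub_add_cancel] at h5 h6
  rw [h5, h6]
  rcases lt_or_ge (n - 2 * N) 0 with h | h
  · rw [h4 _ _ h]
    split_ifs with hn
    · rw [h4 _ _ (by obtain ⟨m, hm⟩ := hn; omega)]; simp
    · rfl
  · obtain ⟨m, hm⟩ := Int.eq_ofNat_of_zero_le h
    have h7 := LaurentSeries.coeff_coe_powerSeries (y ^ 2) m
    rw [hm, show ((y ^ 2 : PowerSeries k) : LaurentSeries k).coeff (m : ℤ) = _ from h7, coeff_sq_aux]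
    by_cases hn : Even n
    · have hm2 : Even m := by
        obtain ⟨t, ht⟩ := hn
        have : (m : ℤ) = 2 * (t - N) := by omega
        exact (Int.even_coe_nat m).mp ⟨t - N, by omega⟩
      rw [if_pos hn, if_pos hm2]
      have h8 := LaurentSeries.coeff_coe_powerSeries y (m / 2)
      have h9 : n / 2 - N = ((m / 2 : ℕ) : ℤ) := by
        obtain ⟨t, ht⟩ := hn
        push_cast
        omega
      rw [h9, show ((y : PowerSeries k) : LaurentSeries k).coeff ((m / 2 : ℕ) : ℤ) = _ from h8]
    · have hm2 : ¬ Even m := by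
        intro ⟨t, ht⟩
        apply hn
        exact ⟨t + N, by omega⟩
      rw [if_neg hn, if_neg hm2]

/-- solutions of the Artin-Schreier equation in power series -/
noncomputable def asroot (g : PowerSeries k) (c : k) : ℕ → k
  | 0 => c
  | (n + 1) => PowerSeries.coeff (n + 1) g +
      if Even (n + 1) then (asroot g c ((n + 1) / 2)) ^ 2 else 0
  decreasing_by omega

theorem exists_asroot [CharP k 2] (g : PowerSeries k) (c : k)
    (hc : c ^ 2 + c = PowerSeries.constantCoeff g) :
    ∃ r : PowerSeries k, r ^ 2 + r = g ∧ PowerSeries.constantCoeff r = c := by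
  have h2 : (2 : k) = 0 := by exact_mod_cast CharP.cast_eq_zero k 2
  refine ⟨PowerSeries.mk (asroot g c), ?_, ?_⟩
  · ext n
    rw [map_add, coeff_sq_aux, PowerSeries.coeff_mk, PowerSeries.coeff_mk]
    cases n with
    | zero =>
      simp only [Even.zero, if_true, Nat.zero_div, asroot, PowerSeries.coeff_zero_eq_constantCoeff]
      exact hc
    | succ n =>
      rw [asroot]
      split_ifs
      · linear_combination (asroot g c ((n + 1) / 2)) ^ 2 * h2
      · ring
  · rw [← PowerSeries.coeff_zero_eq_constantCoeff, PowerSeries.coeff_mk, asroot]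

end laurent

end Pool.Agent.Lib.MP_a82f45_ag
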