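import Pool.Agent.Lib.MP_a82f45_ag.Rat

set_option autoImplicit false
set_option linter.unusedSectionVars false
set_option linter.unusedSimpArgs false

namespace Pool.Agent.Lib.MP_a82f45_ag

universe u

open WithZero

section ell

open Polynomial

variable (k : Type u) [Field k] [CharP k 2]

/-- right-hand side of the equation of the elliptic curve -/
noncomputable abbrev fE : RatFunc k := (tt k) ^ 3

theorem vv_fE : vv k (fE k) = exp 3 := by
  rw [fE, map_pow, vv_X, ← exp_nsmul]; norm_num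

theorem no_root (r : RatFunc k) : r ^ 2 ≠ fE k + 1 * r := by
  intro hr
  have h2 := two_eq_zero k (RatFunc k)
  have h3 : r ^ 2 + r * 1 + 1 ^ 2 * fE k = 0 := by
    linear_combination hr + (r + fE k) * h2
  have h4 := parity (vv k) (a := r) (b := 1) (f := fE k) (d := 3) (by decide) (vv_fE k)
    (by rw [map_one]) (by rw [h3, map_zero]; exact zero_le)
  rw [one_pow, one_mul, vv_fE, ← exp_zero, exp_le_exp] at h4
  norm_num at h4

noncomputable instance factE : Fact (∀ r : RatFunc k, r ^ 2 ≠ fE k + 1 * r) := ⟨no_root k⟩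

/-- function field of the elliptic curve -/
abbrev EE : Type u := QuadraticAlgebra (RatFunc k) (fE k) 1

noncomputable abbrev iE : RatFunc k →ₐ[k] EE k := inc k (fE k)

variable {k}

theorem imE0 : iE k '' {tt k} = {iE k (tt k)} := Set.image_singleton
theorem imE1 : iE k '' {(tt k)⁻¹} = {(iE k (tt k))⁻¹} := by rw [Set.image_singleton, map_inv₀]
theorem imE01 : iE k '' {tt k, (tt k)⁻¹} = {iE k (tt k), (iE k (tt k))⁻¹} := by
  rw [Set.image_pair, map_inv₀]

theorem chartE0 {z : EE k} : z ∈ intRing k {iE k (tt k)} ↔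
    z.re ∈ intRing k {tt k} ∧ z.im ∈ intRing k {tt k} := by
  have hf : fE k ∈ intRing k {tt k} := pow_mem t_mem 3
  rw [← imE0, mem_quad]
  constructor
  · rintro ⟨h1, h2⟩
    refine ⟨?_, h1⟩
    have h3 := mul_mem (pow_mem h1 2) hf
    have h4 := sub_mem h2 h3
    rw [add_sub_cancel_right] at h4
    exact mem_of_quad h1 h4
  · rintro ⟨h1, h2⟩
    exact ⟨h2, add_mem (add_mem (pow_mem h1 2) (mul_mem h1 h2)) (mul_mem (pow_mem h2 2) hf)⟩

theorem chartE01 {z : EE k} : z ∈ intRing k {iE k (tt k), (iE k (tt k))⁻¹} ↔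
    z.re ∈ intRing k {tt k, (tt k)⁻¹} ∧ z.im ∈ intRing k {tt k, (tt k)⁻¹} := by
  have hf : fE k ∈ intRing k {tt k, (tt k)⁻¹} := A0_le (pow_mem t_mem 3)
  rw [← imE01, mem_quad]
  constructor
  · rintro ⟨h1, h2⟩
    refine ⟨?_, h1⟩
    have h3 := mul_mem (pow_mem h1 2) hf
    have h4 := sub_mem h2 h3
    rw [add_sub_cancel_right] at h4
    exact mem_of_quad h1 h4
  · rintro ⟨h1, h2⟩
    exact ⟨h2, add_mem (add_mem (pow_mem h1 2) (mul_mem h1 h2)) (mul_mem (pow_mem h2 2) hf)⟩

/-- valuation computation at infinity -/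
theorem vv_iff {b : RatFunc k} : vv k (b ^ 2 * fE k) ≤ 1 ↔ vv k b ≤ exp (-2 : ℤ) := by
  by_cases hb : b = 0
  · subst hb
    simp
  have hb0 : vv k b ≠ 0 := by rw [Ne, map_eq_zero]; exact hb
  rw [map_mul, map_pow, vv_fE]
  have h3 : vv k b ^ 2 * exp (3 : ℤ) ≠ 0 := mul_ne_zero (pow_ne_zero 2 hb0) exp_ne_zero
  rw [← log_le_log h3 one_ne_zero, ← log_le_iff_le_exp hb0,
    log_mul (pow_ne_zero 2 hb0) exp_ne_zero, log_exp, log_pow, log_one]
  simp only [nsmul_eq_mul]
  push_cast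
  omega

theorem chartE1 {z : EE k} : z ∈ intRing k {(iE k (tt k))⁻¹} ↔
    z.re ∈ intRing k {(tt k)⁻¹} ∧ z.im ∈ intRing k {(tt k)⁻¹} ∧ vv k z.im ≤ exp (-2 : ℤ) := by
  have hf : fE k ∈ intRing k {tt k, (tt k)⁻¹} := A0_le (pow_mem t_mem 3)
  rw [← imE1, mem_quad]
  constructor
  · rintro ⟨h1, h2⟩
    have h5 := parity (vv k) (a := z.re) (b := z.im) (f := fE k) (d := 3) (by decide) (vv_fE k)
      (vv_A1 h1) (vv_A1 h2)
    have h3 : z.im ^ 2 * fE k ∈ intRing k {(tt k)⁻¹} :=
      mem_A1_of (mul_mem (pow_mem (A1_le h1) 2) hf) h5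
    have h4 := sub_mem h2 h3
    rw [add_sub_cancel_right] at h4
    exact ⟨mem_of_quad h1 h4, h1, vv_iff.mp h5⟩
  · rintro ⟨h1, h2, h3⟩
    exact ⟨h2, add_mem (add_mem (pow_mem h1 2) (mul_mem h1 h2))
      (mem_A1_of (mul_mem (pow_mem (A1_le h2) 2) hf) (vv_iff.mpr h3))⟩

variable (k)

/-- the residue functional -/
noncomputable def rhoE : EE k →ₗ[k] k where
  toFun z := (lau k z.im).coeff (-1)
  map_add' z w := by rw [QuadraticAlgebra.im_add, map_add, HahnSeries.coeff_add]
  map_smul' c z := by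
    rw [QuadraticAlgebra.im_smul, map_smul', RingHom.id_apply, smul_eq_mul]

variable {k}

theorem rhoE_apply (z : EE k) : rhoE k z = (lau k z.im).coeff (-1) := rfl

/-- multiplication by the coordinate -/
theorem lau_t (w : RatFunc k) (n : ℤ) : (lau k (tt k * w)).coeff (n + 1) = (lau k w).coeff n := by
  rw [map_mul, lau_X, coeff_single_one_mul]

theorem val_lau {q : RatFunc k} (hq : q ∈ intRing k {tt k}) : Valued.v (lau k q) ≤ (1 : ℤᵐ⁰) := by
  obtain ⟨p, rfl⟩ := mem_A0.mp hq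
  rw [lau_poly]
  exact (LaurentSeries.val_le_one_iff_eq_coe k _).mpr ⟨_, rfl⟩

theorem div_t {q : RatFunc k} (hq : q ∈ intRing k {tt k}) (h0 : (lau k q).coeff 0 = 0) :
    (tt k)⁻¹ * q ∈ intRing k {tt k} := by
  obtain ⟨p, rfl⟩ := mem_A0.mp hq
  have h1 := coeff_lau_poly p 0
  rw [Nat.cast_zero, h0] at h1
  obtain ⟨r, rfl⟩ := Polynomial.X_dvd_iff.mpr h1.symm
  rw [map_mul, RatFunc.algebraMap_X, ← mul_assoc, inv_mul_cancel₀ (tt0 k), one_mul]
  exact mem_A0.mpr ⟨r, rfl⟩

theorem mul_im' (z w : EE k) : (z * w).im = z.re * w.im + z.im * w.re + z.im * w.im := by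
  rw [QuadraticAlgebra.im_mul, one_mul]

theorem mul_re' (z w : EE k) : (z * w).re = z.re * w.re + fE k * z.im * w.im := by
  rw [QuadraticAlgebra.re_mul]

/-- the point above zero attached to a root -/
noncomputable def homE (r : PowerSeries k) (hr : (r : LaurentSeries k) ^ 2 + r = lau k (fE k)) :
    EE k →ₐ[k] LaurentSeries k where
  toFun z := lau k z.re + lau k z.im * r
  map_one' := by
    change lau k 1 + lau k 0 * r = 1
    rw [map_one, map_zero, zero_mul, add_zero]
  map_mul' z w := by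
    have h2 := two_laurent (k := k)
    rw [mul_re', mul_im']
    simp only [map_add, map_mul]
    linear_combination (-(lau k z.im * lau k w.im)) * hr + (lau k z.im * lau k w.im * r) * h2
  map_zero' := by simp
  map_add' z w := by
    rw [QuadraticAlgebra.re_add, QuadraticAlgebra.im_add, map_add, map_add]
    ring
  commutes' c := by
    change lau k (algebraMap k (RatFunc k) c) + lau k 0 * (r : LaurentSeries k) = _
    rw [map_zero, zero_mul, add_zero, AlgHom.commutes]

theorem homE_apply (r : PowerSeries k) (hr : (r : LaurentSeries k) ^ 2 + r = lau k (fE k)) (z : EE k) :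
    homE r hr z = lau k z.re + lau k z.im * r := rfl

theorem coeff_homE (r : PowerSeries k) (hr : (r : LaurentSeries k) ^ 2 + r = lau k (fE k)) {z : EE k}
    (hz : z ∈ intRing k {iE k (tt k)}) : (homE r hr z).coeff 0 =
      (lau k z.re).coeff 0 + (lau k z.im).coeff 0 * PowerSeries.constantCoeff r := by
  rw [chartE0] at hz
  rw [homE_apply, HahnSeries.coeff_add, coeff_zero_mul (val_lau hz.2) (val_ps r), coeff_ps]

theorem root_const (r : PowerSeries k) (hr : (r : LaurentSeries k) ^ 2 + r = lau k (fE k)) :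
    PowerSeries.constantCoeff r ^ 2 + PowerSeries.constantCoeff r = 0 := by
  have h1 : r ^ 2 + r = PowerSeries.X ^ 3 := by
    apply HahnSeries.ofPowerSeries_injective (Γ := ℤ) (R := k)
    have h3 : lau k (fE k) = (((PowerSeries.X : PowerSeries k) ^ 3 : PowerSeries k) : LaurentSeries k) := by
      rw [fE, map_pow, lau_X, PowerSeries.coe_pow, PowerSeries.coe_X]
    rw [← h3, ← hr, ← PowerSeries.coe_pow, ← PowerSeries.coe_add]
  have h2 := congrArg PowerSeries.constantCoeff h1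
  simpa using h2

theorem coeff_t : (lau k (tt k)).coeff 1 = 1 := by
  rw [lau_X]; exact HahnSeries.coeff_single_same _ _

theorem coeff_t0 : (lau k (tt k)).coeff 0 = 0 := by
  rw [lau_X]; exact HahnSeries.coeff_single_of_ne (by norm_num)

theorem homE_t (r : PowerSeries k) (hr : (r : LaurentSeries k) ^ 2 + r = lau k (fE k)) :
    homE r hr (iE k (tt k)) = HahnSeries.single 1 1 := by
  rw [homE_apply]
  change lau k (tt k) + lau k 0 * _ = _
  rw [map_zero, zero_mul, add_zero, lau_X]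

theorem homE_shift (r : PowerSeries k) (hr : (r : LaurentSeries k) ^ 2 + r = lau k (fE k)) (w : EE k) :
    (homE r hr w).coeff (-1) = (homE r hr (iE k (tt k) * w)).coeff 0 := by
  rw [map_mul, homE_t, show (0 : ℤ) = -1 + 1 by norm_num, coeff_single_one_mul]

theorem coeff_const (c : k) : (lau k (algebraMap k (RatFunc k) c)).coeff 0 = c := by
  rw [AlgHom.commutes, coeff_algMap, if_pos rfl]

theorem coeff_neg_A0 {q : RatFunc k} (hq : q ∈ intRing k {tt k}) : (lau k q).coeff (-1) = 0 :=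
  val_le_one_iff.mp (val_lau hq) (-1) (by norm_num)

theorem coeff_cmul (c : k) (w : RatFunc k) (n : ℤ) :
    (lau k (algebraMap k (RatFunc k) c * w)).coeff n = c * (lau k w).coeff n := by
  rw [map_mul, AlgHom.commutes, coeff_smul']

/-- point above zero -/
noncomputable def ptE (r : PowerSeries k) (hr : (r : LaurentSeries k) ^ 2 + r = lau k (fE k)) :
    Pt k (iE k (tt k)) (rhoE k) where
  σ := homE r hr
  hx := homE_t r hr
  u := ⟨(tt k)⁻¹ * algebraMap k (RatFunc k) (PowerSeries.constantCoeff r + 1), (tt k)⁻¹⟩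
  hu := by
    intro s hs hs0
    have h2 := two_eq_zero k (RatFunc k)
    have h2k : (2 : k) = 0 := two_eq_zero k k
    rw [coeff_homE r hr hs] at hs0
    rw [chartE0] at hs
    have hc := root_const r hr
    obtain ⟨c, hcd⟩ : ∃ c, c = PowerSeries.constantCoeff r := ⟨_, rfl⟩
    rw [← hcd] at hs0 hc ⊢
    have e1 : (tt k)⁻¹ * (s.re + algebraMap k (RatFunc k) c * s.im) ∈ intRing k {tt k} := by
      apply div_t (add_mem hs.1 (mul_mem (c_mem _ _) hs.2))
      rw [map_add, HahnSeries.coeff_add, coeff_cmul]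
      linear_combination hs0
    have e2 : (tt k)⁻¹ * (algebraMap k (RatFunc k) (c + 1) * s.re) ∈ intRing k {tt k} := by
      apply div_t (mul_mem (c_mem _ _) hs.1)
      rw [coeff_cmul]
      linear_combination (c + 1) * hs0 - (lau k s.im).coeff 0 * hc
    rw [chartE0]
    have hti : (tt k)⁻¹ * (tt k) ^ 3 = (tt k) ^ 2 := by
      rw [pow_succ' (tt k) 2, ← mul_assoc, inv_mul_cancel₀ (tt0 k), one_mul]
    constructor
    · rw [mul_re']
      have : (tt k)⁻¹ * algebraMap k (RatFunc k) (c + 1) * s.re + fE k * (tt k)⁻¹ * s.im =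
          (tt k)⁻¹ * (algebraMap k (RatFunc k) (c + 1) * s.re) + (tt k) ^ 2 * s.im := by
        linear_combination s.im * hti
      change (tt k)⁻¹ * algebraMap k (RatFunc k) (c + 1) * s.re + fE k * (tt k)⁻¹ * s.im ∈ _
      rw [this]
      exact add_mem e2 (mul_mem (pow_mem t_mem 2) hs.2)
    · rw [mul_im']
      change (tt k)⁻¹ * algebraMap k (RatFunc k) (c + 1) * s.im + (tt k)⁻¹ * s.re + (tt k)⁻¹ * s.im ∈ _
      have : (tt k)⁻¹ * algebraMap k (RatFunc k) (c + 1) * s.im + (tt k)⁻¹ * s.re + (tt k)⁻¹ * s.im =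
          (tt k)⁻¹ * (s.re + algebraMap k (RatFunc k) c * s.im) := by
        rw [map_add, map_one]
        linear_combination ((tt k)⁻¹ * s.im) * h2
      rw [this]
      exact e1
  hu0 := by
    have h2k : (2 : k) = 0 := two_eq_zero k k
    rw [homE_shift]
    have h1 : iE k (tt k) * (⟨(tt k)⁻¹ * algebraMap k (RatFunc k) (PowerSeries.constantCoeff r + 1), (tt k)⁻¹⟩ : EE k)
        = ⟨algebraMap k (RatFunc k) (PowerSeries.constantCoeff r + 1), 1⟩ := by
      have hti : (tt k) * (tt k)⁻¹ = 1 := mul_inv_cancel₀ (tt0 k)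
      ext
      · rw [mul_re']
        change tt k * ((tt k)⁻¹ * _) + fE k * 0 * _ = _
        rw [mul_zero, zero_mul, add_zero, ← mul_assoc, hti, one_mul]
      · rw [mul_im']
        change tt k * (tt k)⁻¹ + 0 * _ + 0 * _ = _
        rw [zero_mul, zero_mul, add_zero, add_zero, hti]
    rw [h1, coeff_homE r hr (chartE0.mpr ⟨c_mem _ _, one_mem _⟩), coeff_const]
    change PowerSeries.constantCoeff r + 1 + (lau k 1).coeff 0 * _ ≠ 0
    have h3 := coeff_const (1 : k)
    rw [map_one] at h3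
    rw [h3]
    have h4 : PowerSeries.constantCoeff r + 1 + 1 * PowerSeries.constantCoeff r = 1 := by
      linear_combination (PowerSeries.constantCoeff r) * h2k
    rw [h4]
    exact one_ne_zero
  hρ := by
    intro w hw
    have h2k : (2 : k) = 0 := two_eq_zero k k
    have h1 := hw (iE k (tt k)) x_mem (by
      rw [homE_t]; exact HahnSeries.coeff_single_of_ne (by norm_num))
    rw [mul_comm] at h1
    rw [homE_shift, coeff_homE r hr h1]
    have h3 : (⟨algebraMap k (RatFunc k) (PowerSeries.constantCoeff r), 1⟩ : EE k) ∈ intRing k {iE k (tt k)} :=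
      chartE0.mpr ⟨c_mem _ _, one_mem _⟩
    have h4 := hw _ h3 (by
      rw [coeff_homE r hr h3, coeff_const]
      change _ + (lau k 1).coeff 0 * _ = 0
      have h3 := coeff_const (1 : k)
      rw [map_one] at h3
      rw [h3]
      linear_combination (PowerSeries.constantCoeff r) * h2k)
    have h5 := coeff_neg_A0 (chartE0.mp h4).2
    rw [mul_im'] at h5
    change (lau k (w.re * 1 + w.im * algebraMap k (RatFunc k) (PowerSeries.constantCoeff r) + w.im * 1)).coeff (-1) = 0 at h5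
    rw [mul_one, mul_one, mul_comm w.im, map_add, map_add, HahnSeries.coeff_add, HahnSeries.coeff_add,
      coeff_cmul] at h5
    have h6 : (iE k (tt k) * w).re = tt k * w.re := by
      rw [mul_re']
      change tt k * w.re + fE k * 0 * w.im = _
      ring
    have h7 : (iE k (tt k) * w).im = tt k * w.im := by
      rw [mul_im']
      change tt k * w.im + 0 * w.re + 0 * w.im = _
      ring
    rw [h6, h7, show (0 : ℤ) = -1 + 1 by norm_num, lau_t, lau_t, rhoE_apply]
    linear_combination (-1 : k) * h5 + (lau k w.im).coeff (-1) * h2k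

theorem exists_rootE (c : k) (hc : c ^ 2 + c = 0) :
    ∃ r : PowerSeries k, (r : LaurentSeries k) ^ 2 + r = lau k (fE k) ∧ PowerSeries.constantCoeff r = c := by
  obtain ⟨r, h1, h2⟩ := exists_asroot (PowerSeries.X ^ 3 : PowerSeries k) c (by simpa using hc)
  refine ⟨r, ?_, h2⟩
  rw [fE, map_pow, lau_X, ← PowerSeries.coe_X, ← PowerSeries.coe_pow, ← PowerSeries.coe_pow,
    ← PowerSeries.coe_add, h1]

theorem sq_imE (z : EE k) : (z ^ 2).im = z.im ^ 2 := by
  have h2 := two_eq_zero k (RatFunc k)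
  rw [pow_two, mul_im']
  linear_combination (z.re * z.im) * h2

theorem sq_reE (z : EE k) : (z ^ 2).re = z.re ^ 2 + fE k * z.im ^ 2 := by
  rw [pow_two, mul_re']
  ring

variable (k)

noncomputable def kapE : EE k := ⟨0, (tt k)⁻¹⟩

noncomputable def alpE : EE k := ⟨0, ((tt k)⁻¹) ^ 2⟩

variable {k}

theorem kap_sq : (kapE k) ^ 2 = alpE k + iE k (tt k) := by
  have hti : (tt k) * (tt k)⁻¹ = 1 := mul_inv_cancel₀ (tt0 k)
  ext
  · rw [sq_reE]
    change 0 ^ 2 + (tt k) ^ 3 * ((tt k)⁻¹) ^ 2 = 0 + tt k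
    linear_combination (tt k) * (tt k * (tt k)⁻¹ + 1) * hti
  · rw [sq_imE]
    change ((tt k)⁻¹) ^ 2 = ((tt k)⁻¹) ^ 2 + 0
    ring

theorem rho_alp (a : EE k) : rhoE k (alpE k * a ^ 2) = (rhoE k a) ^ 2 := by
  have h1 : (alpE k * a ^ 2).im = ((tt k)⁻¹ * a.re) ^ 2 + (tt k) * a.im ^ 2 + ((tt k)⁻¹ * a.im) ^ 2 := by
    have hti : (tt k) * (tt k)⁻¹ = 1 := mul_inv_cancel₀ (tt0 k)
    rw [mul_im', sq_imE, sq_reE]
    change 0 * a.im ^ 2 + ((tt k)⁻¹) ^ 2 * (a.re ^ 2 + (tt k) ^ 3 * a.im ^ 2) + ((tt k)⁻¹) ^ 2 * a.im ^ 2 = _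
    linear_combination (a.im ^ 2 * tt k) * (tt k * (tt k)⁻¹ + 1) * hti
  have hodd : ¬ Even (-1 : ℤ) := by decide
  rw [rhoE_apply, h1, map_add, map_add, HahnSeries.coeff_add, HahnSeries.coeff_add, map_pow, map_pow,
    coeff_sq, coeff_sq, if_neg hodd, if_neg hodd, show (-1 : ℤ) = -2 + 1 by norm_num, lau_t, map_pow,
    coeff_sq, if_pos (by decide), rhoE_apply]
  norm_num

theorem rhoE0 (a : EE k) (ha : a ∈ intRing k {iE k (tt k)}) : rhoE k a = 0 :=
  coeff_neg_A0 (chartE0.mp ha).2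

theorem rhoE1 (a : EE k) (ha : a ∈ intRing k {(iE k (tt k))⁻¹}) : rhoE k a = 0 := by
  rw [chartE1] at ha
  exact coeff_of_vv (A1_le ha.2.1) ha.2.2

theorem rhoES {a : EE k} (ha : a ∈ Ssub k (iE k (tt k))) : rhoE k a = 0 := by
  rw [mem_S] at ha
  obtain ⟨b, hb, c, hc, rfl⟩ := ha
  rw [map_add, rhoE0 b hb, rhoE1 c hc, add_zero]

theorem rho_kap : rhoE k (kapE k) = 1 := by
  rw [rhoE_apply]
  change (lau k (tt k)⁻¹).coeff (-1) = 1
  rw [← lau_t, mul_inv_cancel₀ (tt0 k)]
  have h3 := coeff_const (1 : k)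
  rw [map_one] at h3
  exact h3

/-- every function on the overlap is a multiple of kappa modulo functions extending to a chart -/
theorem kerE (a : EE k) (ha : a ∈ intRing k {iE k (tt k), (iE k (tt k))⁻¹}) :
    ∃ c : k, a + c • kapE k ∈ Ssub k (iE k (tt k)) := by
  have h2 := two_eq_zero k (RatFunc k)
  rw [chartE01] at ha
  obtain ⟨q, hq, c, w, hw, hwv, h1⟩ := decomp ha.2
  obtain ⟨q', hq', c', w', hw', hwv', h1'⟩ := decomp ha.1
  refine ⟨c, ?_⟩
  rw [mem_S]
  refine ⟨⟨q', q⟩, chartE0.mpr ⟨hq', hq⟩, ⟨c' • (tt k)⁻¹ + w', w⟩, chartE1.mpr ⟨?_, hw, hwv⟩, ?_⟩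
  · exact add_mem (Subalgebra.smul_mem (intRing k {(tt k)⁻¹}) tinv_mem c') hw'
  · ext
    · change q' + (c' • (tt k)⁻¹ + w') = a.re + c • (0 : RatFunc k)
      rw [h1', smul_zero]
      ring
    · change q + w = a.im + c • (tt k)⁻¹
      rw [h1]
      linear_combination (-(c • (tt k)⁻¹)) * h2

theorem kap_mem : kapE k ∈ intRing k {iE k (tt k), (iE k (tt k))⁻¹} :=
  chartE01.mpr ⟨zero_mem _, A1_le tinv_mem⟩

theorem alp_mem : alpE k ∈ intRing k {(iE k (tt k))⁻¹} := by
  refine chartE1.mpr ⟨zero_mem _, pow_mem tinv_mem 2, ?_⟩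
  change vv k (((tt k)⁻¹) ^ 2) ≤ _
  rw [map_pow, map_inv₀, vv_X, ← exp_neg, ← exp_nsmul]
  norm_num

theorem rankE : Module.rank k (Vsub k (iE k (tt k)) ⧸ (Ssub k (iE k (tt k))).submoduleOf (Vsub k (iE k (tt k)))) = (1 : ℕ) := by
  let φ : Vsub k (iE k (tt k)) →ₗ[k] k := (rhoE k).comp (Vsub k (iE k (tt k))).subtype
  have hker : LinearMap.ker φ = (Ssub k (iE k (tt k))).submoduleOf (Vsub k (iE k (tt k))) := by
    ext a
    rw [LinearMap.mem_ker]
    change φ a = 0 ↔ (a : EE k) ∈ Ssub k (iE k (tt k))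
    constructor
    · intro h
      obtain ⟨c, hc⟩ := kerE (a : EE k) a.2
      have h3 := rhoES hc
      have h4 : rhoE k (a : EE k) = 0 := h
      rw [map_add, h4, map_smul, rho_kap, zero_add, smul_eq_mul, mul_one] at h3
      rw [h3, zero_smul, add_zero] at hc
      exact hc
    · intro h
      exact rhoES h
  have hsurj : Function.Surjective φ := by
    intro c
    refine ⟨c • ⟨kapE k, kap_mem⟩, ?_⟩
    rw [map_smul]
    change c • rhoE k (kapE k) = c
    rw [rho_kap, smul_eq_mul, mul_one]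
  rw [← hker, (LinearMap.quotKerEquivOfSurjective φ hsurj).rank_eq, Module.rank_self, Nat.cast_one]

theorem exists_stage_one : Nonempty (Stage k (EE k) (iE k (tt k)) 1) := by
  obtain ⟨r0, h0, hc0⟩ := exists_rootE (0 : k) (by ring)
  obtain ⟨r1, h1, hc1⟩ := exists_rootE (1 : k) (by linear_combination two_eq_zero k k)
  refine ⟨{
    x0 := by rw [Ne, map_eq_zero]; exact tt0 k
    inter := ?_
    ρ := rhoE k
    ρ0 := rhoE0
    ρ1 := rhoE1
    ρsq := ?_
    α := alpE k
    κ := kapE k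
    hα := alp_mem
    hκ := kap_mem
    hκα := kap_sq
    ρα := rho_alp
    hκS := ?_
    ker := fun a ha _ => kerE a ha
    n := 1
    nil := ?_
    rk := rankE
    P := ptE r0 h0
    Q := ptE r1 h1
    hPQ := ?_ }⟩
  · intro a ha0 ha1
    rw [chartE0] at ha0
    rw [chartE1] at ha1
    have hi := inter_zero ha0.2 ha1.2.2
    obtain ⟨c, hc⟩ := inter_const ha0.1 (vv_A1 ha1.1)
    refine ⟨c, ?_⟩
    ext
    · rw [hc]; rfl
    · rw [hi]; rfl
  · intro a
    rw [rhoE_apply, sq_imE, map_pow, coeff_sq, if_neg (by decide)]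
  · intro h
    have := rhoES h
    rw [rho_kap] at this
    exact one_ne_zero this
  · intro a ha
    obtain ⟨c, hc⟩ := kerE a ha
    have h2 := two_eq_zero k (EE k)
    have h3 : a ^ (2 ^ 1) = (a + c • kapE k) ^ 2 + (c ^ 2) • (alpE k + iE k (tt k)) := by
      rw [← kap_sq, Algebra.smul_def, Algebra.smul_def, map_pow]
      linear_combination (-(a * (algebraMap k (EE k) c * kapE k)) -  (algebraMap k (EE k) c * kapE k) ^ 2) * h2
    rw [h3]
    refine add_mem (sq_mem_S hc) (Submodule.smul_mem _ _ (add_mem (S_of_right alp_mem) (S_of_left x_mem)))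
  · have hy : (⟨0, 1⟩ : EE k) ∈ intRing k {iE k (tt k)} := chartE0.mpr ⟨zero_mem _, one_mem _⟩
    have h3 := coeff_const (1 : k)
    rw [map_one] at h3
    refine ⟨⟨0, 1⟩, hy, ?_, ?_⟩
    · change (homE r0 h0 _).coeff 0 = 0
      rw [coeff_homE r0 h0 hy, hc0]
      change (lau k 0).coeff 0 + (lau k 1).coeff 0 * 0 = 0
      rw [map_zero, mul_zero, add_zero]
      rfl
    · change (homE r1 h1 _).coeff 0 ≠ 0
      rw [coeff_homE r1 h1 hy, hc1]
      change (lau k 0).coeff 0 + (lau k 1).coeff 0 * 1 ≠ 0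
      rw [map_zero, h3, mul_one]
      change (0 : k) + 1 ≠ 0
      rw [zero_add]
      exact one_ne_zero

end ell

end Pool.Agent.Lib.MP_a82f45_ag
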