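import Pool.Agent.Lib.MP_a82f45_ag.Iso

set_option autoImplicit false

namespace Pool.Agent.Lib.MP_a82f45_ag

universe u

open Polynomial Finset

section final

variable {k : Type u} [Field k] {g : ℕ}

/-- relation between the scaled matrix and the matrix of coefficients -/
theorem scaled (p K n : ℕ) (hpn : p = 2 * n + 1) {s : k} (hs : s ≠ 0)
    {l : ℕ → k} {μ : Fin g → k} (hK : ∀ a : Fin g, p ^ (a : ℕ) ≤ K)
    (hE : ∀ a b : Fin g, a ≠ b → 0 ≤ expE p K a b)
    (hA : ∀ a : Fin g, gco p K n g s l a a = s ^ (K - p ^ (a : ℕ)) * μ a) (a b : Fin g) :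
    (s ^ ((gsum p a : ℤ) - K * (a : ℤ) ^ 2)) ^ p *
        (if (b : ℕ) + 1 ≤ ((a : ℕ) + 1) * p then
          ((phi K g s l) ^ n).coeff (((a : ℕ) + 1) * p - ((b : ℕ) + 1)) else 0) =
      s ^ ((K : ℤ) - 1) * s ^ ((gsum p b : ℤ) - K * (b : ℤ) ^ 2) * PP p K n g s l μ a b := by
  rw [phi_coeff p K n g hpn]
  have h1 : PP p K n g s l μ a b = s ^ (expE p K a b) * gco p K n g s l a b := by
    rw [PP]
    split_ifs with h
    · subst h
      rw [hA, expE_diag, ← mul_assoc]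
      have h2 : s ^ ((p : ℤ) ^ (a : ℕ) - K) * s ^ (K - p ^ (a : ℕ)) = 1 := by
        rw [← zpow_natCast, ← zpow_add₀ hs, Nat.cast_sub (hK a)]
        push_cast
        rw [show (p : ℤ) ^ (a : ℕ) - K + (K - (p : ℤ) ^ (a : ℕ)) = 0 by ring, zpow_zero]
      rw [h2, one_mul]
    · rw [← zpow_natCast, Int.toNat_of_nonneg (hE a b h)]
  rw [h1, gco]
  split_ifs with hb
  · have h2 := Gp_coeff K n g s l a a.2.le (p * a + n - b)
    have h3 : (Psi K n g s l).coeff (p * a + n - b) =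
        s ^ (2 * K * (a : ℤ) * (p * a + n - b) - 2 * K * a * (a + 1) * n) *
          (Gp K n g s l a).coeff (p * a + n - b) := by
      rw [zpow_sub₀ hs, div_mul_eq_mul_div, eq_div_iff (zpow_ne_zero _ hs)]
      rw [mul_comm]
      have e1 : s ^ (2 * (K : ℤ) * a * (a + 1) * n) = s ^ (2 * K * (a : ℕ) * (a + 1) * n) := by
        rw [← zpow_natCast]; push_cast; rfl
      have e2 : s ^ (2 * (K : ℤ) * (a : ℤ) * (p * a + n - b)) =
          (s ^ (2 * K * (a : ℕ))) ^ (p * (a : ℕ) + n - b) := by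
        rw [← pow_mul, ← zpow_natCast]
        push_cast [Nat.cast_sub hb]
        rfl
      rw [e1, e2, ← h2, mul_comm]
    rw [h3, ← zpow_natCast, ← zpow_mul, ← mul_assoc, ← zpow_add₀ hs, ← mul_assoc, ← zpow_add₀ hs,
      ← zpow_add₀ hs]
    congr 2
    rw [expE, gsum_succ']
    subst hpn
    push_cast
    ring
  · rw [mul_zero, mul_zero, mul_zero]

/-- existence of the hyperelliptic polynomial -/
theorem exists_family (p : ℕ) [Fact p.Prime] (n : ℕ) (hpn : p = 2 * n + 1) (k : Type u) [Field k]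
    [CharP k p] [IsAlgClosed k] (g : ℕ) [NeZero g] :
    ∃ f : k[X], Squarefree f ∧ f.natDegree = 2 * g + 1 ∧
      ∃ (θ : Fin g → k) (c : k) (Φ : Fin g → Fin g → k), (∀ a, θ a ≠ 0) ∧ c ≠ 0 ∧
        (∀ a b : Fin g, θ a ^ p * (if (b : ℕ) + 1 ≤ ((a : ℕ) + 1) * p then
          (f ^ n).coeff (((a : ℕ) + 1) * p - ((b : ℕ) + 1)) else 0) = c * θ b * Φ a b) ∧
        (stp p Φ)^[g] (Pi.single 0 1) = 0 ∧
        (Matrix.of fun j b : Fin g => (stp p Φ)^[(j : ℕ)] (Pi.single 0 1) b).det ≠ 0 := by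
  have hpp : p.Prime := Fact.out
  have hp2 : 2 ≤ p := hpp.two_le
  obtain ⟨l0, h0, hl0, hl1, h1⟩ := exists_ss p n hpn k
  obtain ⟨K, hKdef⟩ : ∃ K, K = p ^ g := ⟨_, rfl⟩
  have hK : p ^ g ≤ K := hKdef.ge
  have hK0 : 0 < K := lt_of_lt_of_le (Nat.pow_pos (by omega)) hK
  let hfam : Option (((Fin g × Bool) × (Fin g × Bool)) ⊕ Fin g) → MvPolynomial (Sg g) k
    | none => dd k g p K n l0
    | some (Sum.inl x) =>
      if x.1 ≠ x.2 ∧ x.1.1 ≤ x.2.1 then
        Lam (sL k g l0) x.1.1 x.1.2 -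
          Lam (sL k g l0) x.2.1 x.2.2 * sS k g ^ (2 * K * ((x.2.1 : ℕ) - x.1.1)) else 1
    | some (Sum.inr r) => sL k g l0 r
  have hLam : ∀ (r : ℕ) (e : Bool),
      MvPolynomial.eval (0 : Sg g → k) (Lam (sL k g l0) r e) = if e then l0 else 1 := by
    intro r e
    rw [Lam]
    split_ifs
    · exact eval_sL k g l0 r
    · exact map_one _
  have hhf : ∀ i, MvPolynomial.eval (0 : Sg g → k) (hfam i) ≠ 0 := by
    intro i
    match i with
    | none => exact eval_dd hp2 hK hpn hl0 h1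
    | some (Sum.inl x) =>
      change MvPolynomial.eval (0 : Sg g → k) (if x.1 ≠ x.2 ∧ x.1.1 ≤ x.2.1 then _ else 1) ≠ 0
      split_ifs with hx
      · rw [map_sub, map_mul, map_pow, hLam, hLam, eval_sS]
        by_cases h2 : x.1.1 = x.2.1
        · rw [h2, Nat.sub_self, mul_zero, pow_zero, mul_one]
          have h3 : x.1.2 ≠ x.2.2 := fun h3 => hx.1 (Prod.ext h2 h3)
          have hl1' : l0 - 1 ≠ 0 := sub_ne_zero.mpr hl1
          have hl1'' : 1 - l0 ≠ 0 := sub_ne_zero.mpr (Ne.symm hl1)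
          rcases hb1 : x.1.2 with _ | _ <;> rcases hb2 : x.2.2 with _ | _
          · rw [hb1, hb2] at h3; exact absurd rfl h3
          · simpa using hl1''
          · simpa using hl1'
          · rw [hb1, hb2] at h3; exact absurd rfl h3
        · have h3 : (x.1.1 : ℕ) < x.2.1 := lt_of_le_of_ne hx.2 (fun h => h2 (Fin.ext h))
          have h4 : 2 * K * ((x.2.1 : ℕ) - x.1.1) ≠ 0 := by
            have : 0 < 2 * K * ((x.2.1 : ℕ) - x.1.1) := Nat.mul_pos (by omega) (by omega)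
            omega
          rw [zero_pow h4, mul_zero, sub_zero]
          split_ifs
          · exact hl0
          · exact one_ne_zero
      · rw [map_one]; exact one_ne_zero
    | some (Sum.inr r) =>
      change MvPolynomial.eval (0 : Sg g → k) (sL k g l0 r) ≠ 0
      rw [eval_sL]; exact hl0
  obtain ⟨x, hx1, hx2, hx3⟩ := exists_point k (σ := Sg g) (ι := Fin g ⊕ Fin g)
    (by simp) (eqs k g p K n l0)
    (eval_eqs hp2 hK hpn hl0 h0 h1) (sS k g)
    (fun P hP hF hs hle j => iso hK hpn hl0 h1 P hP hF hs hle j) hfam hhf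
  obtain ⟨s, hsdef⟩ : ∃ s, s = MvPolynomial.eval x (sS k g) := ⟨_, rfl⟩
  obtain ⟨l, hldef⟩ : ∃ l : ℕ → k, l = fun r => MvPolynomial.eval x (sL k g l0 r) := ⟨_, rfl⟩
  obtain ⟨μ, hμdef⟩ : ∃ μ : Fin g → k, μ = fun a => MvPolynomial.eval x (sM k g a) := ⟨_, rfl⟩
  have hs : s ≠ 0 := by rw [hsdef]; exact hx2
  have hsq := phi_sqf K g hs (l := l) (fun r hr => by
      have := hx3 (some (Sum.inr ⟨r, hr⟩))
      rw [hldef]; exact this)
    (fun y z hyz hle => by
      have h2 := hx3 (some (Sum.inl (y, z)))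
      have h3 : hfam (some (Sum.inl (y, z))) = Lam (sL k g l0) y.1 y.2 -
          Lam (sL k g l0) z.1 z.2 * sS k g ^ (2 * K * ((z.1 : ℕ) - y.1)) := if_pos ⟨hyz, hle⟩
      rw [h3, map_sub, map_mul, map_pow, ← hsdef] at h2
      have h4 : ∀ (r : ℕ) (e : Bool), MvPolynomial.eval x (Lam (sL k g l0) r e) = Lam l r e := by
        intro r e
        rw [Lam, Lam, hldef]
        split_ifs
        · rfl
        · exact map_one _
      rw [h4, h4] at h2
      exact h2)
  refine ⟨phi K g s l, hsq.1, hsq.2, fun a => s ^ ((gsum p a : ℤ) - K * (a : ℤ) ^ 2),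
    s ^ ((K : ℤ) - 1), PP p K n g s l μ, fun a => zpow_ne_zero _ hs, zpow_ne_zero _ hs, ?_, ?_, ?_⟩
  · intro a b
    refine scaled p K n hpn hs (fun a => ?_) (fun a b hab => ?_) (fun a => ?_) a b
    · exact (Nat.pow_le_pow_right (by omega) a.2.le).trans hK
    · by_cases h2 : (b : ℕ) = a + 1
      · rw [h2, expE_succ]
      · exact (expE_pos p K g a b hp2 hK b.2 (fun h => hab (Fin.ext h.symm)) h2).le
    · have h2 := hx1 (Sum.inl a)
      rw [map_eqs_inl, ← hsdef, ← hldef] at h2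
      rw [hμdef]
      exact sub_eq_zero.mp h2
  · funext b
    have h2 := hx1 (Sum.inr b)
    rw [map_eqs_inr, ← hsdef, ← hldef, ← hμdef] at h2
    exact h2
  · have h2 := hx3 none
    change MvPolynomial.eval x (dd k g p K n l0) ≠ 0 at h2
    rw [map_dd, ← hsdef, ← hldef, ← hμdef] at h2
    exact h2

end final

end Pool.Agent.Lib.MP_a82f45_ag
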