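import Pool.Agent.Lib.MP_a82f45_ag.Stage

set_option autoImplicit false
set_option linter.unusedSectionVars false
set_option linter.unusedSimpArgs false

namespace Pool.Agent.Lib.MP_a82f45_ag

universe u

open WithZero

section ext

variable {k : Type u} [Field k] [CharP k 2] {K : Type u} [Field K] [Algebra k K] {x : K} {g : ℕ}
  {St : Stage k K x g} {e : ℕ} (B : Branch St e)

abbrev Ext : Type u := QuadraticAlgebra K B.f1 1

instance factExt : Fact (∀ r : K, r ^ 2 ≠ B.f1 + 1 * r) := ⟨fact_of_branch B⟩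

noncomputable abbrev io : K →ₐ[k] Ext B := inc k B.f1

theorem io_re (a : K) : (io B a).re = a := rfl
theorem io_im (a : K) : (io B a).im = 0 := rfl

theorem im0 : io B '' {x} = {io B x} := Set.image_singleton
theorem im1 : io B '' {x⁻¹} = {(io B x)⁻¹} := by rw [Set.image_singleton, map_inv₀]
theorem im01 : io B '' {x, x⁻¹} = {io B x, (io B x)⁻¹} := by rw [Set.image_pair, map_inv₀]

theorem mem_of_quad {s : Set K} {a b : K} (hb : b ∈ intRing k s) (h : a ^ 2 + a * b ∈ intRing k s) :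
    a ∈ intRing k s := by
  have h2 := two_eq_zero k K
  refine quad_mem hb h ?_
  linear_combination (a ^ 2 + a * b) * h2

theorem chart1 {z : Ext B} : z ∈ intRing k {(io B x)⁻¹} ↔
    z.re ∈ intRing k {x⁻¹} ∧ z.im ∈ intRing k {x⁻¹} := by
  rw [← im1, mem_quad]
  constructor
  · rintro ⟨h1, h2⟩
    refine ⟨?_, h1⟩
    have h3 := mul_mem (pow_mem h1 2) B.hf1
    have h4 := sub_mem h2 h3
    rw [add_sub_cancel_right] at h4
    exact mem_of_quad h1 h4
  · rintro ⟨h1, h2⟩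
    exact ⟨h2, add_mem (add_mem (pow_mem h1 2) (mul_mem h1 h2)) (mul_mem (pow_mem h2 2) B.hf1)⟩

theorem chart01 {z : Ext B} : z ∈ intRing k {io B x, (io B x)⁻¹} ↔
    z.re ∈ intRing k {x, x⁻¹} ∧ z.im ∈ intRing k {x, x⁻¹} := by
  rw [← im01, mem_quad]
  have hf := right_le B.hf1
  constructor
  · rintro ⟨h1, h2⟩
    refine ⟨?_, h1⟩
    have h3 := mul_mem (pow_mem h1 2) hf
    have h4 := sub_mem h2 h3
    rw [add_sub_cancel_right] at h4
    exact mem_of_quad h1 h4
  · rintro ⟨h1, h2⟩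
    exact ⟨h2, add_mem (add_mem (pow_mem h1 2) (mul_mem h1 h2)) (mul_mem (pow_mem h2 2) hf)⟩

/-- the local condition at the branch point -/
theorem idl_of_norm {a b : K} (hb : b ∈ intRing k {x})
    (h : a ^ 2 + a * b + b ^ 2 * B.f0 ∈ intRing k {x}) : idl St.P e b := by
  apply idl_of_val St.P hb
  have h1 := val_pt St.P h
  rw [map_add St.P.σ, map_add St.P.σ, map_pow St.P.σ, map_mul St.P.σ, map_mul St.P.σ, map_pow St.P.σ] at h1
  have h2 := parity Valued.v (d := 2 * (e : ℤ) - 1) ⟨(e : ℤ) - 1, by ring⟩ B.hval (val_pt St.P hb) h1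
  rw [map_mul, map_pow, B.hval] at h2
  by_cases h0 : Valued.v (St.P.σ b) = (0 : ℤᵐ⁰)
  · rw [h0]; exact zero_le
  · rw [← log_le_iff_le_exp h0]
    have h3 : Valued.v (St.P.σ b) ^ 2 * exp (2 * (e : ℤ) - 1) ≠ 0 :=
      mul_ne_zero (pow_ne_zero 2 h0) exp_ne_zero
    have h4 := (log_le_log h3 one_ne_zero).mpr h2
    rw [log_mul (pow_ne_zero 2 h0) exp_ne_zero, log_exp, log_pow, log_one] at h4
    simp only [nsmul_eq_mul] at h4
    push_cast at h4
    omega

theorem chart0 {z : Ext B} : z ∈ intRing k {io B x} ↔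
    z.re + z.im * B.h ∈ intRing k {x} ∧ idl St.P e z.im := by
  rw [← im0, mem_quad]
  have h2 := two_eq_zero k K
  have key : z.re ^ 2 + z.re * z.im + z.im ^ 2 * B.f1 =
      (z.re + z.im * B.h) ^ 2 + (z.re + z.im * B.h) * z.im + z.im ^ 2 * B.f0 := by
    linear_combination (-(z.im ^ 2)) * B.hfh + (z.im ^ 2 * B.f1 - z.re * z.im * B.h - z.im ^ 2 * B.h ^ 2 - z.im ^ 2 * B.h) * h2
  rw [key]
  constructor
  · rintro ⟨h3, h4⟩
    have h5 := idl_of_norm B h3 h4
    refine ⟨?_, h5⟩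
    have h6 := sub_mem h4 (B.hreg _ h5)
    rw [add_sub_cancel_right] at h6
    exact mem_of_quad h3 h6
  · rintro ⟨h3, h4⟩
    exact ⟨h4.1, add_mem (add_mem (pow_mem h3 2) (mul_mem h3 h4.1)) (B.hreg _ h4)⟩

/-- the trace functional -/
noncomputable def rhoL : Ext B →ₗ[k] k where
  toFun := fun z => St.ρ z.im
  map_add' := fun z w => by rw [QuadraticAlgebra.im_add, map_add]
  map_smul' := fun c z => by rw [QuadraticAlgebra.im_smul, map_smul]; rfl

theorem rhoL_apply (z : Ext B) : rhoL B z = St.ρ z.im := rfl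

theorem idl_le {P : Pt k x St.ρ} {b : K} {e' : ℕ} (he : e' ≤ e) (hb : idl P e b) : idl P e' b :=
  ⟨hb.1, fun m hm => hb.2 m (by omega)⟩

include B in
/-- the only constant in the ideal is zero -/
theorem idl_const {b : K} (h0 : idl St.P e b) (h1 : b ∈ intRing k {x⁻¹}) : b = 0 := by
  obtain ⟨c, hc⟩ := St.inter b h0.1 h1
  have h2 := h0.2 0 (by have := B.he; omega)
  rw [hc, AlgHom.commutes, coeff_algMap, if_pos rfl] at h2
  rw [hc, h2, map_zero]

theorem interL (z : Ext B) (h0 : z ∈ intRing k {io B x}) (h1 : z ∈ intRing k {(io B x)⁻¹}) :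
    ∃ c : k, z = algebraMap k (Ext B) c := by
  rw [chart0] at h0
  rw [chart1] at h1
  have h2 := idl_const B h0.2 h1.2
  rw [h2, zero_mul, add_zero] at h0
  obtain ⟨c, hc⟩ := St.inter _ h0.1 h1.1
  refine ⟨c, ?_⟩
  have : algebraMap k (Ext B) c = ⟨algebraMap k K c, 0⟩ := rfl
  rw [this]
  ext
  · exact hc
  · exact h2

/-- description of the functions extending to one of the two charts -/
theorem mem_SL {z : Ext B} : z ∈ Ssub k (io B x) ↔
    ∃ b0 b1 : K, idl St.P e b0 ∧ b1 ∈ intRing k {x⁻¹} ∧ z.im = b0 + b1 ∧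
      z.re + b0 * B.h ∈ Ssub k x := by
  rw [mem_S]
  have h2 := two_eq_zero k K
  constructor
  · rintro ⟨z0, hz0, z1, hz1, rfl⟩
    rw [chart0] at hz0
    rw [chart1] at hz1
    refine ⟨z0.im, z1.im, hz0.2, hz1.2, by simp, ?_⟩
    rw [mem_S]
    exact ⟨_, hz0.1, _, hz1.1, by simp; ring⟩
  · rintro ⟨b0, b1, h0, h1, him, hre⟩
    rw [mem_S] at hre
    obtain ⟨a0, ha0, a1, ha1, hsum⟩ := hre
    refine ⟨⟨a0 + b0 * B.h, b0⟩, ?_, ⟨a1, b1⟩, ?_, ?_⟩
    · rw [chart0]
      refine ⟨?_, h0⟩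
      have : a0 + b0 * B.h + b0 * B.h = a0 := by linear_combination (b0 * B.h) * h2
      change a0 + b0 * B.h + b0 * B.h ∈ _
      rw [this]; exact ha0
    · rw [chart1]; exact ⟨ha1, h1⟩
    · ext
      · simp
        linear_combination hsum + (b0 * B.h) * h2
      · simp [him]

theorem io_mem_SL {a : K} : io B a ∈ Ssub k (io B x) ↔ a ∈ Ssub k x := by
  rw [mem_SL]
  have h2 := two_eq_zero k K
  constructor
  · rintro ⟨b0, b1, h0, h1, him, hre⟩
    rw [io_im] at him
    have h3 : b0 = b1 := by linear_combination b0 * h2 + him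
    have h4 : b0 = 0 := idl_const B h0 (h3 ▸ h1)
    rw [io_re, h4, zero_mul, add_zero] at hre
    exact hre
  · intro ha
    refine ⟨0, 0, ⟨zero_mem _, ?_⟩, zero_mem _, by simp [io_im], by rw [io_re, zero_mul, add_zero]; exact ha⟩
    intro m _
    rw [map_zero]; rfl

end ext

end Pool.Agent.Lib.MP_a82f45_ag
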