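import Pool.Agent.Lib.MP_a82f45_ag.Gpoly

set_option autoImplicit false

namespace Pool.Agent.Lib.MP_a82f45_ag

open Polynomial Finset

section

variable {D : Type*} [CommRing D]

theorem coeff_one_sub (l : D) (n j : ℕ) :
    ((1 - C l * X : D[X]) ^ n).coeff j = (n.choose j : D) * (-l) ^ j := by
  have h : (1 - C l * X : D[X]) ^ n = ((1 + X : D[X]) ^ n).comp (C (-l) * X) := by
    rw [pow_comp, add_comp, one_comp, X_comp, C_neg]
    congr 1
    ring
  rw [h, comp_C_mul_X_coeff, coeff_one_add_X_pow]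

theorem qf_one (l : D) : qf 1 l = (1 - C 1 * X) * (1 - C l * X) := by
  rw [qf, mul_one]

theorem qf_coeff (l : D) (n m : ℕ) :
    ((qf 1 l) ^ n).coeff m = ∑ x ∈ antidiagonal m,
      ((n.choose x.1 : D) * (-1) ^ x.1) * ((n.choose x.2 : D) * (-l) ^ x.2) := by
  rw [qf_one, mul_pow, coeff_mul]
  simp only [coeff_one_sub]

/-- the Hasse polynomial (up to sign) -/
noncomputable def hT (k : Type*) [Field k] (n : ℕ) : k[X] := ((qf 1 (X : k[X])) ^ n).coeff n

theorem aeval_hT {k : Type*} [Field k] [Algebra k D] (n : ℕ) (l : D) :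
    aeval l (hT k n) = ((qf 1 l) ^ n).coeff n := by
  have h := coeff_map (p := (qf 1 (X : k[X])) ^ n) (aeval l : k[X] →ₐ[k] D).toRingHom n
  rw [Polynomial.map_pow, map_qf] at h
  have h2 : (aeval l : k[X] →ₐ[k] D).toRingHom X = l := by simp
  rw [h2, map_one] at h
  exact h.symm

theorem eval_hT {k : Type*} [Field k] (n : ℕ) (l : k) :
    (hT k n).eval l = ((qf 1 l) ^ n).coeff n := by
  rw [← aeval_hT (k := k) n l, coe_aeval_eq_eval]

theorem coeff_hT {k : Type*} [Field k] (n : ℕ) : (hT k n).coeff n = (-1) ^ n := by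
  rw [hT, qf_coeff, finsetSum_coeff]
  rw [Finset.sum_eq_single (0, n)]
  · simp only [Nat.choose_zero_right, Nat.cast_one, pow_zero, mul_one, Nat.choose_self, one_mul]
    rw [neg_pow, show ((-1 : k[X]) ^ n) = C ((-1) ^ n) by simp, coeff_C_mul, coeff_X_pow, if_pos rfl, mul_one]
  · rintro ⟨i, j⟩ h hne
    rw [HasAntidiagonal.mem_antidiagonal] at h
    simp only at h
    have hj : n ≠ j := by
      intro h2
      apply hne
      ext
      · simp only; omega
      · simp only; omega
    rw [neg_pow (X : k[X])]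
    have h3 : ((n.choose (i, j).1 : k[X]) * (-1) ^ (i, j).1) * ((n.choose (i, j).2 : k[X]) * ((-1) ^ (i, j).2 * X ^ (i, j).2)) =
      C ((n.choose i : k) * (-1) ^ i * ((n.choose j : k) * (-1) ^ j)) * X ^ j := by
      simp only [C_mul, C_pow, C_neg, C_1, map_natCast]
      ring
    rw [h3, coeff_C_mul, coeff_X_pow, if_neg hj, mul_zero]
  · intro h
    exfalso
    apply h
    rw [HasAntidiagonal.mem_antidiagonal]
    simp

theorem coeff_X_mul_derivative (P : D[X]) (m : ℕ) : (X * derivative P).coeff m = m * P.coeff m := by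
  cases m with
  | zero => simp
  | succ m => rw [coeff_X_mul, coeff_derivative]; push_cast; ring

theorem rec_qf (l : D) (n m : ℕ) :
    ((m : D) + 2) * ((qf 1 l) ^ n).coeff (m + 2) =
      (1 + l) * ((m : D) + 1 - n) * ((qf 1 l) ^ n).coeff (m + 1) +
        l * (2 * n - m) * ((qf 1 l) ^ n).coeff m := by
  set P := (qf 1 l) ^ n with hP
  have h1 : qf 1 l * (X * derivative P) = C (n : D) * (X * derivative (qf 1 l)) * P := by
    rw [hP]
    cases n with
    | zero => simp
    | succ n =>
      rw [derivative_pow_succ, pow_succ]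
      simp only [Nat.cast_add, Nat.cast_one, map_add, map_natCast, map_one]
      ring
  have h2 : qf 1 l = 1 - C (1 + l) * X + C l * X ^ 2 := by
    rw [qf_one]
    simp only [map_add, map_one]
    ring
  have h3 : derivative (qf 1 l) = - C (1 + l) + C (2 * l) * X := by
    rw [h2]
    simp only [derivative_add, derivative_sub, derivative_one, derivative_mul, derivative_C,
      derivative_X, derivative_X_pow]
    simp only [zero_mul, mul_one, zero_add, zero_sub, Nat.cast_ofNat, Nat.add_one_sub_one, pow_one, C_mul,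
      map_ofNat]
    ring
  rw [h3, h2] at h1
  have h4 : (_ : D[X]).coeff (m + 2) = (_ : D[X]).coeff (m + 2) := congrArg (fun Q : D[X] => Q.coeff (m + 2)) h1
  obtain ⟨E, hE0⟩ : ∃ E, E = X * derivative P := ⟨_, rfl⟩
  have hE : ∀ j, E.coeff j = j * P.coeff j := fun j => by rw [hE0, coeff_X_mul_derivative]
  rw [← hE0] at h4
  have e1 : (1 - C (1 + l) * X + C l * X ^ 2) * E =
      E - C (1 + l) * (X * E) + C l * (X * (X * E)) := by
    ring
  have e2 : C (n : D) * (X * (-C (1 + l) + C (2 * l) * X)) * P =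
      - (C (n * (1 + l)) * (X * P)) + C (n * (2 * l)) * (X * (X * P)) := by
    simp only [C_mul]
    ring
  rw [e1, e2] at h4
  have c1 : ∀ Q : D[X], (X * Q).coeff (m + 2) = Q.coeff (m + 1) := fun Q => by
    rw [show m + 2 = (m + 1) + 1 by ring, coeff_X_mul]
  have c2 : ∀ Q : D[X], (X * Q).coeff (m + 1) = Q.coeff m := fun Q => by
    rw [coeff_X_mul]
  simp only [coeff_add, coeff_sub, coeff_neg, coeff_C_mul, c1, c2, hE] at h4
  push_cast at h4
  linear_combination h4

end

/-- a supersingular parameter -/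
theorem exists_ss (p : ℕ) [Fact p.Prime] (n : ℕ) (hn : p = 2 * n + 1) (k : Type*) [Field k]
    [CharP k p] [IsAlgClosed k] :
    ∃ l : k, ((qf 1 l) ^ n).coeff n = 0 ∧ l ≠ 0 ∧ l ≠ 1 ∧ ((qf 1 l) ^ n).coeff (n - 1) ≠ 0 := by
  have hp : p.Prime := Fact.out
  have hn0 : 0 < n := by
    rcases Nat.eq_zero_or_pos n with h | h
    · subst h; simp at hn; subst hn; exact absurd hp Nat.not_prime_one
    · exact h
  have hcast : ∀ m : ℕ, 0 < m → m < p → (m : k) ≠ 0 := by
    intro m h1 h2 h3
    rw [CharP.cast_eq_zero_iff k p] at h3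
    exact absurd (Nat.le_of_dvd h1 h3) (not_le.mpr h2)
  have hdeg : (hT k n).degree ≠ 0 := by
    intro h
    have h1 := coeff_hT (k := k) n
    rw [eq_C_of_degree_eq_zero h, coeff_C, if_neg (by omega)] at h1
    exact (pow_ne_zero n (neg_ne_zero.mpr one_ne_zero)) h1.symm
  obtain ⟨l, hl⟩ := IsAlgClosed.exists_root (hT k n) hdeg
  rw [IsRoot.def, eval_hT] at hl
  have hl0 : l ≠ 0 := by
    rintro rfl
    rw [qf_one, C_0, zero_mul, sub_zero, mul_one, coeff_one_sub, Nat.choose_self] at hl
    simp at hl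
  have hl1 : l ≠ 1 := by
    rintro rfl
    rw [qf_one, ← pow_two, ← pow_mul, coeff_one_sub] at hl
    have h2 : ((2 * n).choose n : k) ≠ 0 := by
      intro h3
      rw [CharP.cast_eq_zero_iff k p] at h3
      have h4 : p ∣ Nat.factorial (2 * n) := by
        have := Nat.choose_mul_factorial_mul_factorial (n := 2 * n) (k := n) (by omega)
        rw [← this]
        exact Dvd.dvd.mul_right (Dvd.dvd.mul_right h3 _) _
      rw [hp.dvd_factorial] at h4
      omega
    exact (mul_ne_zero h2 (pow_ne_zero n (neg_ne_zero.mpr one_ne_zero))) hl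
  refine ⟨l, hl, hl0, hl1, ?_⟩
  intro hcon
  have key : ∀ j, j ≤ n - 1 → ((qf 1 l) ^ n).coeff (n - 1 - j) = 0 ∧ ((qf 1 l) ^ n).coeff (n - j) = 0 := by
    intro j
    induction j with
    | zero => intro _; exact ⟨hcon, hl⟩
    | succ j ih =>
      intro hj
      obtain ⟨h1, h2⟩ := ih (by omega)
      obtain ⟨m, hm⟩ : ∃ m, n = m + j + 2 := ⟨n - j - 2, by omega⟩
      have e1 : n - 1 - j = m + 1 := by omega
      have e2 : n - j = m + 2 := by omega
      have e3 : n - 1 - (j + 1) = m := by omega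
      have e4 : n - (j + 1) = m + 1 := by omega
      rw [e1] at h1
      rw [e2] at h2
      rw [e3, e4]
      refine ⟨?_, h1⟩
      have h5 := rec_qf l n m
      rw [h1, h2, mul_zero, mul_zero, zero_add] at h5
      have h6 : (2 * (n : k) - m) ≠ 0 := by
        have := hcast (2 * n - m) (by omega) (by omega)
        rw [Nat.cast_sub (by omega)] at this
        push_cast at this
        exact this
      rcases mul_eq_zero.mp h5.symm with h7 | h7
      · exact absurd h7 (mul_ne_zero hl0 h6)
      · exact h7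
  have h0 := (key (n - 1) le_rfl).1
  rw [Nat.sub_self, qf_coeff] at h0
  simp at h0

end Pool.Agent.Lib.MP_a82f45_ag
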