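import Mathlib

set_option autoImplicit false

namespace Pool.Agent.Lib.MP_a82f45_ag

universe u

namespace Krull

section height

variable {k : Type u} [Field k] {σ : Type} [Fintype σ]

/-- the substitution `X i ↦ 0` for `i ∈ s` -/
noncomputable def kil (k : Type u) [Field k] {σ : Type} (s : Finset σ) :
    MvPolynomial σ k →ₐ[k] MvPolynomial σ k := by
  classical
  exact MvPolynomial.aeval (fun i => if i ∈ s then 0 else MvPolynomial.X i)

lemma kil_X {σ : Type} [DecidableEq σ] (s : Finset σ) (i : σ) :
    kil k s (MvPolynomial.X i) = if i ∈ s then 0 else MvPolynomial.X i := by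
  unfold kil
  simp

lemma kil_kil {σ : Type} {s t : Finset σ} (h : s ⊆ t) (p : MvPolynomial σ k) :
    kil k t (kil k s p) = kil k t p := by
  classical
  have : (kil k t).comp (kil k s) = kil k t := by
    apply MvPolynomial.algHom_ext
    intro i
    simp only [AlgHom.comp_apply, kil_X]
    by_cases hi : i ∈ s
    · simp [hi, h hi]
    · simp only [hi, if_false, kil_X]
  exact DFunLike.congr_fun this p

lemma card_le_height {σ : Type} (s : Finset σ) :
    (s.card : ℕ∞) ≤ (RingHom.ker (kil k s)).height := by
  classical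
  induction s using Finset.induction_on with
  | empty => simp
  | insert a s ha ih =>
    rw [Finset.card_insert_of_notMem ha]
    have hp1 : (RingHom.ker (kil k s)).IsPrime := RingHom.ker_isPrime _
    have hp2 : (RingHom.ker (kil k (insert a s))).IsPrime := RingHom.ker_isPrime _
    have hlt : RingHom.ker (kil k s) < RingHom.ker (kil k (insert a s)) := by
      refine lt_of_le_of_ne ?_ ?_
      · intro p hp
        rw [RingHom.mem_ker] at hp ⊢
        rw [← kil_kil (Finset.subset_insert a s), hp, map_zero]
      · intro he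
        have h1 : (MvPolynomial.X a : MvPolynomial σ k) ∈ RingHom.ker (kil k (insert a s)) := by
          rw [RingHom.mem_ker, kil_X]
          simp
        rw [← he, RingHom.mem_ker, kil_X, if_neg ha] at h1
        exact MvPolynomial.X_ne_zero a h1
    have := Ideal.height_add_one_le_of_lt_of_isPrime hlt
    push_cast
    refine le_trans ?_ this
    gcongr

lemma card_le_height_ker_eval :
    (Fintype.card σ : ℕ∞) ≤ (RingHom.ker (MvPolynomial.eval (0 : σ → k))).height := by
  classical
  have h := card_le_height (k := k) (Finset.univ : Finset σ)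
  rw [Finset.card_univ] at h
  refine h.trans (Ideal.height_mono ?_)
  intro p hp
  rw [RingHom.mem_ker] at hp ⊢
  have : (MvPolynomial.eval (0 : σ → k)) (kil k Finset.univ p) = MvPolynomial.eval (0 : σ → k) p := by
    unfold kil
    rw [MvPolynomial.aeval_def, MvPolynomial.algebraMap_eq]
    change (MvPolynomial.eval (0 : σ → k)) (MvPolynomial.bind₁ _ p) = _
    rw [MvPolynomial.eval, MvPolynomial.eval₂Hom_bind₁]
    congr 1
    simp only [MvPolynomial.coe_eval₂Hom]
    simp
  rw [← this, hp, map_zero]

end height

end Krull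

/-- existence of points off a hypersurface on a subvariety given by few equations -/
theorem exists_point (k : Type u) [Field k] [IsAlgClosed k] {σ : Type} [Fintype σ]
    {ι : Type} [Fintype ι] (hc : Fintype.card ι < Fintype.card σ)
    (F : ι → MvPolynomial σ k) (hF : ∀ i, MvPolynomial.eval (0 : σ → k) (F i) = 0)
    (s : MvPolynomial σ k)
    (hiso : ∀ P : Ideal (MvPolynomial σ k), P.IsPrime → (∀ i, F i ∈ P) → s ∈ P →
      P ≤ RingHom.ker (MvPolynomial.eval (0 : σ → k)) → ∀ j, MvPolynomial.X j ∈ P)
    {ι' : Type} [Fintype ι'] (h : ι' → MvPolynomial σ k)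
    (hh : ∀ i, MvPolynomial.eval (0 : σ → k) (h i) ≠ 0) :
    ∃ x : σ → k, (∀ i, MvPolynomial.eval x (F i) = 0) ∧ MvPolynomial.eval x s ≠ 0 ∧
      ∀ i, MvPolynomial.eval x (h i) ≠ 0 := by
  classical
  set m0 : Ideal (MvPolynomial σ k) := RingHom.ker (MvPolynomial.eval (0 : σ → k)) with hm0
  have hm0p : m0.IsPrime := RingHom.ker_isPrime _
  have hIm : Ideal.span (Set.range F) ≤ m0 := by
    rw [Ideal.span_le]
    rintro _ ⟨i, rfl⟩
    exact (RingHom.mem_ker).2 (hF i)
  obtain ⟨P, hPmin, hPm⟩ := Ideal.exists_minimalPrimes_le hIm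
  have hPp : P.IsPrime := hPmin.1.1
  have hFP : ∀ i, F i ∈ P := fun i => hPmin.1.2 (Ideal.subset_span ⟨i, rfl⟩)
  -- height of P
  have hP1 : P.height ≤ (Fintype.card ι : ℕ∞) := by
    refine (Ideal.height_le_card_of_mem_minimalPrimes_span (Set.finite_range F) hPmin).trans ?_
    rw [Nat.cast_le, ← Set.image_univ, ← Nat.card_eq_fintype_card, ← Set.ncard_univ]
    exact Set.ncard_image_le (Set.finite_univ)
  have hne : P ≠ m0 := by
    intro he
    have h1 := Krull.card_le_height_ker_eval (k := k) (σ := σ)
    rw [← hm0, ← he] at h1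
    have h2 := h1.trans hP1
    rw [Nat.cast_le] at h2
    omega
  have hs : s ∉ P := by
    intro hs
    have hX := hiso P hPp hFP hs hPm
    apply hne
    refine le_antisymm hPm ?_
    intro q hq
    rw [hm0, RingHom.mem_ker] at hq
    have hker : ∀ q : MvPolynomial σ k,
        q - MvPolynomial.C (MvPolynomial.eval (0 : σ → k) q) ∈ P := by
      intro q
      induction q using MvPolynomial.induction_on with
      | C a => simp
      | add a b ha hb =>
        have := P.add_mem ha hb
        rwa [← add_sub_add_comm, ← map_add, ← map_add] at this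
      | mul_X a i ha =>
        simp only [map_mul, MvPolynomial.eval_X, Pi.zero_apply, mul_zero, map_zero, sub_zero]
        exact P.mul_mem_left _ (hX i)
    have := hker q
    rwa [hq, map_zero, sub_zero] at this
  have hprod : s * ∏ i, h i ∉ P := by
    intro hm
    rcases hPp.mem_or_mem hm with h1 | h1
    · exact hs h1
    · rw [hPp.prod_mem_iff] at h1
      obtain ⟨i, -, hi⟩ := h1
      exact hh i ((RingHom.mem_ker).1 (hPm hi))
  have hrad : P = MvPolynomial.vanishingIdeal k (MvPolynomial.zeroLocus k P) := by
    rw [MvPolynomial.IsPrime.vanishingIdeal_zeroLocus]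
  rw [hrad, MvPolynomial.mem_vanishingIdeal_iff] at hprod
  push Not at hprod
  obtain ⟨x, hx, hx2⟩ := hprod
  rw [MvPolynomial.mem_zeroLocus_iff] at hx
  refine ⟨x, fun i => ?_, ?_, ?_⟩
  · have := hx _ (hFP i)
    simpa using this
  · intro h0
    apply hx2
    simp [h0]
  · intro i h0
    apply hx2
    simp only [map_mul, map_prod]
    have : ∏ j, (MvPolynomial.aeval x) (h j) = 0 := by
      apply Finset.prod_eq_zero (Finset.mem_univ i)
      simpa using h0
    rw [this, mul_zero]

/-- a semilinear map with a cyclic nilpotent vector is nilpotent with one-dimensional kernel -/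
theorem cyclic_nilpotent (p : ℕ) [Fact p.Prime] {k : Type u} [Field k] [CharP k p] {V : Type u}
    [AddCommGroup V] [Module k V] (F : V →ₛₗ[frobenius k p] V) (g : ℕ) (hg : 1 ≤ g)
    (hV : Module.finrank k V = g) (v : V)
    (hli : LinearIndependent k (fun j : Fin g => F^[(j : ℕ)] v)) (h0 : F^[g] v = 0) :
    (∀ h, F^[g] h = 0) ∧ Module.finrank k (LinearMap.ker F) = 1 := by
  classical
  have hF0 : ∀ n, g ≤ n → F^[n] v = 0 := by
    intro n hn
    induction n, hn using Nat.le_induction with
    | base => exact h0
    | succ n hn ih => rw [Function.iterate_succ_apply', ih, map_zero]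
  have : Nonempty (Fin g) := ⟨⟨0, hg⟩⟩
  let b := basisOfLinearIndependentOfCardEqFinrank hli (by rw [Fintype.card_fin, hV])
  have hb : ∀ j : Fin g, b j = F^[(j : ℕ)] v := by
    intro j
    simp [b]
  have hsum : ∀ h : V, h = ∑ j : Fin g, b.repr h j • F^[(j : ℕ)] v := by
    intro h
    conv_lhs => rw [← b.sum_repr h]
    exact Finset.sum_congr rfl fun j _ => by rw [hb]
  have hit : ∀ (n : ℕ) (h : V), F^[n] h = ∑ j : Fin g, (b.repr h j) ^ p ^ n • F^[(j : ℕ) + n] v := by
    intro n h
    induction n with
    | zero =>
      simp only [Function.iterate_zero, id, pow_zero, pow_one, add_zero]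
      exact hsum h
    | succ n ih =>
      rw [Function.iterate_succ_apply', ih, map_sum]
      refine Finset.sum_congr rfl fun j _ => ?_
      rw [LinearMap.map_smulₛₗ, ← Function.iterate_succ_apply' (f := F), frobenius_def, ← pow_mul,
        ← pow_succ]
      rfl
  refine ⟨fun h => ?_, ?_⟩
  · rw [hit]
    apply Finset.sum_eq_zero
    intro j _
    rw [hF0 _ (Nat.le_add_left _ _), smul_zero]
  · -- kernel is the line of F^[g-1] v
    have hlast : F^[g - 1] v ≠ 0 := by
      have := hli.ne_zero ⟨g - 1, by omega⟩
      simpa using this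
    have hmem : F^[g - 1] v ∈ LinearMap.ker F := by
      rw [LinearMap.mem_ker, ← Function.iterate_succ_apply' (f := F)]
      have : (g - 1).succ = g := by omega
      rw [this, h0]
    rw [finrank_eq_one_iff']
    refine ⟨⟨_, hmem⟩, ?_, ?_⟩
    · intro h
      exact hlast (congrArg Subtype.val h)
    · rintro ⟨w, hw⟩
      rw [LinearMap.mem_ker] at hw
      have h1 : ∑ j : Fin g, (b.repr w j) ^ p • F^[(j : ℕ) + 1] v = 0 := by
        have := hit 1 w
        rw [Function.iterate_one, hw, pow_one] at this
        exact this.symm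
      have h2 : ∀ j : Fin g, (j : ℕ) + 1 < g → b.repr w j = 0 := by
        intro j hj
        have h3 := congrArg (fun z => b.repr z ⟨(j : ℕ) + 1, hj⟩) h1
        simp only [map_sum, map_smul, map_zero, Finsupp.coe_zero, Pi.zero_apply,
          Finsupp.coe_finsetSum, Finset.sum_apply, Finsupp.coe_smul, Pi.smul_apply,
          smul_eq_mul] at h3
        rw [Finset.sum_eq_single j] at h3
        · have h4 : F^[(j : ℕ) + 1] v = b ⟨(j : ℕ) + 1, hj⟩ := (hb ⟨(j : ℕ) + 1, hj⟩).symm
          rw [h4, b.repr_self, Finsupp.single_eq_same, mul_one] at h3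
          exact (pow_eq_zero_iff (Fact.out : p.Prime).ne_zero).1 h3
        · intro i _ hij
          by_cases hi : (i : ℕ) + 1 < g
          · have h4 : F^[(i : ℕ) + 1] v = b ⟨(i : ℕ) + 1, hi⟩ := (hb ⟨(i : ℕ) + 1, hi⟩).symm
            rw [h4, b.repr_self, Finsupp.single_eq_of_ne, mul_zero]
            intro he
            apply hij
            have := congrArg Fin.val he
            simp only at this
            exact Fin.ext (by omega)
          · rw [hF0 _ (by omega), map_zero, Finsupp.coe_zero, Pi.zero_apply, mul_zero]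
        · simp
      refine ⟨b.repr w ⟨g - 1, by omega⟩, ?_⟩
      apply Subtype.ext
      change _ • F^[g - 1] v = w
      conv_rhs => rw [hsum w]
      rw [Finset.sum_eq_single (⟨g - 1, by omega⟩ : Fin g)]
      · intro j _ hj
        have : (j : ℕ) + 1 < g := by
          have h3 := j.2
          have : (j : ℕ) ≠ g - 1 := fun h => hj (Fin.ext h)
          omega
        rw [h2 j this, zero_smul]
      · simp

end Pool.Agent.Lib.MP_a82f45_ag
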