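import Mathlib

set_option autoImplicit false

namespace Pool.Agent.Lib.MP_a82f45_ag

open Finset

section

variable {D : Type*} [CommRing D] {g : ℕ}

/-- the semilinear map with matrix `Φ`, in coordinates -/
def stp (p : ℕ) (Φ : Fin g → Fin g → D) (v : Fin g → D) : Fin g → D :=
  fun b => ∑ a, v a ^ p * Φ a b

theorem map_stp {E : Type*} [CommRing E] (φ : D →+* E) (p : ℕ) (Φ : Fin g → Fin g → D)
    (v : Fin g → D) (b : Fin g) :
    φ (stp p Φ v b) = stp p (fun a b => φ (Φ a b)) (fun a => φ (v a)) b := by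
  simp [stp]

theorem map_stp_iter {E : Type*} [CommRing E] (φ : D →+* E) (p : ℕ) (Φ : Fin g → Fin g → D)
    (v : Fin g → D) (m : ℕ) (b : Fin g) :
    φ ((stp p Φ)^[m] v b) = (stp p (fun a b => φ (Φ a b)))^[m] (fun a => φ (v a)) b := by
  induction m generalizing b with
  | zero => rfl
  | succ m ih =>
    rw [Function.iterate_succ_apply', Function.iterate_succ_apply', map_stp]
    congr 1
    funext a
    exact ih a

theorem stp_zero (p : ℕ) (hp : p ≠ 0) (Φ : Fin g → Fin g → D) : stp p Φ 0 = 0 := by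
  funext b
  simp [stp, hp]

theorem stp_smul (p : ℕ) (Φ : Fin g → Fin g → D) (c : D) (v : Fin g → D) :
    stp p Φ (c • v) = c ^ p • stp p Φ v := by
  funext b
  simp only [stp, Pi.smul_apply, smul_eq_mul, mul_pow, Finset.mul_sum, mul_assoc]

theorem stp_add (p : ℕ) [Fact p.Prime] [CharP D p] (Φ : Fin g → Fin g → D) (v w : Fin g → D) :
    stp p Φ (v + w) = stp p Φ v + stp p Φ w := by
  funext b
  simp only [stp, Pi.add_apply, add_pow_char, add_mul, Finset.sum_add_distrib]

theorem stp_iter_zero (p : ℕ) (hp : p ≠ 0) (Φ : Fin g → Fin g → D) (m : ℕ) :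
    (stp p Φ)^[m] 0 = 0 := by
  induction m with
  | zero => rfl
  | succ m ih => rw [Function.iterate_succ_apply', ih, stp_zero p hp]

theorem stp_iter_smul (p : ℕ) (Φ : Fin g → Fin g → D) (m : ℕ) (c : D) (v : Fin g → D) :
    (stp p Φ)^[m] (c • v) = c ^ (p ^ m) • (stp p Φ)^[m] v := by
  induction m with
  | zero => simp
  | succ m ih => rw [Function.iterate_succ_apply', Function.iterate_succ_apply', ih, stp_smul,
      ← pow_mul, ← pow_succ]

theorem stp_iter_add (p : ℕ) [Fact p.Prime] [CharP D p] (Φ : Fin g → Fin g → D) (m : ℕ)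
    (v w : Fin g → D) :
    (stp p Φ)^[m] (v + w) = (stp p Φ)^[m] v + (stp p Φ)^[m] w := by
  induction m with
  | zero => rfl
  | succ m ih => rw [Function.iterate_succ_apply', Function.iterate_succ_apply',
      Function.iterate_succ_apply', ih, stp_add]

theorem stp_single (p : ℕ) (hp : p ≠ 0) (Φ : Fin g → Fin g → D) (i b : Fin g) (c : D) :
    stp p Φ (Pi.single i c) b = c ^ p * Φ i b := by
  rw [stp, Finset.sum_eq_single i]
  · rw [Pi.single_eq_same]
  · intro a _ ha
    rw [Pi.single_eq_of_ne ha, zero_pow hp, zero_mul]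
  · intro h; exact absurd (Finset.mem_univ i) h

/-- the orbit of the first basis vector under a nilpotent bidiagonal matrix -/
theorem orbit [IsDomain D] (p : ℕ) (hp : p ≠ 0) [NeZero g] (Φ : Fin g → Fin g → D)
    (h0 : ∀ a b : Fin g, (b : ℕ) ≠ (a : ℕ) + 1 → Φ a b = 0)
    (h1 : ∀ a b : Fin g, (b : ℕ) = (a : ℕ) + 1 → Φ a b ≠ 0) (j : ℕ) (hj : j < g) :
    ∃ c : D, c ≠ 0 ∧ (stp p Φ)^[j] (Pi.single 0 1) = Pi.single ⟨j, hj⟩ c := by
  induction j with
  | zero => exact ⟨1, one_ne_zero, rfl⟩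
  | succ j ih =>
    obtain ⟨c, hc, h⟩ := ih (by omega)
    refine ⟨c ^ p * Φ ⟨j, by omega⟩ ⟨j + 1, hj⟩, mul_ne_zero (pow_ne_zero p hc) (h1 _ _ rfl), ?_⟩
    rw [Function.iterate_succ_apply', h]
    funext b
    rw [stp_single p hp]
    by_cases hb : b = ⟨j + 1, hj⟩
    · rw [hb, Pi.single_eq_same]
    · rw [Pi.single_eq_of_ne hb, h0, mul_zero]
      intro h2
      exact hb (Fin.ext h2)

theorem orbit_last [IsDomain D] (p : ℕ) (hp : p ≠ 0) [NeZero g] (Φ : Fin g → Fin g → D)
    (h0 : ∀ a b : Fin g, (b : ℕ) ≠ (a : ℕ) + 1 → Φ a b = 0)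
    (h1 : ∀ a b : Fin g, (b : ℕ) = (a : ℕ) + 1 → Φ a b ≠ 0) :
    (stp p Φ)^[g] (Pi.single 0 1) = 0 := by
  have hg : 0 < g := Nat.pos_of_ne_zero (NeZero.ne g)
  obtain ⟨c, hc, h⟩ := orbit p hp Φ h0 h1 (g - 1) (by omega)
  have h2 : ∀ m, m = (g - 1) + 1 →
      (stp p Φ)^[m] (Pi.single 0 1) = stp p Φ ((stp p Φ)^[g - 1] (Pi.single 0 1)) := by
    rintro m rfl
    exact Function.iterate_succ_apply' _ _ _
  rw [h2 g (by omega), h]
  funext b
  rw [stp_single p hp, h0, mul_zero]
  · rfl
  · have := b.2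
    simp only
    omega

theorem orbit_det [IsDomain D] (p : ℕ) (hp : p ≠ 0) [NeZero g] (Φ : Fin g → Fin g → D)
    (h0 : ∀ a b : Fin g, (b : ℕ) ≠ (a : ℕ) + 1 → Φ a b = 0)
    (h1 : ∀ a b : Fin g, (b : ℕ) = (a : ℕ) + 1 → Φ a b ≠ 0) :
    (Matrix.of fun j b : Fin g => (stp p Φ)^[(j : ℕ)] (Pi.single 0 1) b).det ≠ 0 := by
  choose c hc h using fun j : Fin g => orbit p hp Φ h0 h1 j j.2
  have h2 : (Matrix.of fun j b : Fin g => (stp p Φ)^[(j : ℕ)] (Pi.single 0 1) b) =
      Matrix.diagonal c := by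
    ext j b
    rw [Matrix.of_apply, h j, Matrix.diagonal_apply]
    by_cases hb : j = b
    · subst hb; rw [if_pos rfl, Pi.single_eq_same]
    · rw [if_neg hb, Pi.single_eq_of_ne (fun h3 => hb h3.symm)]
  rw [h2, Matrix.det_diagonal]
  exact Finset.prod_ne_zero_iff.mpr fun i _ => hc i

/-- a bidiagonal matrix with nilpotent first basis vector has zero diagonal -/
theorem diag_zero [IsDomain D] (p : ℕ) [Fact p.Prime] [CharP D p] [NeZero g]
    (Φ : Fin g → Fin g → D)
    (h0 : ∀ a b : Fin g, (b : ℕ) ≠ (a : ℕ) → (b : ℕ) ≠ (a : ℕ) + 1 → Φ a b = 0)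
    (h1 : ∀ a b : Fin g, (b : ℕ) = (a : ℕ) + 1 → Φ a b ≠ 0)
    (hw : (stp p Φ)^[g] (Pi.single 0 1) = 0) (i : Fin g) : Φ i i = 0 := by
  have hp : p ≠ 0 := (Fact.out : p.Prime).ne_zero
  -- all basis vectors are killed
  have hall : ∀ i : ℕ, ∀ hi : i < g, (stp p Φ)^[g] (Pi.single ⟨i, hi⟩ 1) = 0 := by
    intro i
    induction i with
    | zero => intro _; exact hw
    | succ i ih =>
      intro hi
      have h2 := ih (by omega)
      have h3 : stp p Φ (Pi.single ⟨i, by omega⟩ 1) =
          Φ ⟨i, by omega⟩ ⟨i, by omega⟩ • Pi.single ⟨i, by omega⟩ 1 +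
          Φ ⟨i, by omega⟩ ⟨i + 1, hi⟩ • Pi.single ⟨i + 1, hi⟩ 1 := by
        funext b
        rw [stp_single p hp, one_pow, one_mul, Pi.add_apply, Pi.smul_apply, Pi.smul_apply,
          smul_eq_mul, smul_eq_mul]
        by_cases hb : b = ⟨i, by omega⟩
        · subst hb
          rw [Pi.single_eq_same, Pi.single_eq_of_ne (by simp [Fin.ext_iff]), mul_one, mul_zero,
            add_zero]
        · by_cases hb' : b = ⟨i + 1, hi⟩
          · subst hb'
            rw [Pi.single_eq_same, Pi.single_eq_of_ne hb, mul_one, mul_zero, zero_add]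
          · rw [Pi.single_eq_of_ne hb, Pi.single_eq_of_ne hb', mul_zero, mul_zero, add_zero]
            apply h0
            · intro h4; exact hb (Fin.ext h4)
            · intro h4; exact hb' (Fin.ext h4)
      have h4 : (stp p Φ)^[g] (stp p Φ (Pi.single ⟨i, by omega⟩ 1)) = 0 := by
        rw [← Function.iterate_succ_apply, Function.iterate_succ_apply', h2, stp_zero p hp]
      rw [h3, stp_iter_add, stp_iter_smul, stp_iter_smul, h2, smul_zero, zero_add] at h4
      rcases smul_eq_zero.mp h4 with h5 | h5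
      · exact absurd h5 (pow_ne_zero _ (h1 _ _ rfl))
      · exact h5
  by_contra hne
  have hcoord : ∀ m : ℕ, (∀ b : Fin g, b < i → (stp p Φ)^[m] (Pi.single i 1) b = 0) ∧
      (stp p Φ)^[m] (Pi.single i 1) i ≠ 0 := by
    intro m
    induction m with
    | zero =>
      refine ⟨fun b hb => ?_, ?_⟩
      · change Pi.single i 1 b = 0
        rw [Pi.single_eq_of_ne hb.ne]
      · change Pi.single i 1 i ≠ 0
        rw [Pi.single_eq_same]; exact one_ne_zero
    | succ m ih =>
      obtain ⟨ih1, ih2⟩ := ih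
      rw [Function.iterate_succ_apply']
      refine ⟨fun b hb => ?_, ?_⟩
      · rw [stp]
        apply Finset.sum_eq_zero
        intro a _
        by_cases ha : a < i
        · rw [ih1 a ha, zero_pow hp, zero_mul]
        · rw [h0, mul_zero]
          · have : (b : ℕ) < i := hb
            have : ¬ (a : ℕ) < i := ha
            omega
          · have : (b : ℕ) < i := hb
            have : ¬ (a : ℕ) < i := ha
            omega
      · rw [stp, Finset.sum_eq_single i]
        · exact mul_ne_zero (pow_ne_zero p ih2) hne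
        · intro a _ ha
          by_cases ha' : a < i
          · rw [ih1 a ha', zero_pow hp, zero_mul]
          · rw [h0, mul_zero]
            · have h5 : (a : ℕ) ≠ i := fun h => ha (Fin.ext h)
              omega
            · have h5 : (a : ℕ) ≠ i := fun h => ha (Fin.ext h)
              have : ¬ (a : ℕ) < i := ha'
              omega
        · intro h; exact absurd (Finset.mem_univ i) h
  have h6 := (hcoord g).2
  rw [hall i i.2] at h6
  exact h6 rfl

end

end Pool.Agent.Lib.MP_a82f45_ag
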