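import Pool.Agent.Lib.MP_a82f45_ag.Sqf
import Pool.Agent.Lib.MP_a82f45_ag.Hasse
import Pool.Agent.Lib.MP_a82f45_ag.Step
import Pool.Agent.Lib.MP_a82f45_ag.Krull

set_option autoImplicit false

namespace Pool.Agent.Lib.MP_a82f45_ag

universe u

open Polynomial Finset

section weights

/-- `1 + p + ... + p ^ (a - 1)` -/
def gsum (p a : ℕ) : ℕ := ∑ i ∈ range a, p ^ i

theorem gsum_succ (p a : ℕ) : gsum p (a + 1) = gsum p a + p ^ a := Finset.sum_range_succ _ _

theorem gsum_succ' (p a : ℕ) : gsum p (a + 1) = p * gsum p a + 1 := by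
  rw [gsum, Finset.sum_range_succ', gsum, Finset.mul_sum, pow_zero]
  congr 1
  apply Finset.sum_congr rfl
  intro i _
  rw [pow_succ, mul_comm]

theorem gsum_lt (p a : ℕ) (hp : 2 ≤ p) : gsum p a < p ^ a := by
  induction a with
  | zero => simp [gsum]
  | succ a ih =>
    rw [gsum_succ, pow_succ]
    nlinarith

/-- the exponent of `s` in the entry `(a, b)`, as an integer -/
def expE (p K a b : ℕ) : ℤ := (gsum p (a + 1) : ℤ) + K * ((a : ℤ) - b) ^ 2 - K - gsum p b

theorem expE_succ (p K a : ℕ) : expE p K a (a + 1) = 0 := by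
  rw [expE]; push_cast; ring

theorem expE_diag (p K a : ℕ) : expE p K a a = (p : ℤ) ^ a - K := by
  rw [expE, gsum_succ]; push_cast; ring

theorem expE_pos (p K g a b : ℕ) (hp : 2 ≤ p) (hK : p ^ g ≤ K) (hb : b < g) (h1 : b ≠ a)
    (h2 : b ≠ a + 1) : 0 < expE p K a b := by
  have hxb : gsum p b < p ^ b := gsum_lt p b hp
  have hpb : p ^ b ≤ p ^ g := Nat.pow_le_pow_right (by omega) hb.le
  have hsq : b + 1 = a ∨ 4 ≤ ((a : ℤ) - b) ^ 2 := by
    by_cases h3 : b + 1 = a
    · left; exact h3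
    · right
      have : (2 : ℤ) ≤ a - b ∨ (a : ℤ) - b ≤ -2 := by omega
      rcases this with h4 | h4 <;> nlinarith
  rw [expE]
  rcases hsq with h3 | h3
  · subst h3
    have h5 : gsum p (b + 1 + 1) = gsum p b + p ^ b + p ^ (b + 1) := by rw [gsum_succ, gsum_succ]
    have h6 : 0 < p ^ b := Nat.pow_pos (by omega)
    rw [h5]
    push_cast
    have h7 : (0 : ℤ) < (p : ℤ) ^ b := by exact_mod_cast h6
    have h8 : (0 : ℤ) < (p : ℤ) ^ (b + 1) := by
      have : 0 < p ^ (b + 1) := Nat.pow_pos (by omega)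
      exact_mod_cast this
    have h9 : ((b : ℤ) + 1 - b) ^ 2 = 1 := by ring
    rw [h9]
    linarith
  · have h4 : (gsum p b : ℤ) < K := by exact_mod_cast (lt_of_lt_of_le hxb (hpb.trans hK))
    have h5 : (0 : ℤ) ≤ gsum p (a + 1) := Int.natCast_nonneg _
    have h6 : (0 : ℤ) ≤ K := Int.natCast_nonneg _
    nlinarith

end weights

section matrix

variable {D : Type*} [CommRing D]

/-- the matrix of Frobenius in the scaled basis -/
noncomputable def PP (p K n g : ℕ) (s : D) (l : ℕ → D) (μ : Fin g → D) (a b : Fin g) : D :=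
  if a = b then μ a else s ^ (expE p K a b).toNat * gco p K n g s l a b

theorem map_PP {E : Type*} [CommRing E] (φ : D →+* E) (p K n g : ℕ) (s : D) (l : ℕ → D)
    (μ : Fin g → D) (a b : Fin g) :
    φ (PP p K n g s l μ a b) = PP p K n g (φ s) (fun r => φ (l r)) (fun a => φ (μ a)) a b := by
  rw [PP, PP]
  split_ifs
  · rfl
  · rw [map_mul, map_pow, map_gco]

theorem PP_zero (p K n g : ℕ) (hp : 2 ≤ p) (hK : p ^ g ≤ K) (l : ℕ → D) (μ : Fin g → D)
    (a b : Fin g) (h1 : (b : ℕ) ≠ a) (h2 : (b : ℕ) ≠ a + 1) :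
    PP p K n g 0 l μ a b = 0 := by
  rw [PP, if_neg (fun h => h1 (by rw [h]))]
  have h3 := expE_pos p K g a b hp hK b.2 h1 h2
  rw [zero_pow (by omega), zero_mul]

theorem PP_succ (p K n g : ℕ) (hpn : p = 2 * n + 1) (hn : 0 < n) (hK : 0 < K) (l : ℕ → D)
    (μ : Fin g → D) (a b : Fin g) (h2 : (b : ℕ) = a + 1) :
    PP p K n g 0 l μ a b = (∏ r ∈ range a, l r) ^ n * ((qf 1 (l a)) ^ n).coeff (n - 1) := by
  rw [PP, if_neg (fun h => by rw [h] at h2; omega), h2, expE_succ, Int.toNat_zero, pow_zero, one_mul,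
    gco_zero_succ p K n g hpn hn hK l a a.2]

end matrix

/-- an element of a domain which is a root of a nonzero polynomial over an algebraically closed
field is a constant -/
theorem exists_const {k D : Type*} [Field k] [IsAlgClosed k] [CommRing D] [IsDomain D] [Algebra k D]
    {f : k[X]} (hf : f ≠ 0) {d : D} (h : aeval d f = 0) : ∃ c : k, d = algebraMap k D c := by
  have h1 := (IsAlgClosed.splits f).eq_prod_roots
  rw [h1, map_mul, aeval_C, map_multiset_prod, Multiset.map_map] at h
  rcases mul_eq_zero.mp h with h2 | h2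
  · exfalso
    apply hf
    rw [← leadingCoeff_eq_zero]
    exact (algebraMap k D).injective (by rw [h2, map_zero])
  · rw [Multiset.prod_eq_zero_iff, Multiset.mem_map] at h2
    obtain ⟨c, -, hc⟩ := h2
    refine ⟨c, ?_⟩
    simp only [Function.comp_apply, map_sub, aeval_X, aeval_C] at hc
    exact sub_eq_zero.mp hc

section main

variable (k : Type u) [Field k] (g : ℕ)

/-- variables: the scale `s`, the parameters of the elliptic curves, the diagonal entries -/
abbrev Sg : Type := Option (Fin g ⊕ Fin g)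

/-- the scale -/
noncomputable def sS : MvPolynomial (Sg g) k := MvPolynomial.X none

/-- the parameters of the elliptic curves -/
noncomputable def sL (l0 : k) (r : ℕ) : MvPolynomial (Sg g) k :=
  if h : r < g then MvPolynomial.C l0 + MvPolynomial.X (some (Sum.inl ⟨r, h⟩)) else MvPolynomial.C l0

/-- the diagonal entries -/
noncomputable def sM (a : Fin g) : MvPolynomial (Sg g) k := MvPolynomial.X (some (Sum.inr a))

theorem eval_sL (l0 : k) (r : ℕ) : MvPolynomial.eval (0 : Sg g → k) (sL k g l0 r) = l0 := by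
  rw [sL]
  split_ifs
  · simp
  · simp

theorem eval_sS : MvPolynomial.eval (0 : Sg g → k) (sS k g) = 0 := by simp [sS]

theorem eval_sM (a : Fin g) : MvPolynomial.eval (0 : Sg g → k) (sM k g a) = 0 := by simp [sM]

/-- the equations -/
noncomputable def eqs [NeZero g] (p K n : ℕ) (l0 : k) : Fin g ⊕ Fin g → MvPolynomial (Sg g) k
  | Sum.inl a => gco p K n g (sS k g) (sL k g l0) a a - (sS k g) ^ (K - p ^ (a : ℕ)) * sM k g a
  | Sum.inr b => (stp p (PP p K n g (sS k g) (sL k g l0) (sM k g)))^[g] (Pi.single 0 1) b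

end main

end Pool.Agent.Lib.MP_a82f45_ag
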