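import Mathlib

set_option autoImplicit false

namespace Pool.Agent.Lib.MP_a82f45_ag

open Polynomial Finset

section family

variable {D : Type*} [CommRing D]

/-- quadratic factor `(1 - c X) (1 - l c X)` -/
noncomputable def qf (c l : D) : D[X] := (1 - C c * X) * (1 - C (l * c) * X)

/-- quadratic factor `(c - X) (c - l X)` -/
noncomputable def qg (c l : D) : D[X] := (C c - X) * (C c - C l * X)

/-- the polynomial whose coefficients are the entries in row `a` -/
noncomputable def Gp (K n g : ℕ) (s : D) (l : ℕ → D) (a : ℕ) : D[X] :=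
  (∏ r ∈ range a, qg (s ^ (2 * K * (a - r))) (l r)) ^ n *
    (∏ r ∈ Ico a g, qf (s ^ (2 * K * (r - a))) (l r)) ^ n

/-- product of all the factors -/
noncomputable def Psi (K n g : ℕ) (s : D) (l : ℕ → D) : D[X] :=
  (∏ r ∈ range g, qf (s ^ (2 * K * r)) (l r)) ^ n

theorem qg_comp (s : D) (K a r : ℕ) (h : r ≤ a) (l : D) :
    (qg (s ^ (2 * K * (a - r))) l).comp (C (s ^ (2 * K * a)) * X) =
      C (s ^ (4 * K * (a - r))) * qf (s ^ (2 * K * r)) l := by
  obtain ⟨d, rfl⟩ := Nat.exists_eq_add_of_le h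
  simp only [qg, qf, mul_comp, sub_comp, C_comp, X_comp, Nat.add_sub_cancel_left, C_mul, C_pow, pow_comp]
  have e1 : (C s : D[X]) ^ (2 * K * (r + d)) = C s ^ (2 * K * r) * C s ^ (2 * K * d) := by
    rw [← pow_add]; congr 1; ring
  have e2 : (C s : D[X]) ^ (4 * K * d) = C s ^ (2 * K * d) * C s ^ (2 * K * d) := by
    rw [← pow_add]; congr 1; ring
  rw [e1, e2]
  ring

theorem qf_comp (s : D) (K a r : ℕ) (h : a ≤ r) (l : D) :
    (qf (s ^ (2 * K * (r - a))) l).comp (C (s ^ (2 * K * a)) * X) = qf (s ^ (2 * K * r)) l := by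
  obtain ⟨d, rfl⟩ := Nat.exists_eq_add_of_le h
  simp only [qf, mul_comp, sub_comp, C_comp, X_comp, one_comp, Nat.add_sub_cancel_left, C_mul, C_pow, pow_comp]
  have e1 : (C s : D[X]) ^ (2 * K * (a + d)) = C s ^ (2 * K * a) * C s ^ (2 * K * d) := by
    rw [← pow_add]; congr 1; ring
  rw [e1]
  ring

theorem sum_aux (a : ℕ) : ∑ r ∈ range a, (a - r) = a * (a + 1) / 2 := by
  have h := Finset.sum_range_reflect (fun r => r + 1) a
  have h2 : ∑ r ∈ range a, (a - r) = ∑ r ∈ range a, (a - 1 - r + 1) := by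
    apply Finset.sum_congr rfl
    intro r hr
    rw [Finset.mem_range] at hr
    omega
  rw [h2, h, Finset.sum_add_distrib, Finset.sum_range_id]
  simp only [Finset.sum_const, Finset.card_range, smul_eq_mul, mul_one]
  rcases a with _ | a
  · rfl
  · rw [Nat.add_sub_cancel]
    have e1 : (a + 1) * (a + 1 + 1) = (a + 1) * a + (a + 1) * 2 := by ring
    rw [e1, Nat.add_mul_div_right _ _ (by norm_num)]

theorem prod_aux (s : D) (K a : ℕ) :
    ∏ r ∈ range a, s ^ (4 * K * (a - r)) = s ^ (2 * K * a * (a + 1)) := by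
  rw [Finset.prod_pow_eq_pow_sum, ← Finset.mul_sum, sum_aux]
  congr 1
  have h : 2 ∣ a * (a + 1) := (Nat.even_mul_succ_self a).two_dvd
  obtain ⟨m, hm⟩ := h
  rw [hm, Nat.mul_div_cancel_left _ (by norm_num)]
  calc 4 * K * m = 2 * K * (2 * m) := by ring
    _ = 2 * K * (a * (a + 1)) := by rw [hm]
    _ = _ := by ring

theorem Gp_comp (K n g : ℕ) (s : D) (l : ℕ → D) (a : ℕ) (ha : a ≤ g) :
    (Gp K n g s l a).comp (C (s ^ (2 * K * a)) * X) =
      C (s ^ (2 * K * a * (a + 1) * n)) * Psi K n g s l := by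
  rw [Gp, Psi, mul_comp, pow_comp, pow_comp, Polynomial.prod_comp, Polynomial.prod_comp]
  have h1 : ∏ r ∈ range a, (qg (s ^ (2 * K * (a - r))) (l r)).comp (C (s ^ (2 * K * a)) * X) =
      C (s ^ (2 * K * a * (a + 1))) * ∏ r ∈ range a, qf (s ^ (2 * K * r)) (l r) := by
    rw [← prod_aux, map_prod, ← Finset.prod_mul_distrib]
    apply Finset.prod_congr rfl
    intro r hr
    rw [Finset.mem_range] at hr
    exact qg_comp s K a r hr.le (l r)
  have h2 : ∏ r ∈ Ico a g, (qf (s ^ (2 * K * (r - a))) (l r)).comp (C (s ^ (2 * K * a)) * X) =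
      ∏ r ∈ Ico a g, qf (s ^ (2 * K * r)) (l r) := by
    apply Finset.prod_congr rfl
    intro r hr
    rw [Finset.mem_Ico] at hr
    exact qf_comp s K a r hr.1 (l r)
  rw [h1, h2, mul_pow, mul_assoc, ← mul_pow, Finset.prod_range_mul_prod_Ico _ ha, ← C_pow, ← pow_mul]

theorem Gp_coeff (K n g : ℕ) (s : D) (l : ℕ → D) (a : ℕ) (ha : a ≤ g) (N : ℕ) :
    (Gp K n g s l a).coeff N * (s ^ (2 * K * a)) ^ N =
      s ^ (2 * K * a * (a + 1) * n) * (Psi K n g s l).coeff N := by
  rw [← comp_C_mul_X_coeff, Gp_comp K n g s l a ha, coeff_C_mul]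

theorem Gp_zero (K n g : ℕ) (hK : 0 < K) (l : ℕ → D) (a : ℕ) (ha : a < g) (m : ℕ) :
    (Gp K n g (0 : D) l a).coeff (2 * n * a + m) =
      (∏ r ∈ range a, l r) ^ n * ((qf 1 (l a)) ^ n).coeff m := by
  have h1 : ∏ r ∈ range a, qg ((0 : D) ^ (2 * K * (a - r))) (l r) =
      C (∏ r ∈ range a, l r) * X ^ (2 * a) := by
    rw [map_prod, mul_comm 2 a, ← Finset.card_range a]
    rw [Finset.card_range, mul_comm a 2, pow_mul]
    have h3 : (X ^ 2 : D[X]) ^ a = ∏ r ∈ range a, (X ^ 2 : D[X]) := by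
      rw [Finset.prod_const, Finset.card_range]
    rw [h3, ← Finset.prod_mul_distrib]
    apply Finset.prod_congr rfl
    intro r hr
    rw [Finset.mem_range] at hr
    rw [zero_pow (by
      have : 0 < 2 * K * (a - r) := by
        apply Nat.mul_pos (by omega); omega
      omega), qg, C_0]
    ring
  have h2 : ∏ r ∈ Ico a g, qf ((0 : D) ^ (2 * K * (r - a))) (l r) = qf 1 (l a) := by
    rw [← Finset.insert_Ico_succ_left_eq_Ico ha, Finset.prod_insert (by simp)]
    rw [Nat.sub_self, mul_zero, pow_zero]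
    have h4 : ∏ x ∈ Ico (Order.succ a) g, qf ((0 : D) ^ (2 * K * (x - a))) (l x) = 1 := by
      apply Finset.prod_eq_one
      intro r hr
      rw [Finset.mem_Ico, Order.succ_le_iff] at hr
      rw [zero_pow (by
        have : 0 < 2 * K * (r - a) := by
          apply Nat.mul_pos (by omega); omega
        omega), qf]
      simp
    rw [h4, mul_one]
  rw [Gp, h1, h2, mul_pow, ← C_pow, ← pow_mul, mul_assoc, coeff_C_mul]
  congr 1
  rw [show 2 * a * n = 2 * n * a by ring, add_comm, coeff_X_pow_mul]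

theorem map_qf {E : Type*} [CommRing E] (φ : D →+* E) (c l : D) :
    (qf c l).map φ = qf (φ c) (φ l) := by
  simp [qf]

theorem map_qg {E : Type*} [CommRing E] (φ : D →+* E) (c l : D) :
    (qg c l).map φ = qg (φ c) (φ l) := by
  simp [qg]

theorem map_Gp {E : Type*} [CommRing E] (φ : D →+* E) (K n g : ℕ) (s : D) (l : ℕ → D) (a : ℕ) :
    (Gp K n g s l a).map φ = Gp K n g (φ s) (fun r => φ (l r)) a := by
  simp only [Gp, Polynomial.map_mul, Polynomial.map_pow, Polynomial.map_prod, map_qf, map_qg, map_pow]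

/-- matrix entries after scaling -/
noncomputable def gco (p K n g : ℕ) (s : D) (l : ℕ → D) (a b : ℕ) : D :=
  if b ≤ p * a + n then (Gp K n g s l a).coeff (p * a + n - b) else 0

theorem map_gco {E : Type*} [CommRing E] (φ : D →+* E) (p K n g : ℕ) (s : D) (l : ℕ → D) (a b : ℕ) :
    φ (gco p K n g s l a b) = gco p K n g (φ s) (fun r => φ (l r)) a b := by
  rw [gco, gco, ← map_Gp, coeff_map]
  split_ifs
  · rfl
  · exact map_zero _

theorem gco_zero_diag (p K n g : ℕ) (hp : p = 2 * n + 1) (hK : 0 < K) (l : ℕ → D) (a : ℕ) (ha : a < g) :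
    gco p K n g (0 : D) l a a = (∏ r ∈ range a, l r) ^ n * ((qf 1 (l a)) ^ n).coeff n := by
  subst hp
  rw [gco, if_pos (by nlinarith), ← Gp_zero K n g hK l a ha n]
  congr 1
  have : (2 * n + 1) * a = 2 * n * a + a := by ring
  omega

theorem gco_zero_succ (p K n g : ℕ) (hp : p = 2 * n + 1) (hn : 0 < n) (hK : 0 < K) (l : ℕ → D)
    (a : ℕ) (ha : a < g) :
    gco p K n g (0 : D) l a (a + 1) = (∏ r ∈ range a, l r) ^ n * ((qf 1 (l a)) ^ n).coeff (n - 1) := by
  subst hp
  have : (2 * n + 1) * a = 2 * n * a + a := by ring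
  rw [gco, if_pos (by omega), ← Gp_zero K n g hK l a ha (n - 1)]
  congr 1
  omega

/-- the hyperelliptic polynomial -/
noncomputable def phi (K g : ℕ) (s : D) (l : ℕ → D) : D[X] :=
  X * ∏ r ∈ range g, qf (s ^ (2 * K * r)) (l r)

theorem phi_coeff (p K n g : ℕ) (hp : p = 2 * n + 1) (s : D) (l : ℕ → D) (a b : ℕ) :
    (if b + 1 ≤ (a + 1) * p then ((phi K g s l) ^ n).coeff ((a + 1) * p - (b + 1)) else 0) =
      if b ≤ p * a + n then (Psi K n g s l).coeff (p * a + n - b) else 0 := by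
  have h1 : (a + 1) * p = p * a + n + n + 1 := by rw [hp]; ring
  rw [phi, mul_pow, ← Psi, h1]
  by_cases h2 : b ≤ p * a + n
  · rw [if_pos h2, if_pos (by omega), show p * a + n + n + 1 - (b + 1) = (p * a + n - b) + n by omega,
      coeff_X_pow_mul]
  · rw [if_neg h2]
    split_ifs with h3
    · rw [coeff_X_pow_mul', if_neg (by omega)]
    · rfl

end family

end Pool.Agent.Lib.MP_a82f45_ag
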