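import Mathlib

set_option autoImplicit false

namespace Pool.Agent.Lib.MP_a82f45_ag

universe u

/-- `K` is a function field in one variable over `k`, finite over `k(x)` -/
def IsFunctionField (k : Type u) [Field k] {K : Type u} [Field K] [Algebra k K] (x : K) : Prop :=
  Transcendental k x ∧ FiniteDimensional (IntermediateField.adjoin k {x}) K

/-- the elements of `K` which are integral over the `k`-subalgebra generated by `s`; for
`s = {x}`, `{x⁻¹}`, `{x, x⁻¹}` these are the functions on the curve `X` with function field `K`
which are regular on the open set `x ≠ ∞`, `x ≠ 0`, `x ≠ 0, ∞` -/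
def regular (k : Type u) [Field k] {K : Type u} [Field K] [Algebra k K] (s : Set K) :
    Submodule k K :=
  Subalgebra.toSubmodule ((integralClosure (Algebra.adjoin k s) K).restrictScalars k)

/-- functions regular on the overlap `x ≠ 0, ∞` of the two charts -/
def Overlap (k : Type u) [Field k] {K : Type u} [Field K] [Algebra k K] (x : K) : Type u :=
  regular k {x, x⁻¹}

instance (k : Type u) [Field k] {K : Type u} [Field K] [Algebra k K] (x : K) :
    AddCommGroup (Overlap k x) := Submodule.addCommGroup _

instance (k : Type u) [Field k] {K : Type u} [Field K] [Algebra k K] (x : K) :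
    Module k (Overlap k x) := Submodule.module _

/-- functions on the overlap which are the sum of a function regular on the chart `x ≠ ∞` and
a function regular on the chart `x ≠ 0` -/
def coboundary (k : Type u) [Field k] {K : Type u} [Field K] [Algebra k K] (x : K) :
    Submodule k (Overlap k x) :=
  (regular k {x} ⊔ regular k {x⁻¹}).submoduleOf (regular k {x, x⁻¹})

/-- the cohomology group `H¹(X, O_X)` of the curve `X` with function field `K`, as Cech cohomology
of the affine open cover `x ≠ ∞`, `x ≠ 0` -/
def H1 (k : Type u) [Field k] {K : Type u} [Field K] [Algebra k K] (x : K) : Type u :=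
  Overlap k x ⧸ coboundary k x

instance (k : Type u) [Field k] {K : Type u} [Field K] [Algebra k K] (x : K) :
    AddCommGroup (H1 k x) := Submodule.Quotient.addCommGroup _

instance (k : Type u) [Field k] {K : Type u} [Field K] [Algebra k K] (x : K) :
    Module k (H1 k x) := Submodule.Quotient.module _

/-- the `p`-power map on functions on the overlap, as a `p`-linear map -/
def powMap (p : ℕ) [Fact p.Prime] (k : Type u) [Field k] [CharP k p] {K : Type u} [Field K]
    [Algebra k K] (x : K) : Overlap k x →ₛₗ[frobenius k p] Overlap k x where
  toFun a := ⟨a.1 ^ p, Subalgebra.pow_mem _ a.2 p⟩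
  map_add' a b := by
    have : CharP K p := charP_of_injective_algebraMap (algebraMap k K).injective p
    apply Subtype.ext
    exact add_pow_char a.1 b.1 p
  map_smul' c a := by
    apply Subtype.ext
    change (c • a.1) ^ p = (frobenius k p) c • a.1 ^ p
    rw [smul_pow, frobenius_def]

/-- the Frobenius map of `H¹(X, O_X)`, induced by the `p`-power map -/
def frob (p : ℕ) [Fact p.Prime] (k : Type u) [Field k] [CharP k p] {K : Type u} [Field K]
    [Algebra k K] (x : K) : H1 k x →ₛₗ[frobenius k p] H1 k x :=
  Submodule.mapQ (coboundary k x) (coboundary k x) (powMap p k x) (by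
    have : CharP K p := charP_of_injective_algebraMap (algebraMap k K).injective p
    intro a ha
    obtain ⟨b, hb, c, hc, hbc⟩ := Submodule.mem_sup.mp ha
    refine Submodule.mem_sup.mpr ⟨b ^ p, Subalgebra.pow_mem _ hb p, c ^ p,
      Subalgebra.pow_mem _ hc p, ?_⟩
    rw [← add_pow_char, hbc]
    rfl)

end Pool.Agent.Lib.MP_a82f45_ag
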