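import Pool.Agent.Lib.MP_a82f45_ag.H1
import Pool.Agent.Lib.MP_a82f45_ag.All

set_option autoImplicit false
set_option linter.unusedSectionVars false
set_option linter.unusedSimpArgs false

namespace Pool.Agent.Lib.MP_a82f45_ag

universe u

open Polynomial WithZero

section quad0

variable (k : Type u) [Field k] {K : Type u} [Field K] [Algebra k K] {D : K}
  [hD : Fact (∀ r : K, r ^ 2 ≠ D + 0 * r)]

/-- the embedding of `K` into the quadratic extension -/
noncomputable def inc0 (D : K) : K →ₐ[k] QuadraticAlgebra K D 0 := IsScalarTower.toAlgHom k K _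

@[simp] theorem inc0_re (a : K) : (inc0 k D a).re = a := rfl
@[simp] theorem inc0_im (a : K) : (inc0 k D a).im = 0 := rfl

variable {k}

theorem star_mem0 {s : Set K} {z : QuadraticAlgebra K D 0} (hz : z ∈ intRing k (inc0 k D '' s)) :
    star z ∈ intRing k (inc0 k D '' s) := by
  let τ : QuadraticAlgebra K D 0 →ₐ[k] QuadraticAlgebra K D 0 :=
    { toFun := star
      map_one' := star_one _
      map_mul' := fun x y => by rw [star_mul, mul_comm]
      map_zero' := star_zero _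
      map_add' := star_add
      commutes' := fun r => by
        have h1 : (algebraMap k (QuadraticAlgebra K D 0) r) = ⟨algebraMap k K r, 0⟩ := rfl
        rw [h1]
        ext
        · simp
        · simp }
  refine map_mem_intRing τ ?_ hz
  rintro _ ⟨a, ha, rfl⟩
  refine ⟨a, ha, ?_⟩
  change _ = star (inc0 k D a)
  ext
  · simp
  · simp

theorem half_mem {s : Set K} (h2 : (2 : k) ≠ 0) {a : K} (ha : 2 * a ∈ intRing k s) :
    a ∈ intRing k s := by
  have h3 : (2 : K) ≠ 0 := by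
    intro h
    apply h2
    apply (algebraMap k K).injective
    rw [map_ofNat, map_zero, h]
  have h4 : a = algebraMap k K (2⁻¹) * (2 * a) := by
    rw [map_inv₀, map_ofNat]
    field_simp
  rw [h4]
  exact mul_mem (Subalgebra.algebraMap_mem _ _) ha

/-- elements of the quadratic extension which are integral -/
theorem mem_quad0 {s : Set K} (h2 : (2 : k) ≠ 0) {z : QuadraticAlgebra K D 0} :
    z ∈ intRing k (inc0 k D '' s) ↔
      z.re ∈ intRing k s ∧ z.im ^ 2 * D ∈ intRing k s := by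
  constructor
  · intro hz
    have hz' := star_mem0 hz
    have h3 : z.re ∈ intRing k s := by
      apply half_mem h2
      apply mem_of_map_mem_intRing (inc0 k D)
      have : inc0 k D (2 * z.re) = z + star z := by
        ext
        · simp
          ring
        · simp
      rw [this]
      exact add_mem hz hz'
    refine ⟨h3, ?_⟩
    have h4 : z.re ^ 2 - z.im ^ 2 * D ∈ intRing k s := by
      apply mem_of_map_mem_intRing (inc0 k D)
      have : inc0 k D (z.re ^ 2 - z.im ^ 2 * D) = z * star z := by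
        ext
        · rw [inc0_re]
          simp
          ring
        · rw [inc0_im]
          simp
          ring
      rw [this]
      exact mul_mem hz hz'
    have h5 : z.im ^ 2 * D = z.re ^ 2 - (z.re ^ 2 - z.im ^ 2 * D) := by ring
    rw [h5]
    exact sub_mem (pow_mem h3 2) h4
  · rintro ⟨h1, h3⟩
    have h4 : -(2 * z.re) ∈ intRing k s := by
      have : -(2 * z.re) = -(z.re + z.re) := by ring
      rw [this]
      exact neg_mem (add_mem h1 h1)
    have h1' := map_mem_intRing (inc0 k D) (t := inc0 k D '' s) (fun a ha => ⟨a, ha, rfl⟩) h4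
    have h3' := map_mem_intRing (inc0 k D) (t := inc0 k D '' s) (fun a ha => ⟨a, ha, rfl⟩)
      (sub_mem (pow_mem h1 2) h3)
    refine quad_mem h1' h3' ?_
    ext
    · simp [pow_two]
      ring
    · simp [pow_two]
      ring

theorem FF.step0 {x : K} (h : FF k K x) : FF k (QuadraticAlgebra K D 0) (inc0 k D x) := by
  obtain ⟨φ, hφ, hfin⟩ := h
  refine ⟨(inc0 k D).comp φ, by rw [AlgHom.comp_apply, hφ], ?_⟩
  have h1 : ((inc0 k D : K →ₐ[k] QuadraticAlgebra K D 0) : K →+* QuadraticAlgebra K D 0).Finite := by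
    have h2 : (algebraMap K (QuadraticAlgebra K D 0)).Finite := by
      rw [RingHom.finite_algebraMap]; infer_instance
    exact h2
  exact RingHom.Finite.comp h1 hfin

end quad0

section hyper

variable {k : Type u} [Field k] {g : ℕ} {f : k[X]}

/-- the polynomial as a rational function -/
noncomputable abbrev pol (p : k[X]) : RatFunc k := algebraMap k[X] (RatFunc k) p

theorem vv_pol_hyper (hdeg : f.natDegree = 2 * g + 1) : vv k (pol f) = exp (2 * (g : ℤ) + 1) := by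
  rw [vv_poly (by rintro rfl; simp at hdeg), hdeg]
  push_cast
  rfl

theorem hyper_fact (hdeg : f.natDegree = 2 * g + 1) : ∀ r : RatFunc k, r ^ 2 ≠ pol f + 0 * r := by
  intro r h
  rw [zero_mul, add_zero] at h
  have h1 := congrArg (vv k) h
  rw [vv_pol_hyper hdeg, map_pow] at h1
  have h0 : vv k r ≠ 0 := by
    intro h0
    rw [h0, zero_pow two_ne_zero] at h1
    exact exp_ne_zero h1.symm
  have h2 := congrArg log h1
  rw [log_pow, log_exp] at h2
  simp only [nsmul_eq_mul] at h2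
  push_cast at h2
  omega

/-- `b² f` polynomial implies `b` polynomial -/
theorem sqfree_poly (hf : Squarefree f) {b : RatFunc k} (h : b ^ 2 * pol f ∈ intRing k {tt k}) :
    b ∈ intRing k {tt k} := by
  obtain ⟨q, hq⟩ := mem_A0.mp h
  have h1 : b = pol b.num / pol b.denom := (RatFunc.num_div_denom b).symm
  have hd : pol b.denom ≠ 0 := by
    rw [Ne, map_eq_zero_iff _ (IsFractionRing.injective k[X] (RatFunc k))]
    exact b.denom_ne_zero
  have h2 : pol (b.num ^ 2 * f) = pol (q * b.denom ^ 2) := by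
    rw [pol, pol, map_mul, map_mul, map_pow, map_pow, hq]
    have h3 : algebraMap k[X] (RatFunc k) b.num = b * algebraMap k[X] (RatFunc k) b.denom := by
      rw [eq_comm]
      nth_rewrite 1 [h1]
      exact div_mul_cancel₀ _ hd
    rw [h3]
    ring
  have h3 := IsFractionRing.injective k[X] (RatFunc k) h2
  have h4 : b.denom ^ 2 ∣ f := by
    have h5 : IsCoprime (b.denom ^ 2) (b.num ^ 2) := (b.isCoprime_num_denom.symm).pow
    exact h5.dvd_of_dvd_mul_left ⟨q, by rw [h3]; ring⟩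
  have h5 : IsUnit b.denom := hf _ (by rwa [← pow_two])
  obtain ⟨c, hc, hc2⟩ := Polynomial.isUnit_iff.mp h5
  rw [h1, ← hc2, pol, pol, algMap_C, div_eq_mul_inv, ← map_inv₀]
  exact mul_mem (mem_A0.mpr ⟨_, rfl⟩) (c_mem _ _)

theorem sqfree_A01 (hf : Squarefree f) {b : RatFunc k}
    (h : b ^ 2 * pol f ∈ intRing k {tt k, (tt k)⁻¹}) : b ∈ intRing k {tt k, (tt k)⁻¹} := by
  obtain ⟨n, p, hp⟩ := mem_A01 h
  have h1 : (tt k ^ n * b) ^ 2 * pol f ∈ intRing k {tt k} := by
    have : (tt k ^ n * b) ^ 2 * pol f = tt k ^ n * (tt k ^ n * (b ^ 2 * pol f)) := by ring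
    rw [this, hp]
    exact mul_mem (pow_mem t_mem n) (mem_A0.mpr ⟨p, rfl⟩)
  have h2 := A0_le (sqfree_poly hf h1)
  have h3 : b = ((tt k)⁻¹) ^ n * (tt k ^ n * b) := by
    rw [← mul_assoc, ← mul_pow, inv_mul_cancel₀ (tt0 k), one_pow, one_mul]
  rw [h3]
  exact mul_mem (A1_le (pow_mem tinv_mem n)) h2

theorem pol_mem (p : k[X]) : pol p ∈ intRing k {tt k} := mem_A0.mpr ⟨p, rfl⟩

theorem vv_sq_iff (hdeg : f.natDegree = 2 * g + 1) {b : RatFunc k} :
    vv k (b ^ 2 * pol f) ≤ 1 ↔ vv k b ≤ exp (-((g : ℤ) + 1)) := by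
  rw [map_mul, map_pow, vv_pol_hyper hdeg]
  by_cases h0 : vv k b = 0
  · rw [h0]
    simp
  · have h3 : vv k b ^ 2 * exp (2 * (g : ℤ) + 1) ≠ 0 := mul_ne_zero (pow_ne_zero 2 h0) exp_ne_zero
    rw [← log_le_log h3 one_ne_zero, ← log_le_log h0 exp_ne_zero,
      log_mul (pow_ne_zero 2 h0) exp_ne_zero, log_exp, log_exp, log_pow, log_one]
    simp only [nsmul_eq_mul]
    push_cast
    constructor <;> intro h <;> omega


/-- the terms with exponent below `-g` and the polynomials -/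
noncomputable def Wsub (k : Type u) [Field k] (g : ℕ) : Submodule k (RatFunc k) where
  carrier := {a | ∃ q ∈ intRing k {tt k}, ∃ w ∈ intRing k {tt k, (tt k)⁻¹},
    vv k w ≤ exp (-((g : ℤ) + 1)) ∧ a = q + w}
  zero_mem' := ⟨0, zero_mem _, 0, zero_mem _, by rw [map_zero]; exact zero_le, by simp⟩
  add_mem' := by
    rintro _ _ ⟨q1, h1, w1, h2, h3, rfl⟩ ⟨q2, h4, w2, h5, h6, rfl⟩
    exact ⟨q1 + q2, add_mem h1 h4, w1 + w2, add_mem h2 h5, (vv k).map_add_le h3 h6, by ring⟩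
  smul_mem' := by
    rintro c _ ⟨q1, h1, w1, h2, h3, rfl⟩
    refine ⟨c • q1, Subalgebra.smul_mem _ h1 c, c • w1, Subalgebra.smul_mem _ h2 c, ?_, smul_add _ _ _⟩
    rw [Algebra.smul_def, map_mul]
    calc _ ≤ 1 * vv k w1 := mul_le_mul_left (vv_const c) _
      _ ≤ _ := by rw [one_mul]; exact h3

theorem mem_Wsub {a : RatFunc k} : a ∈ Wsub k g ↔ ∃ q ∈ intRing k {tt k},
    ∃ w ∈ intRing k {tt k, (tt k)⁻¹}, vv k w ≤ exp (-((g : ℤ) + 1)) ∧ a = q + w := Iff.rfl

/-- coefficients of `a` at `-(i+1)` -/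
noncomputable def cf (k : Type u) [Field k] (g : ℕ) : RatFunc k →ₗ[k] (Fin g → k) where
  toFun a := fun i => (lau k a).coeff (-((i : ℤ) + 1))
  map_add' a b := by
    ext i
    rw [map_add]; rfl
  map_smul' c a := by
    ext i
    exact Pool.Agent.Lib.MP_a82f45_ag.map_smul' (lau k) c a _

theorem cf_apply (a : RatFunc k) (i : Fin g) : cf k g a i = (lau k a).coeff (-((i : ℤ) + 1)) := rfl

theorem vv_tinv (m : ℕ) : vv k (((tt k)⁻¹) ^ m) = exp (-(m : ℤ)) := by
  rw [map_pow, map_inv₀, vv_X, ← exp_neg, ← exp_nsmul]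
  simp

theorem tinv_tt (m : ℕ) : ((tt k)⁻¹) ^ m * (tt k) ^ m = 1 := by
  rw [← mul_pow, inv_mul_cancel₀ (tt0 k), one_pow]

theorem lau_tinv_mul (p : k[X]) (m : ℕ) (j : ℤ) :
    (lau k (((tt k)⁻¹) ^ m * pol p)).coeff j = if 0 ≤ j + m then p.coeff (j + m).toNat else 0 := by
  have h1 := lau_shift (((tt k)⁻¹) ^ m * pol p) m j
  have h2 : tt k ^ m * (((tt k)⁻¹) ^ m * pol p) = pol p := by
    rw [← mul_assoc, mul_comm (tt k ^ m), tinv_tt, one_mul]
  rw [h2] at h1
  rw [← h1]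
  split_ifs with h
  · obtain ⟨n, hn⟩ := Int.eq_ofNat_of_zero_le h
    rw [hn, coeff_lau_poly]
    simp
  · rw [coeff_lau_poly_neg p (by omega)]

theorem cf_tinv_mul (p : k[X]) (m : ℕ) (i : Fin g) :
    cf k g (((tt k)⁻¹) ^ m * pol p) i = if (i : ℕ) + 1 ≤ m then p.coeff (m - ((i : ℕ) + 1)) else 0 := by
  rw [cf_apply, lau_tinv_mul]
  by_cases h : (i : ℕ) + 1 ≤ m
  · rw [if_pos h, if_pos (by omega)]
    congr 1
    omega
  · rw [if_neg h, if_neg (by omega)]

theorem cf_tinv (m : Fin g) : cf k g (((tt k)⁻¹) ^ ((m : ℕ) + 1)) = Pi.single m 1 := by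
  ext i
  have h := cf_tinv_mul (g := g) (1 : k[X]) ((m : ℕ) + 1) i
  rw [pol, map_one, mul_one] at h
  rw [h]
  by_cases him : i = m
  · subst him
    simp
  · rw [Pi.single_eq_of_ne him]
    split_ifs with h1
    · rw [Polynomial.coeff_one, if_neg]
      intro h2
      apply him
      ext
      omega
    · rfl

theorem cf_W {a : RatFunc k} (ha : a ∈ Wsub k g) : cf k g a = 0 := by
  obtain ⟨q, hq, w, hw, hv, rfl⟩ := mem_Wsub.mp ha
  rw [map_add]
  have h1 : cf k g q = 0 := by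
    obtain ⟨p, rfl⟩ := mem_A0.mp hq
    ext i
    rw [cf_apply, coeff_lau_poly_neg p (by omega)]
    rfl
  have h2 : cf k g w = 0 := by
    obtain ⟨n, p, h⟩ := mem_A01 hw
    ext i
    rw [eq_of_mul h, cf_tinv_mul]
    split_ifs with hi
    · by_cases hp : p = 0
      · rw [hp]; simp
      have hd := natDegree_le h (e := g + 1) (by push_cast; exact hv) hp
      exact Polynomial.coeff_eq_zero_of_natDegree_lt (by have := i.2; omega)
    · rfl
  rw [h1, h2, add_zero]

theorem sub_cf_mem {a : RatFunc k} (ha : a ∈ intRing k {tt k, (tt k)⁻¹}) :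
    a - ∑ i : Fin g, cf k g a i • ((tt k)⁻¹) ^ ((i : ℕ) + 1) ∈ Wsub k g := by
  obtain ⟨n, p, h⟩ := mem_A01 ha
  rw [eq_of_mul h]
  clear h ha
  induction p using Polynomial.induction_on' with
  | add p q hp hq =>
    have := add_mem hp hq
    rw [map_add, mul_add, map_add]
    simp only [Pi.add_apply, add_smul, Finset.sum_add_distrib]
    convert this using 1
    ring
  | monomial e c =>
    rw [← C_mul_X_pow_eq_monomial, map_mul, map_pow, RatFunc.algebraMap_X, algMap_C]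
    have e1 : ((tt k)⁻¹) ^ n * (algebraMap k (RatFunc k) c * tt k ^ e) =
      c • (((tt k)⁻¹) ^ n * tt k ^ e) := by
      rw [Algebra.smul_def]; ring
    rw [e1, map_smul]
    have e2 : c • (((tt k)⁻¹) ^ n * tt k ^ e) - ∑ i : Fin g, (c • cf k g (((tt k)⁻¹) ^ n * tt k ^ e)) i •
        ((tt k)⁻¹) ^ ((i : ℕ) + 1) = c • ((((tt k)⁻¹) ^ n * tt k ^ e) -
        ∑ i : Fin g, cf k g (((tt k)⁻¹) ^ n * tt k ^ e) i • ((tt k)⁻¹) ^ ((i : ℕ) + 1)) := by
      rw [smul_sub, Finset.smul_sum]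
      congr 1
      apply Finset.sum_congr rfl
      intro i _
      rw [smul_smul]; rfl
    rw [e2]
    apply Submodule.smul_mem
    rcases le_or_gt n e with hi | hi
    · obtain ⟨j, rfl⟩ : ∃ j, e = n + j := ⟨e - n, by omega⟩
      have h1 : ((tt k)⁻¹) ^ n * tt k ^ (n + j) = tt k ^ j := by
        rw [pow_add, ← mul_assoc, tinv_tt, one_mul]
      rw [h1]
      have h2 : tt k ^ j ∈ Wsub k g := mem_Wsub.mpr ⟨_, pow_mem t_mem j, 0, zero_mem _,
        by rw [map_zero]; exact zero_le, by rw [add_zero]⟩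
      rw [cf_W h2]
      simpa using h2
    · obtain ⟨j, rfl⟩ : ∃ j, n = j + 1 + e := ⟨n - e - 1, by omega⟩
      have h1 : ((tt k)⁻¹) ^ (j + 1 + e) * tt k ^ e = ((tt k)⁻¹) ^ (j + 1) := by
        rw [pow_add, mul_assoc, tinv_tt, mul_one]
      rw [h1]
      by_cases hj : j < g
      · have h2 := cf_tinv (k := k) (⟨j, hj⟩ : Fin g)
        simp only at h2
        rw [h2, Finset.sum_eq_single (⟨j, hj⟩ : Fin g)]
        · simp
        · intro b _ hb
          rw [Pi.single_eq_of_ne hb, zero_smul]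
        · intro hn
          exact absurd (Finset.mem_univ _) hn
      · have h2 : ((tt k)⁻¹) ^ (j + 1) ∈ Wsub k g := mem_Wsub.mpr ⟨0, zero_mem _,
          ((tt k)⁻¹) ^ (j + 1), A1_le (pow_mem tinv_mem _), by
            rw [vv_tinv, exp_le_exp]; push_cast; omega, by rw [zero_add]⟩
        rw [cf_W h2]
        simpa using h2

theorem cf_eq_zero {a : RatFunc k} (ha : a ∈ intRing k {tt k, (tt k)⁻¹}) (h : cf k g a = 0) :
    a ∈ Wsub k g := by
  have := sub_cf_mem (g := g) ha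
  rw [h] at this
  simpa using this

end hyper

section curve

variable {k : Type u} [Field k] {g : ℕ} {f : k[X]}

/-- the function field of `y² = f(x)` -/
abbrev CK (f : k[X]) : Type u := QuadraticAlgebra (RatFunc k) (pol f) 0

variable [hF : Fact (∀ r : RatFunc k, r ^ 2 ≠ pol f + 0 * r)]

/-- the function `x` -/
noncomputable abbrev xx (f : k[X]) : CK f := inc0 k (pol f) (tt k)

theorem hy0 : inc0 k (pol f) '' {tt k} = {xx f} := Set.image_singleton
theorem hy1 : inc0 k (pol f) '' {(tt k)⁻¹} = {(xx f)⁻¹} := by rw [Set.image_singleton, map_inv₀]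
theorem hy01 : inc0 k (pol f) '' {tt k, (tt k)⁻¹} = {xx f, (xx f)⁻¹} := by
  rw [Set.image_pair, map_inv₀]

theorem hchart0 (h2 : (2 : k) ≠ 0) (hf : Squarefree f) {z : CK f} :
    z ∈ intRing k {xx f} ↔ z.re ∈ intRing k {tt k} ∧ z.im ∈ intRing k {tt k} := by
  rw [← hy0, mem_quad0 h2]
  refine and_congr_right fun _ => ⟨fun h => sqfree_poly hf h, fun h => mul_mem (pow_mem h 2) (pol_mem f)⟩

theorem hchart01 (h2 : (2 : k) ≠ 0) (hf : Squarefree f) {z : CK f} :
    z ∈ intRing k {xx f, (xx f)⁻¹} ↔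
      z.re ∈ intRing k {tt k, (tt k)⁻¹} ∧ z.im ∈ intRing k {tt k, (tt k)⁻¹} := by
  rw [← hy01, mem_quad0 h2]
  refine and_congr_right fun _ => ⟨fun h => sqfree_A01 hf h,
    fun h => mul_mem (pow_mem h 2) (A0_le (pol_mem f))⟩

theorem hchart1 (h2 : (2 : k) ≠ 0) (hf : Squarefree f) (hdeg : f.natDegree = 2 * g + 1) {z : CK f} :
    z ∈ intRing k {(xx f)⁻¹} ↔
      z.re ∈ intRing k {(tt k)⁻¹} ∧ z.im ∈ intRing k {tt k, (tt k)⁻¹} ∧
        vv k z.im ≤ exp (-((g : ℤ) + 1)) := by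
  rw [← hy1, mem_quad0 h2]
  refine and_congr_right fun _ => ⟨fun h => ⟨sqfree_A01 hf (A1_le h), (vv_sq_iff hdeg).mp (vv_A1 h)⟩,
    fun h => mem_A1_of (mul_mem (pow_mem h.1 2) (A0_le (pol_mem f))) ((vv_sq_iff hdeg).mpr h.2)⟩

/-- the coordinates of a cohomology class -/
noncomputable def Phi (g : ℕ) (f : k[X]) [Fact (∀ r : RatFunc k, r ^ 2 ≠ pol f + 0 * r)] :
    Overlap k (xx f) →ₗ[k] (Fin g → k) where
  toFun z := cf k g z.1.im
  map_add' a b := by
    change cf k g (a.1.im + b.1.im) = _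
    rw [map_add]
  map_smul' c a := by
    change cf k g (c • a.1.im) = _
    rw [map_smul]
    rfl

theorem Phi_apply (z : Overlap k (xx f)) : Phi g f z = cf k g z.1.im := rfl

theorem mem_cob_iff (h2 : (2 : k) ≠ 0) (hf : Squarefree f) (hdeg : f.natDegree = 2 * g + 1)
    (z : Overlap k (xx f)) : z ∈ coboundary k (xx f) ↔ Phi g f z = 0 := by
  have hz : z.1 ∈ intRing k {xx f, (xx f)⁻¹} := z.2
  rw [hchart01 h2 hf] at hz
  have h0 : z ∈ coboundary k (xx f) ↔ ∃ z0 ∈ intRing k {xx f}, ∃ z1 ∈ intRing k {(xx f)⁻¹},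
      z0 + z1 = z.1 := Submodule.mem_sup
  rw [h0, Phi_apply]
  constructor
  · rintro ⟨z0, hz0, z1, hz1, hsum⟩
    rw [hchart0 h2 hf] at hz0
    rw [hchart1 h2 hf hdeg] at hz1
    apply cf_W
    exact mem_Wsub.mpr ⟨_, hz0.2, _, hz1.2.1, hz1.2.2, by rw [← hsum]; rfl⟩
  · intro h
    obtain ⟨q, hq, w, hw, hv, him⟩ := mem_Wsub.mp (cf_eq_zero hz.2 h)
    obtain ⟨r, hr, c, s, hs, -, hre⟩ := decomp hz.1
    refine ⟨⟨r, q⟩, (hchart0 h2 hf).mpr ⟨hr, hq⟩, ⟨c • (tt k)⁻¹ + s, w⟩,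
      (hchart1 h2 hf hdeg).mpr ⟨add_mem (Subalgebra.smul_mem _ tinv_mem c) hs, hw, hv⟩, ?_⟩
    ext
    · simp [hre, add_assoc]
    · simp [him]

theorem bas_mem (h2 : (2 : k) ≠ 0) (hf : Squarefree f) (i : ℕ) :
    (⟨0, ((tt k)⁻¹) ^ (i + 1)⟩ : CK f) ∈ intRing k {xx f, (xx f)⁻¹} :=
  (hchart01 h2 hf).mpr ⟨zero_mem _, A1_le (pow_mem tinv_mem _)⟩

/-- the function `y / x ^ (i + 1)` -/
noncomputable def bas (h2 : (2 : k) ≠ 0) (hf : Squarefree f) (i : ℕ) : Overlap k (xx f) :=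
  ⟨⟨0, ((tt k)⁻¹) ^ (i + 1)⟩, bas_mem h2 hf i⟩

theorem Phi_bas (h2 : (2 : k) ≠ 0) (hf : Squarefree f) (i : Fin g) :
    Phi g f (bas h2 hf i) = Pi.single i 1 := cf_tinv i

theorem Phi_surj (h2 : (2 : k) ≠ 0) (hf : Squarefree f) : Function.Surjective (Phi g f) := by
  intro v
  refine ⟨∑ i : Fin g, v i • bas h2 hf i, ?_⟩
  rw [map_sum]
  simp only [map_smul, Phi_bas]
  ext j
  simp [Finset.sum_apply, Pi.single_apply]

/-- the isomorphism of `H¹` with `k ^ g` -/
noncomputable def eqvH (h2 : (2 : k) ≠ 0) (hf : Squarefree f) (hdeg : f.natDegree = 2 * g + 1) :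
    H1 k (xx f) ≃ₗ[k] (Fin g → k) :=
  LinearEquiv.ofBijective (Submodule.liftQ (coboundary k (xx f)) (Phi g f)
    (fun z hz => (mem_cob_iff h2 hf hdeg z).mp hz) : H1 k (xx f) →ₗ[k] (Fin g → k)) (by
    constructor
    · rw [injective_iff_map_eq_zero]
      intro a ha
      obtain ⟨z, rfl⟩ := Submodule.Quotient.mk_surjective _ a
      exact (Submodule.Quotient.mk_eq_zero _).mpr ((mem_cob_iff h2 hf hdeg z).mpr ha)
    · intro v
      obtain ⟨z, hz⟩ := Phi_surj (g := g) h2 hf v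
      exact ⟨Submodule.Quotient.mk z, hz⟩)

theorem eqvH_mk (h2 : (2 : k) ≠ 0) (hf : Squarefree f) (hdeg : f.natDegree = 2 * g + 1)
    (z : Overlap k (xx f)) :
    eqvH h2 hf hdeg (Submodule.Quotient.mk z : Overlap k (xx f) ⧸ coboundary k (xx f)) = Phi g f z := rfl

theorem mk_pow_odd (n : ℕ) (b : RatFunc k) :
    ((⟨0, b⟩ : CK f) ^ (2 * n + 1)) = ⟨0, pol f ^ n * b ^ (2 * n + 1)⟩ := by
  induction n with
  | zero => simp
  | succ n ih =>
    have h1 : (⟨0, b⟩ : CK f) ^ (2 * (n + 1) + 1) = (⟨0, b⟩ : CK f) ^ (2 * n + 1) * (⟨0, b⟩ * ⟨0, b⟩) := by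
      ring
    rw [h1, ih]
    ext
    · simp
    · simp
      ring

end curve

/-- The hyperelliptic curve `y² = f(x)`, `f` squarefree of degree `2 g + 1`, in odd characteristic:
`H¹(X, O_X)` has the basis `y / x ^ (i + 1)`, `i < g`, and the matrix of Frobenius consists of
coefficients of `f ^ ((p - 1) / 2)`. -/
theorem exists_hyper (p : ℕ) [Fact p.Prime] (n : ℕ) (hn : p = 2 * n + 1)
    (k : Type u) [Field k] [CharP k p] (g : ℕ) (f : k[X]) (hf : Squarefree f)
    (hdeg : f.natDegree = 2 * g + 1) :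
    ∃ (K : Type u) (_ : Field K) (_ : Algebra k K) (x : K),
      IsFunctionField k x ∧
      ∃ b : Module.Basis (Fin g) k (H1 k x), ∀ i : Fin g,
        frob p k x (b i) = ∑ j : Fin g,
          (if (j : ℕ) + 1 ≤ ((i : ℕ) + 1) * p then
            (f ^ n).coeff (((i : ℕ) + 1) * p - ((j : ℕ) + 1)) else 0) • b j := by
  have h2 : (2 : k) ≠ 0 := by
    intro h
    have h3 : ((2 : ℕ) : k) = 0 := by exact_mod_cast h
    rw [CharP.cast_eq_zero_iff k p] at h3
    have h4 := Nat.le_of_dvd (by norm_num) h3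
    have h5 := (Fact.out : p.Prime).two_le
    omega
  have hF : Fact (∀ r : RatFunc k, r ^ 2 ≠ pol f + 0 * r) := ⟨hyper_fact hdeg⟩
  have hFF : FF k (CK f) (xx f) := by
    have h3 : FF k (RatFunc k) (tt k) := ⟨AlgHom.id k _, rfl, RingHom.Finite.id _⟩
    exact h3.step0
  refine ⟨CK f, inferInstance, inferInstance, xx f, ⟨hFF.transcendental, hFF.finite⟩,
    Module.Basis.ofEquivFun (eqvH h2 hf hdeg), ?_⟩
  intro i
  have hb : ∀ j : Fin g, Module.Basis.ofEquivFun (eqvH h2 hf hdeg) j =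
      (Submodule.Quotient.mk (bas h2 hf j) : Overlap k (xx f) ⧸ coboundary k (xx f)) := by
    intro j
    apply (eqvH h2 hf hdeg).injective
    rw [Module.Basis.coe_ofEquivFun, LinearEquiv.apply_symm_apply, eqvH_mk, Phi_bas]
  apply (eqvH h2 hf hdeg).injective
  rw [map_sum]
  have h3 : frob p k (xx f) (Module.Basis.ofEquivFun (eqvH h2 hf hdeg) i) =
      (Submodule.Quotient.mk (powMap p k (xx f) (bas h2 hf i)) :
        Overlap k (xx f) ⧸ coboundary k (xx f)) := by
    rw [hb]; rfl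
  rw [h3, eqvH_mk, Phi_apply]
  have h4 : (powMap p k (xx f) (bas h2 hf i)).1.im =
      ((tt k)⁻¹) ^ (((i : ℕ) + 1) * p) * pol (f ^ n) := by
    change ((⟨0, ((tt k)⁻¹) ^ ((i : ℕ) + 1)⟩ : CK f) ^ p).im = _
    rw [hn, mk_pow_odd]
    simp only
    rw [pol, pol, map_pow, ← pow_mul]
    ring
  rw [h4]
  ext j
  rw [cf_tinv_mul]
  simp only [map_smul]
  have h5 : ∀ j : Fin g, eqvH h2 hf hdeg (Module.Basis.ofEquivFun (eqvH h2 hf hdeg) j) = Pi.single j 1 := by
    intro j
    rw [hb, eqvH_mk, Phi_bas]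
  simp only [h5]
  rw [Finset.sum_apply, Finset.sum_eq_single j]
  · rw [Pi.smul_apply, Pi.single_eq_same, smul_eq_mul, mul_one]
  · intro c _ hc
    rw [Pi.smul_apply, Pi.single_eq_of_ne hc.symm, smul_zero]
  · intro hn
    exact absurd (Finset.mem_univ _) hn

end Pool.Agent.Lib.MP_a82f45_ag
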