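import Pool.Agent.Lib.MP_a82f45_ag.Family

set_option autoImplicit false

namespace Pool.Agent.Lib.MP_a82f45_ag

universe u

open Polynomial Finset

section main

variable (k : Type u) [Field k] (g : ℕ)

theorem single_comp {A B : Type*} [CommRing A] [CommRing B] (φ : A →+* B) [NeZero g] :
    (fun a : Fin g => φ ((Pi.single 0 1 : Fin g → A) a)) = Pi.single 0 1 := by
  funext a
  by_cases h : a = 0
  · subst h; rw [Pi.single_eq_same, Pi.single_eq_same, map_one]
  · rw [Pi.single_eq_of_ne h, Pi.single_eq_of_ne h, map_zero]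

theorem map_eqs_inl [NeZero g] {B : Type*} [CommRing B] (φ : MvPolynomial (Sg g) k →+* B)
    (p K n : ℕ) (l0 : k) (a : Fin g) :
    φ (eqs k g p K n l0 (Sum.inl a)) = gco p K n g (φ (sS k g)) (fun r => φ (sL k g l0 r)) a a -
      (φ (sS k g)) ^ (K - p ^ (a : ℕ)) * φ (sM k g a) := by
  rw [eqs, map_sub, map_mul, map_pow, map_gco]

theorem map_eqs_inr [NeZero g] {B : Type*} [CommRing B] (φ : MvPolynomial (Sg g) k →+* B)
    (p K n : ℕ) (l0 : k) (b : Fin g) :
    φ (eqs k g p K n l0 (Sum.inr b)) = (stp p (PP p K n g (φ (sS k g)) (fun r => φ (sL k g l0 r))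
      (fun a => φ (sM k g a))))^[g] (Pi.single 0 1) b := by
  rw [eqs, map_stp_iter, single_comp]
  simp only [map_PP]

/-- the determinant of the orbit -/
noncomputable def dd [NeZero g] (p K n : ℕ) (l0 : k) : MvPolynomial (Sg g) k :=
  (Matrix.of fun j b : Fin g =>
    (stp p (PP p K n g (sS k g) (sL k g l0) (sM k g)))^[(j : ℕ)] (Pi.single 0 1) b).det

theorem map_dd [NeZero g] {B : Type*} [CommRing B] (φ : MvPolynomial (Sg g) k →+* B)
    (p K n : ℕ) (l0 : k) :
    φ (dd k g p K n l0) = (Matrix.of fun j b : Fin g =>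
      (stp p (PP p K n g (φ (sS k g)) (fun r => φ (sL k g l0 r))
        (fun a => φ (sM k g a))))^[(j : ℕ)] (Pi.single 0 1) b).det := by
  rw [dd, RingHom.map_det]
  congr 1
  ext j b
  rw [RingHom.mapMatrix_apply, Matrix.map_apply, Matrix.of_apply, Matrix.of_apply, map_stp_iter,
    single_comp]
  simp only [map_PP]

variable {k g}

theorem PP_hyp {D : Type*} [CommRing D] [IsDomain D] {p K n : ℕ} (hp2 : 2 ≤ p)
    (hK : p ^ g ≤ K) (hpn : p = 2 * n + 1) {l : ℕ → D} {μ : Fin g → D}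
    (hl : ∀ r, l r ≠ 0) (hc : ∀ a : Fin g, ((qf 1 (l a)) ^ n).coeff (n - 1) ≠ 0) :
    (∀ a b : Fin g, (b : ℕ) ≠ (a : ℕ) → (b : ℕ) ≠ (a : ℕ) + 1 → PP p K n g 0 l μ a b = 0) ∧
    (∀ a b : Fin g, (b : ℕ) = (a : ℕ) + 1 → PP p K n g 0 l μ a b ≠ 0) := by
  constructor
  · intro a b h1 h2
    exact PP_zero p K n g hp2 hK l μ a b h1 h2
  · intro a b h
    have hK0 : 0 < K := lt_of_lt_of_le (Nat.pow_pos (by omega)) hK
    rw [PP_succ p K n g hpn (by omega) hK0 l μ a b h]
    refine mul_ne_zero (pow_ne_zero _ (Finset.prod_ne_zero_iff.mpr fun r _ => hl r)) (hc a)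

theorem eval_eqs [NeZero g] {p K n : ℕ} (hp2 : 2 ≤ p) (hK : p ^ g ≤ K) (hpn : p = 2 * n + 1)
    {l0 : k} (hl0 : l0 ≠ 0) (h0 : ((qf 1 l0) ^ n).coeff n = 0)
    (h1 : ((qf 1 l0) ^ n).coeff (n - 1) ≠ 0) (i : Fin g ⊕ Fin g) :
    MvPolynomial.eval (0 : Sg g → k) (eqs k g p K n l0 i) = 0 := by
  have hK0 : 0 < K := lt_of_lt_of_le (Nat.pow_pos (by omega)) hK
  obtain ⟨hz, hs⟩ := PP_hyp (D := k) (g := g) (l := fun _ => l0) (μ := fun _ => 0) hp2 hK hpn
    (fun _ => hl0) (fun _ => h1)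
  rcases i with a | b
  · rw [map_eqs_inl, eval_sS, eval_sM, mul_zero, sub_zero]
    simp only [eval_sL]
    rw [gco_zero_diag p K n g hpn hK0 _ a a.2, h0, mul_zero]
  · rw [map_eqs_inr]
    simp only [eval_sL, eval_sS, eval_sM]
    rw [orbit_last p (by omega) _ _ hs]
    · rfl
    · intro a b h
      by_cases hab : (b : ℕ) = a
      · rw [PP, if_pos (Fin.ext hab.symm)]
      · exact hz a b hab h

theorem eval_dd [NeZero g] {p K n : ℕ} (hp2 : 2 ≤ p) (hK : p ^ g ≤ K) (hpn : p = 2 * n + 1)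
    {l0 : k} (hl0 : l0 ≠ 0) (h1 : ((qf 1 l0) ^ n).coeff (n - 1) ≠ 0) :
    MvPolynomial.eval (0 : Sg g → k) (dd k g p K n l0) ≠ 0 := by
  obtain ⟨hz, hs⟩ := PP_hyp (D := k) (g := g) (l := fun _ => l0) (μ := fun _ => 0) hp2 hK hpn
    (fun _ => hl0) (fun _ => h1)
  rw [map_dd]
  simp only [eval_sL, eval_sS, eval_sM]
  refine orbit_det p (by omega) _ ?_ hs
  intro a b h
  by_cases hab : (b : ℕ) = a
  · rw [PP, if_pos (Fin.ext hab.symm)]
  · exact hz a b hab h

theorem iso [NeZero g] [IsAlgClosed k] {p : ℕ} [Fact p.Prime] [CharP k p] {K n : ℕ}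
    (hK : p ^ g ≤ K) (hpn : p = 2 * n + 1)
    {l0 : k} (hl0 : l0 ≠ 0) (h1 : ((qf 1 l0) ^ n).coeff (n - 1) ≠ 0)
    (P : Ideal (MvPolynomial (Sg g) k)) (hP : P.IsPrime) (hF : ∀ i, eqs k g p K n l0 i ∈ P)
    (hs : sS k g ∈ P) (hle : P ≤ RingHom.ker (MvPolynomial.eval (0 : Sg g → k))) (j : Sg g) :
    MvPolynomial.X j ∈ P := by
  have hpp : p.Prime := Fact.out
  have hp2 : 2 ≤ p := hpp.two_le
  have hK0 : 0 < K := lt_of_lt_of_le (Nat.pow_pos (by omega)) hK
  let D := MvPolynomial (Sg g) k ⧸ P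
  let q : MvPolynomial (Sg g) k →+* D := Ideal.Quotient.mk P
  have hq : ∀ x, q x = 0 ↔ x ∈ P := fun x => Ideal.Quotient.eq_zero_iff_mem
  have : IsDomain D := Ideal.Quotient.isDomain P
  have : CharP D p := charP_of_injective_algebraMap (algebraMap k D).injective p
  have hqs : q (sS k g) = 0 := (hq _).mpr hs
  have hqC : ∀ c : k, q (MvPolynomial.C c) = algebraMap k D c := fun c => rfl
  have hL : ∀ r, q (sL k g l0 r) = algebraMap k D l0 := by
    -- product of the constants is nonzero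
    have hLne : ∀ r, q (sL k g l0 r) ≠ 0 := by
      intro r h
      have h2 := hle ((hq _).mp h)
      rw [RingHom.mem_ker, eval_sL] at h2
      exact hl0 h2
    intro r
    by_cases hr : r < g
    · have h2 := map_eqs_inl k g q p K n l0 ⟨r, hr⟩
      rw [(hq _).mpr (hF _), hqs] at h2
      have hexp : K - p ^ r ≠ 0 := by
        have : p ^ r < p ^ g := Nat.pow_lt_pow_right (by omega) hr
        omega
      rw [zero_pow hexp, zero_mul, sub_zero, gco_zero_diag p K n g hpn hK0 _ r hr] at h2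
      rcases mul_eq_zero.mp h2.symm with h3 | h3
      · exfalso
        have h4 := (pow_eq_zero_iff (n := n) (by omega)).mp h3
        rw [Finset.prod_eq_zero_iff] at h4
        obtain ⟨i, -, hi⟩ := h4
        exact hLne i hi
      · have h4 : aeval (q (sL k g l0 r)) (hT k n) = 0 := by rw [aeval_hT]; exact h3
        have h5 : hT k n ≠ 0 := by
          intro h6
          have h7 := coeff_hT (k := k) n
          rw [h6, coeff_zero] at h7
          exact (pow_ne_zero n (neg_ne_zero.mpr one_ne_zero)) h7.symm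
        obtain ⟨c, hc⟩ := exists_const h5 h4
        have h6 : sL k g l0 r - MvPolynomial.C c ∈ P := by
          rw [← hq, map_sub, hc, hqC, sub_self]
        have h7 := hle h6
        rw [RingHom.mem_ker, map_sub, eval_sL, MvPolynomial.eval_C, sub_eq_zero] at h7
        rw [hc, h7]
    · rw [sL, dif_neg hr]
      exact hqC l0
  obtain ⟨hz, hsu⟩ := PP_hyp (D := D) (g := g) (l := fun r => q (sL k g l0 r))
    (μ := fun a => q (sM k g a)) hp2 hK hpn
    (fun r => by
      rw [hL]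
      exact fun h => hl0 ((algebraMap k D).injective (by rw [h, map_zero])))
    (fun a => by
      simp only [hL]
      have h2 := coeff_map (p := (qf 1 l0) ^ n) (algebraMap k D) (n - 1)
      rw [Polynomial.map_pow, map_qf, map_one] at h2
      rw [h2]
      exact fun h => h1 ((algebraMap k D).injective (by rw [h, map_zero])))
  match j with
  | none => exact hs
  | some (Sum.inl a) =>
    have h2 := hL a
    rw [sL, dif_pos a.2, map_add, hqC] at h2
    have h3 : q (MvPolynomial.X (some (Sum.inl ⟨(a : ℕ), a.2⟩))) = 0 := by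
      have := add_eq_left.mp h2
      exact this
    exact (hq _).mp h3
  | some (Sum.inr a) =>
    have hw : (stp p (PP p K n g (0 : D) (fun r => q (sL k g l0 r))
        (fun a => q (sM k g a))))^[g] (Pi.single 0 1) = 0 := by
      funext b
      have h2 := map_eqs_inr k g q p K n l0 b
      rw [(hq _).mpr (hF _), hqs] at h2
      exact h2.symm
    have h3 := diag_zero p _ hz hsu hw a
    rw [PP, if_pos rfl] at h3
    exact (hq _).mp h3

end main

end Pool.Agent.Lib.MP_a82f45_ag
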