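import Pool.Agent.Lib.MP_a82f45_ag.Points

set_option autoImplicit false
set_option linter.unusedSectionVars false
set_option linter.unusedSimpArgs false

namespace Pool.Agent.Lib.MP_a82f45_ag

universe u

open WithZero

section kern

variable {k : Type u} [Field k] [CharP k 2] {K : Type u} [Field K] [Algebra k K] {x : K} {g : ℕ}
  {St : Stage k K x g} {e : ℕ} (B : Branch St e)

theorem S_sub {a b : K} (ha : a ∈ Ssub k x) (hb : b ∈ Ssub k x) : a + b ∈ Ssub k x :=
  add_mem ha hb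

theorem smul_algMap (c : k) (a : K) : c • a = algebraMap k K c * a := Algebra.smul_def c a

/-- reduction of an element whose second coordinate extends -/
theorem reduce {z : Ext B} {p s1 : K} (hp : idl St.P e p) (hs : s1 ∈ intRing k {x⁻¹})
    (h : z.im = p + s1) : z + io B (z.re + p * B.h) ∈ Ssub k (io B x) := by
  have h2 := two_eq_zero k K
  rw [mem_SL]
  refine ⟨p, s1, hp, hs, ?_, ?_⟩
  · rw [QuadraticAlgebra.im_add, io_im, h, add_zero]
  · have : (z + io B (z.re + p * B.h)).re + p * B.h = 0 := by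
      rw [QuadraticAlgebra.re_add, io_re]
      linear_combination (z.re + p * B.h) * h2
    rw [this]
    exact zero_mem _

include B in
/-- the decomposition of the second coordinate is unique -/
theorem decomp_unique {b0 b1 c0 c1 : K} (hb0 : idl St.P e b0) (hb1 : b1 ∈ intRing k {x⁻¹})
    (hc0 : idl St.P e c0) (hc1 : c1 ∈ intRing k {x⁻¹}) (h : b0 + b1 = c0 + c1) :
    b0 = c0 ∧ b1 = c1 := by
  have h2 := two_eq_zero k K
  have h3 : b0 + c0 = b1 + c1 := by linear_combination h - (b1 - c0) * h2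
  have h4 := idl_const B (idl_add _ hb0 hc0) (h3 ▸ add_mem hb1 hc1)
  constructor
  · linear_combination h4 - c0 * h2
  · linear_combination h - h4 + c0 * h2

theorem sq_re (z : Ext B) : (z ^ 2).re = z.re ^ 2 + z.im ^ 2 * B.f1 := by
  rw [pow_two, QuadraticAlgebra.re_mul]; ring

theorem sq_im (z : Ext B) : (z ^ 2).im = z.im ^ 2 := by
  have h2 := two_eq_zero k K
  rw [pow_two, QuadraticAlgebra.im_mul]
  linear_combination (z.re * z.im) * h2

/-- final step of the kernel computation -/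
theorem ker_final {z : Ext B} {a : K} (ha : a ∈ intRing k {x, x⁻¹})
    (hz : z + io B a ∈ Ssub k (io B x)) (h : z ^ 2 ∈ Ssub k (io B x)) :
    ∃ c : k, z + c • io B St.κ ∈ Ssub k (io B x) := by
  have h2 := two_eq_zero k K
  have h2L := two_eq_zero k (Ext B)
  have h3 : (io B a) ^ 2 ∈ Ssub k (io B x) := by
    have h4 := sq_mem_S hz
    rw [add_sq' h2L] at h4
    have h5 := sub_mem h4 h
    rw [add_sub_cancel_left] at h5
    exact h5
  rw [← map_pow, io_mem_SL] at h3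
  obtain ⟨c, hc⟩ := St.ker a ha h3
  refine ⟨c, ?_⟩
  have h6 := (io_mem_SL B).mpr hc
  rw [map_add, map_smul] at h6
  have h7 := add_mem hz h6
  have h8 : z + io B a + (io B a + c • io B St.κ) = z + c • io B St.κ := by
    linear_combination (io B a) * h2L
  rw [h8] at h7
  exact h7

theorem ρh {St : Stage k K x g} {e : ℕ} (B : Branch St e) : St.ρ B.h = St.ρ B.f0 := by
  have h2 : (2 : k) = 0 := two_eq_zero k k
  have h := congrArg St.ρ B.hfh
  rw [map_add, map_add, St.ρ1 _ B.hf1, St.ρsq] at h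
  linear_combination -h

end kern

section kern1

variable {k : Type u} [Field k] [CharP k 2] {K : Type u} [Field K] [Algebra k K] {x : K} {g : ℕ}
  {St : Stage k K x g}

theorem ker_one (B : Branch St 1) (hB : ∀ b, idl St.P 1 b → b * B.f0 ∈ intRing k {x})
    (hρ : St.ρ B.f0 ≠ 0) (z : Ext B) (hz : z ∈ intRing k {io B x, (io B x)⁻¹})
    (h : z ^ 2 ∈ Ssub k (io B x)) : ∃ c : k, z + c • io B St.κ ∈ Ssub k (io B x) := by
  have h2 := two_eq_zero k K
  have h2k : (2 : k) = 0 := two_eq_zero k k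
  have h' := h
  rw [chart01] at hz
  rw [mem_SL] at h
  obtain ⟨b0, b1, hb0, hb1, him, hre⟩ := h
  rw [sq_im] at him
  rw [sq_re] at hre
  have hS : z.im ^ 2 ∈ Ssub k x := by
    rw [him]
    exact add_mem (S_of_left hb0.1) (S_of_right hb1)
  obtain ⟨c, hc⟩ := St.ker _ hz.2 hS
  rw [mem_S] at hc
  obtain ⟨s0, hs0, s1, hs1, hsum⟩ := hc
  obtain ⟨c0, hc0⟩ := exists_idl_one St.P hs0
  obtain ⟨p, hp⟩ : ∃ p, p = s0 + algebraMap k K c0 := ⟨_, rfl⟩
  obtain ⟨q, hq⟩ : ∃ q, q = s1 + algebraMap k K c0 := ⟨_, rfl⟩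
  rw [← hp] at hc0
  have hqm : q ∈ intRing k {x⁻¹} := hq ▸ add_mem hs1 (const_mem _ _)
  have hzim : z.im = c • St.κ + (p + q) := by
    rw [hp, hq]
    linear_combination (-1 : K) * hsum - (c • St.κ + algebraMap k K c0) * h2
  obtain ⟨C, hC⟩ : ∃ C, C = algebraMap k K c := ⟨_, rfl⟩
  have hCm : ∀ s : Set K, C ∈ intRing k s := fun s => hC ▸ const_mem c s
  rw [smul_algMap, ← hC] at hzim
  have hb0' : idl St.P 1 (C ^ 2 * x + p ^ 2) := by
    refine idl_add _ (idl_mul _ (idl_x _) (pow_mem (hCm _) 2)) ?_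
    rw [pow_two]
    exact idl_mul _ hc0 hc0.1
  have hb1' : C ^ 2 * St.α + q ^ 2 ∈ intRing k {x⁻¹} :=
    add_mem (mul_mem (pow_mem (hCm _) 2) St.hα) (pow_mem hqm 2)
  obtain ⟨hb0eq, hb1eq⟩ := decomp_unique B hb0 hb1 hb0' hb1' (by
    rw [← him, hzim]
    linear_combination C ^ 2 * St.hκα + (C * St.κ * p + C * St.κ * q + p * q) * h2)
  have hE : z.re ^ 2 + z.im ^ 2 * B.f1 + b0 * B.h =
      z.re ^ 2 + (b1 * B.f1 + (b0 * B.f0 + ((C * St.κ * B.h) ^ 2 + ((p * B.h) ^ 2 +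
        (c ^ 2) • (St.α * B.h ^ 2))))) := by
    rw [him, smul_algMap, map_pow, ← hC, hb0eq]
    linear_combination (C ^ 2 * x + p ^ 2) * B.hfh + (-(C ^ 2 * B.h ^ 2)) * St.hκα + ((C ^ 2 * x + p ^ 2) * (-B.f0 + B.h) - C ^ 2 * B.h ^ 2 * St.α) * h2
  have h0 := ρS St hre
  rw [hE, map_add, map_add, map_add, map_add, map_add, St.ρsq, St.ρsq, St.ρsq,
    St.ρ1 _ (mul_mem hb1 B.hf1), St.ρ0 _ (hB _ hb0), map_smul, St.ρα, ρh B] at h0
  simp only [zero_add, smul_eq_mul] at h0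
  have hc : c = 0 := by
    by_contra hne
    exact mul_ne_zero (pow_ne_zero 2 hne) (pow_ne_zero 2 hρ) h0
  rw [hC, hc, map_zero, zero_mul, zero_add] at hzim
  have hred := reduce B hc0 hqm hzim
  have hVa : z.re + p * B.h ∈ intRing k {x, x⁻¹} :=
    add_mem hz.1 (mul_mem (left_le hc0.1) B.hh)
  exact ker_final B hVa hred h'

theorem x2_idl (P : Pt k x St.ρ) : idl P 2 (x ^ 2) := by
  apply idl_of_val P (pow_mem x_mem 2)
  rw [map_pow, map_pow, P.hx, val_single_one, ← exp_nsmul]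
  simp

theorem coeff_one_sq (P : Pt k x St.ρ) (s : K) : (P.σ (s ^ 2)).coeff 1 = 0 := by
  rw [map_pow, coeff_sq, if_neg]
  rintro ⟨m, hm⟩
  omega

theorem ker_two (B : Branch St 2) (hρ : St.ρ (x ^ 2 * B.f0) ≠ 0)
    (z : Ext B) (hz : z ∈ intRing k {io B x, (io B x)⁻¹})
    (h : z ^ 2 ∈ Ssub k (io B x)) : ∃ c : k, z + c • io B St.κ ∈ Ssub k (io B x) := by
  have h2 := two_eq_zero k K
  have h2L := two_eq_zero k (Ext B)
  have h2k : (2 : k) = 0 := two_eq_zero k k
  have h' := h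
  rw [chart01] at hz
  rw [mem_SL] at h
  obtain ⟨b0, b1, hb0, hb1, him, hre⟩ := h
  rw [sq_im] at him
  rw [sq_re] at hre
  have hS : z.im ^ 2 ∈ Ssub k x := by
    rw [him]
    exact add_mem (S_of_left hb0.1) (S_of_right hb1)
  obtain ⟨c, hc⟩ := St.ker _ hz.2 hS
  rw [mem_S] at hc
  obtain ⟨s0, hs0, s1, hs1, hsum⟩ := hc
  obtain ⟨C, hC⟩ : ∃ C, C = algebraMap k K c := ⟨_, rfl⟩
  have hCm : ∀ s : Set K, C ∈ intRing k s := fun s => hC ▸ const_mem c s
  rw [smul_algMap, ← hC] at hsum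
  -- comparison of the coefficients of the uniformiser
  have hcmp : C ^ 2 * x + s0 ^ 2 + b0 = C ^ 2 * St.α + s1 ^ 2 + b1 := by
    linear_combination (-(C ^ 2)) * St.hκα + (s0 + s1 + z.im + C * St.κ) * hsum - him +
      (C ^ 2 * St.κ ^ 2 + z.im ^ 2 + C * z.im * St.κ - C ^ 2 * St.α - s0 * s1 - s1 ^ 2 - b1) * h2
  obtain ⟨c1, hc1⟩ := St.inter (C ^ 2 * x + s0 ^ 2 + b0)
    (add_mem (add_mem (mul_mem (pow_mem (hCm _) 2) x_mem) (pow_mem hs0 2)) hb0.1)
    (hcmp ▸ add_mem (add_mem (mul_mem (pow_mem (hCm _) 2) St.hα) (pow_mem hs1 2)) hb1)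
  have hc0 : c = 0 := by
    have h5 := congrArg (fun t => (St.P.σ t).coeff 1) hc1
    simp only [map_add, HahnSeries.coeff_add, AlgHom.commutes, coeff_algMap, one_ne_zero, if_false] at h5
    rw [coeff_one_sq, hb0.2 1 (by norm_num), map_mul, hC, ← map_pow, AlgHom.commutes, coeff_smul',
      St.P.hx, HahnSeries.coeff_single_same, add_zero, add_zero, mul_one] at h5
    exact pow_eq_zero_iff (two_ne_zero) |>.mp h5
  rw [hC, hc0, map_zero, zero_mul, add_zero] at hsum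
  obtain ⟨d0, d1, hd⟩ := exists_idl_two St.P hs0
  obtain ⟨p, hp⟩ : ∃ p, p = s0 + algebraMap k K d0 + algebraMap k K d1 * x := ⟨_, rfl⟩
  obtain ⟨q, hq⟩ : ∃ q, q = s1 + algebraMap k K d0 := ⟨_, rfl⟩
  rw [← hp] at hd
  have hqm : q ∈ intRing k {x⁻¹} := hq ▸ add_mem hs1 (const_mem _ _)
  obtain ⟨D, hD⟩ : ∃ D, D = algebraMap k K d1 := ⟨_, rfl⟩
  have hDm : ∀ s : Set K, D ∈ intRing k s := fun s => hD ▸ const_mem d1 s
  have hzim : z.im = D * x + (p + q) := by
    rw [hp, hq, hD]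
    linear_combination (-1 : K) * hsum - (algebraMap k K d1 * x + algebraMap k K d0) * h2
  -- replace `z` by `z'`
  obtain ⟨a', ha'⟩ : ∃ a', a' = z.re + p * B.h := ⟨_, rfl⟩
  obtain ⟨z', hz'⟩ : ∃ z' : Ext B, z' = ⟨a', D * x⟩ := ⟨_, rfl⟩
  have hzz' : z + z' ∈ Ssub k (io B x) := by
    rw [mem_SL, hz']
    refine ⟨p, q, hd, hqm, ?_, ?_⟩
    · rw [QuadraticAlgebra.im_add]
      change z.im + D * x = p + q
      rw [hzim]
      linear_combination (D * x) * h2
    · rw [QuadraticAlgebra.re_add]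
      change z.re + a' + p * B.h ∈ _
      have : z.re + a' + p * B.h = 0 := by
        rw [ha']; linear_combination (z.re + p * B.h) * h2
      rw [this]; exact zero_mem _
  have hz2' : z' ^ 2 ∈ Ssub k (io B x) := by
    have h4 := sq_mem_S hzz'
    rw [add_sq' h2L] at h4
    have h5 := sub_mem h4 h'
    rw [add_sub_cancel_left] at h5
    exact h5
  rw [mem_SL] at hz2'
  obtain ⟨e0, e1, he0, he1, hime, hree⟩ := hz2'
  rw [sq_im] at hime
  rw [sq_re] at hree
  have hz're : z'.re = a' := by rw [hz']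
  have hz'im : z'.im = D * x := by rw [hz']
  rw [hz'im] at hime
  rw [hz're, hz'im] at hree
  have hDx : idl St.P 2 (D ^ 2 * x ^ 2) := idl_mul _ (x2_idl St.P) (pow_mem (hDm _) 2)
  obtain ⟨he0eq, -⟩ := decomp_unique B he0 he1 hDx (zero_mem _) (by
    rw [← hime]; ring)
  have hE : a' ^ 2 + (D * x) ^ 2 * B.f1 + e0 * B.h =
      (a' + D * x * B.h) ^ 2 + (d1 ^ 2) • (x ^ 2 * B.f0) := by
    rw [he0eq, smul_algMap, map_pow, ← hD]
    linear_combination (D ^ 2 * x ^ 2) * B.hfh + (D ^ 2 * x ^ 2 * (-B.f0 + B.h) - a' * D * x * B.h) * h2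
  have h0 := ρS St hree
  rw [hE, map_add, St.ρsq, map_smul, zero_add, smul_eq_mul] at h0
  have hd1 : d1 = 0 := by
    by_contra hne
    exact mul_ne_zero (pow_ne_zero 2 hne) hρ h0
  rw [hD, hd1, map_zero, zero_mul, zero_add] at hzim
  have hred := reduce B hd hqm hzim
  have hVa : z.re + p * B.h ∈ intRing k {x, x⁻¹} :=
    add_mem hz.1 (mul_mem (left_le hd.1) B.hh)
  exact ker_final B hVa hred h'

end kern1

end Pool.Agent.Lib.MP_a82f45_ag
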