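import Pool.Agent.Lib.MP_a82f45_ag.Rank

set_option autoImplicit false
set_option linter.unusedSectionVars false
set_option linter.unusedSimpArgs false

namespace Pool.Agent.Lib.MP_a82f45_ag

universe u

open WithZero

section make

variable {k : Type u} [Field k] [CharP k 2] {K : Type u} [Field K] [Algebra k K] {x : K} {g : ℕ}
  {St : Stage k K x g} {e : ℕ} (B : Branch St e)

/-- the new stage -/
noncomputable def mkStage (he : e ≤ 2)
    (hker : ∀ z ∈ intRing k {io B x, (io B x)⁻¹}, z ^ 2 ∈ Ssub k (io B x) →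
      ∃ c : k, z + c • io B St.κ ∈ Ssub k (io B x)) (g' : ℕ)
    (hg' : Module.rank k (Vsub k x ⧸ (Tsub St.P e).submoduleOf (Vsub k x)) + g = g')
    (r0 : PowerSeries k) (h0 : (r0 : LaurentSeries k) ^ 2 + r0 = St.Q.σ B.f0)
    (b : K) (hb : idl St.P e b) (hb0 : (St.Q.σ b).coeff 0 ≠ 0) :
    Stage k (Ext B) (io B x) g' where
  x0 := by rw [Ne, map_eq_zero]; exact St.x0
  inter := interL B
  ρ := rhoL B
  ρ0 := by
    intro z hz
    rw [chart0] at hz
    exact St.ρ0 _ hz.2.1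
  ρ1 := by
    intro z hz
    rw [chart1] at hz
    exact St.ρ1 _ hz.2
  ρsq := by
    intro z
    rw [rhoL_apply, sq_im, St.ρsq]
  α := io B St.α
  κ := io B St.κ
  hα := by rw [chart1]; exact ⟨St.hα, zero_mem _⟩
  hκ := by rw [chart01]; exact ⟨St.hκ, zero_mem _⟩
  hκα := by rw [← map_pow, St.hκα, map_add]
  ρα := by
    intro z
    rw [rhoL_apply, rhoL_apply, QuadraticAlgebra.im_mul, sq_im, io_re, io_im, mul_zero,
      zero_mul, zero_mul, add_zero, add_zero, St.ρα]
  hκS := by rw [io_mem_SL]; exact St.hκS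
  ker := hker
  n := 2 * St.n + 1
  nil := nilL B he
  rk := by rw [rankL, St.rk, hg']
  P := newPt B r0 h0 b hb hb0
  Q := newPt B (r0 + 1) (root_add_one B r0 h0) b hb hb0
  hPQ := new_sep B r0 h0 b hb hb0

end make

section next

variable {k : Type u} [Field k] [CharP k 2] [IsAlgClosed k] {K : Type u} [Field K] [Algebra k K]
  {x : K} {g : ℕ}

theorem exists_root (St : Stage k K x g) {e : ℕ} (B : Branch St e) :
    ∃ r0 : PowerSeries k, (r0 : LaurentSeries k) ^ 2 + r0 = St.Q.σ B.f0 := by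
  obtain ⟨y, hy⟩ := (LaurentSeries.val_le_one_iff_eq_coe k _).mp B.hQ
  obtain ⟨c, hc⟩ : ∃ c : k, c ^ 2 + c = PowerSeries.constantCoeff y := by
    obtain ⟨c, hc⟩ := IsAlgClosed.exists_root
      (Polynomial.X ^ 2 + Polynomial.X - Polynomial.C (PowerSeries.constantCoeff y)) (by
        have : (Polynomial.X ^ 2 + Polynomial.X - Polynomial.C (PowerSeries.constantCoeff y)).degree = 2 := by
          compute_degree!
        rw [this]; norm_num)
    refine ⟨c, ?_⟩
    rw [Polynomial.IsRoot] at hc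
    simp only [Polynomial.eval_sub, Polynomial.eval_add, Polynomial.eval_pow, Polynomial.eval_X,
      Polynomial.eval_C] at hc
    linear_combination hc
  obtain ⟨r, hr, -⟩ := exists_asroot y c hc
  refine ⟨r, ?_⟩
  rw [← hy, ← hr, PowerSeries.coe_add, PowerSeries.coe_pow]

/-- doubling step -/
theorem exists_stage_double (St : Stage k K x g) :
    ∃ f1 : K, ∃ hf : Fact (∀ r : K, r ^ 2 ≠ f1 + 1 * r),
      Nonempty (Stage k (QuadraticAlgebra K f1 1) (inc k f1 x) (2 * g)) := by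
  obtain ⟨B, hB⟩ := exists_branch St 1 le_rfl St.P.u (u_mem _ St.x0)
    (by rw [val_u]; norm_num)
    (fun b hb => by
      have : b ^ 2 * St.P.u = b * (St.P.u * b) := by ring
      rw [this]
      exact mul_mem hb.1 (u_mul_mem _ hb))
    (val_other _ _ St.hPQ)
  have h2 := two_eq_zero k K
  have hB1 : ∀ b, idl St.P 1 b → b * B.f0 ∈ intRing k {x} := by
    intro b hb
    have h3 : b * B.f0 = b * (B.f0 + St.P.u) + St.P.u * b := by
      linear_combination (-(b * St.P.u)) * h2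
    rw [h3]
    exact add_mem (mul_mem hb.1 hB) (u_mul_mem _ hb)
  have hρ : St.ρ B.f0 ≠ 0 := by
    have h3 : B.f0 = (B.f0 + St.P.u) + St.P.u := by
      linear_combination (-St.P.u) * h2
    rw [h3, map_add, St.ρ0 _ hB, zero_add, St.P.hρ _ St.P.hu]
    exact St.P.hu0
  obtain ⟨r0, h0⟩ := exists_root St B
  obtain ⟨b, hb, hb0⟩ := exists_bstar St 1
  refine ⟨B.f1, ⟨fact_of_branch B⟩, ⟨mkStage B (by norm_num) (ker_one B hB1 hρ) (2 * g) ?_ r0 h0 b hb hb0⟩⟩
  rw [rank_T_one]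
  push_cast
  ring

/-- doubling plus one step -/
theorem exists_stage_double_add_one (St : Stage k K x g) :
    ∃ f1 : K, ∃ hf : Fact (∀ r : K, r ^ 2 ≠ f1 + 1 * r),
      Nonempty (Stage k (QuadraticAlgebra K f1 1) (inc k f1 x) (2 * g + 1)) := by
  obtain ⟨B, hB⟩ := exists_branch St 2 (by norm_num) (St.P.u ^ 3) (pow_mem (u_mem _ St.x0) 3)
    (by rw [map_pow, map_pow, val_u, ← exp_nsmul]; norm_num)
    (fun b hb => by
      have := u3_mul St.P hb hb
      rwa [← pow_two] at this)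
    (by
      rw [map_pow, map_pow]
      exact pow_le_one' (val_other _ _ St.hPQ) 3)
  have h2 := two_eq_zero k K
  have hρ : St.ρ (x ^ 2 * B.f0) ≠ 0 := by
    have h3 : x ^ 2 * B.f0 = x ^ 2 * (B.f0 + St.P.u ^ 3) + x ^ 2 * St.P.u ^ 3 := by
      linear_combination (-(x ^ 2 * St.P.u ^ 3)) * h2
    have h4 : St.ρ (x ^ 2 * St.P.u ^ 3) = (St.P.σ (x ^ 2 * St.P.u ^ 3)).coeff (-1) := by
      apply St.P.hρ
      intro s hs hs0
      have h5 : x ^ 2 * St.P.u ^ 3 * s = (St.P.u * x) ^ 2 * (St.P.u * s) := by ring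
      rw [h5]
      exact mul_mem (pow_mem (u_mul_mem _ (idl_x _)) 2) (St.P.hu s hs hs0)
    have h6 : (St.P.σ (x ^ 2 * St.P.u ^ 3)).coeff (-1) = ((St.P.σ St.P.u).coeff (-1)) ^ 3 := by
      rw [← mul_X, show (-1 : ℤ) + 1 = 0 by norm_num]
      have h7 : x * (x ^ 2 * St.P.u ^ 3) = (x * St.P.u) * ((x * St.P.u) * (x * St.P.u)) := by ring
      have h8 : Valued.v (St.P.σ (x * St.P.u)) ≤ (1 : ℤᵐ⁰) := by
        rw [mul_comm]; exact val_pt _ (u_mul_mem _ (idl_x _))
      have h9 : (St.P.σ (x * St.P.u)).coeff 0 = (St.P.σ St.P.u).coeff (-1) := by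
        have := mul_X St.P St.P.u (-1)
        rw [show (-1 : ℤ) + 1 = 0 by norm_num] at this
        exact this
      rw [h7, map_mul St.P.σ (x * St.P.u) (x * St.P.u * (x * St.P.u)), coeff_zero_mul h8,
        map_mul St.P.σ (x * St.P.u) (x * St.P.u), coeff_zero_mul h8 h8, h9]
      · ring
      · rw [map_mul St.P.σ (x * St.P.u) (x * St.P.u), map_mul]
        exact mul_le_one' h8 h8
    rw [h3, map_add, St.ρ0 _ (mul_mem (pow_mem x_mem 2) hB), zero_add, h4, h6]
    exact pow_ne_zero 3 St.P.hu0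
  obtain ⟨r0, h0⟩ := exists_root St B
  obtain ⟨b, hb, hb0⟩ := exists_bstar St 2
  refine ⟨B.f1, ⟨fact_of_branch B⟩, ⟨mkStage B (by norm_num) (ker_two B hρ) (2 * g + 1) ?_ r0 h0 b hb hb0⟩⟩
  rw [rank_T_two]
  push_cast
  ring

end next

end Pool.Agent.Lib.MP_a82f45_ag
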