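import Pool.Agent.Lib.MP_a82f45_ag.Exist
import Pool.Agent.Lib.MP_a82f45_ag.Hyper

set_option autoImplicit false

namespace Pool.Agent.Lib.MP_a82f45_ag

universe u

open Polynomial Finset

/-- transport of the coordinates computation to an abstract semilinear map -/
theorem nilpotent_of_matrix (p : ℕ) [Fact p.Prime] {k : Type u} [Field k] [CharP k p] {V : Type u}
    [AddCommGroup V] [Module k V] (F : V →ₛₗ[frobenius k p] V) (g : ℕ) [NeZero g]
    (b : Module.Basis (Fin g) k V) (C : Fin g → Fin g → k) (hF : ∀ i, F (b i) = ∑ j, C i j • b j)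
    (θ : Fin g → k) (c : k) (Φ : Fin g → Fin g → k) (hθ : ∀ a, θ a ≠ 0) (hc : c ≠ 0)
    (hC : ∀ a b, θ a ^ p * C a b = c * θ b * Φ a b)
    (hnil : (stp p Φ)^[g] (Pi.single 0 1) = 0)
    (hdet : (Matrix.of fun j b : Fin g => (stp p Φ)^[(j : ℕ)] (Pi.single 0 1) b).det ≠ 0) :
    Module.finrank k V = g ∧ (∀ h, F^[g] h = 0) ∧ Module.finrank k (LinearMap.ker F) = 1 := by
  have hp : p ≠ 0 := (Fact.out : p.Prime).ne_zero
  have hV : Module.finrank k V = g := by
    rw [Module.finrank_eq_card_basis b, Fintype.card_fin]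
  let T : (Fin g → k) → V := fun v => ∑ i, (v i * θ i) • b i
  have hTs : ∀ (e : k) (v : Fin g → k), T (e • v) = e • T v := by
    intro e v
    simp only [T, Pi.smul_apply, smul_eq_mul, mul_assoc, Finset.smul_sum, smul_smul]
  have hFT : ∀ v, F (T v) = c • T (stp p Φ v) := by
    intro v
    simp only [T, map_sum, Finset.smul_sum, smul_smul]
    have h1 : ∀ i, F ((v i * θ i) • b i) = ∑ j, (v i ^ p * (c * θ j * Φ i j)) • b j := by
      intro i
      rw [LinearMap.map_smulₛₗ, hF, frobenius_def, Finset.smul_sum]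
      apply Finset.sum_congr rfl
      intro j _
      rw [smul_smul, ← hC, mul_pow, mul_assoc]
    simp only [h1]
    rw [Finset.sum_comm]
    apply Finset.sum_congr rfl
    intro j _
    rw [← Finset.sum_smul, stp, Finset.sum_mul, Finset.mul_sum]
    congr 1
    apply Finset.sum_congr rfl
    intro i _
    ring
  have hit : ∀ m : ℕ, ∃ e : k, e ≠ 0 ∧ F^[m] (T (Pi.single 0 1)) = e • T ((stp p Φ)^[m] (Pi.single 0 1)) := by
    intro m
    induction m with
    | zero => exact ⟨1, one_ne_zero, by rw [one_smul]; rfl⟩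
    | succ m ih =>
      obtain ⟨e, he, h⟩ := ih
      refine ⟨e ^ p * c, mul_ne_zero (pow_ne_zero p he) hc, ?_⟩
      rw [Function.iterate_succ_apply', Function.iterate_succ_apply', h, LinearMap.map_smulₛₗ,
        hFT, frobenius_def, smul_smul]
  choose e he hit using hit
  have hlast : F^[g] (T (Pi.single 0 1)) = 0 := by
    rw [hit, hnil]
    simp [T]
  have hli : LinearIndependent k (fun j : Fin g => F^[(j : ℕ)] (T (Pi.single 0 1))) := by
    rw [Fintype.linearIndependent_iff]
    intro w hw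
    -- rewrite in coordinates
    have h1 : ∀ i : Fin g, ∑ j : Fin g, (w j * e j) * (stp p Φ)^[(j : ℕ)] (Pi.single 0 1) i = 0 := by
      have h2 : ∑ i : Fin g, ((∑ j : Fin g, (w j * e j) * (stp p Φ)^[(j : ℕ)] (Pi.single 0 1) i) * θ i) • b i = 0 := by
        rw [← hw]
        simp only [hit, T, Finset.smul_sum, smul_smul]
        rw [Finset.sum_comm]
        apply Finset.sum_congr rfl
        intro i _
        rw [← Finset.sum_smul, Finset.sum_mul]
        congr 1
        apply Finset.sum_congr rfl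
        intro j _
        ring
      intro i
      have h3 := Fintype.linearIndependent_iff.mp b.linearIndependent _ h2 i
      exact (mul_eq_zero.mp h3).resolve_right (hθ i)
    have h4 : Matrix.vecMul (fun j => w j * e j)
        (Matrix.of fun j b : Fin g => (stp p Φ)^[(j : ℕ)] (Pi.single 0 1) b) = 0 := by
      funext i
      exact h1 i
    have h5 := Matrix.eq_zero_of_vecMul_eq_zero hdet h4
    intro j
    have h6 := congrFun h5 j
    exact (mul_eq_zero.mp h6).resolve_right (he j)
  exact ⟨hV, cyclic_nilpotent p F g (Nat.pos_of_ne_zero (NeZero.ne g)) hV _ hli hlast⟩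

/-- odd characteristic -/
theorem odd_case (p : ℕ) [Fact p.Prime] (n : ℕ) (hpn : p = 2 * n + 1) (k : Type u) [Field k]
    [CharP k p] [IsAlgClosed k] (g : ℕ) (hg : 1 ≤ g) :
    ∃ (K : Type u) (_ : Field K) (_ : Algebra k K) (x : K),
      IsFunctionField k x ∧
      Module.finrank k (H1 k x) = g ∧
      (∃ n : ℕ, ∀ h : H1 k x, (frob p k x)^[n] h = 0) ∧
      Module.finrank k (LinearMap.ker (frob p k x)) = 1 := by
  have : NeZero g := ⟨by omega⟩
  obtain ⟨f, hsq, hdeg, θ, c, Φ, hθ, hc, hC, hnil, hdet⟩ := exists_family p n hpn k g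
  obtain ⟨K, _, _, x, hx, b, hb⟩ := exists_hyper p n hpn k g f hsq hdeg
  obtain ⟨h1, h2, h3⟩ := nilpotent_of_matrix p (frob p k x) g b _ hb θ c Φ hθ hc hC hnil hdet
  exact ⟨K, inferInstance, inferInstance, x, hx, h1, ⟨g, h2⟩, h3⟩

end Pool.Agent.Lib.MP_a82f45_ag
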