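import Pool.Agent.Lib.MP_a82f45_ag.Basic

set_option autoImplicit false
set_option linter.unusedSectionVars false
set_option linter.unusedSimpArgs false

namespace Pool.Agent.Lib.MP_a82f45_ag

universe u

open WithZero

/-- an unramified point above `x = 0` -/
structure Pt (k : Type u) [Field k] {K : Type u} [Field K] [Algebra k K] (x : K)
    (ρ : K →ₗ[k] k) where
  σ : K →ₐ[k] LaurentSeries k
  hx : σ x = HahnSeries.single 1 1
  u : K
  hu : ∀ s ∈ intRing k {x}, (σ s).coeff 0 = 0 → u * s ∈ intRing k {x}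
  hu0 : (σ u).coeff (-1) ≠ 0
  hρ : ∀ w : K, (∀ s ∈ intRing k {x}, (σ s).coeff 0 = 0 → w * s ∈ intRing k {x}) →
    ρ w = (σ w).coeff (-1)

section pt

variable {k : Type u} [Field k] {K : Type u} [Field K] [Algebra k K] {x : K} {ρ : K →ₗ[k] k}

theorem algMap_laurent (c : k) : algebraMap k (LaurentSeries k) c = HahnSeries.C c :=
  LaurentSeries.algebraMap_apply k c

theorem coeff_algMap (c : k) (n : ℤ) :
    (algebraMap k (LaurentSeries k) c).coeff n = if n = 0 then c else 0 := by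
  rw [algMap_laurent, HahnSeries.C_apply, HahnSeries.coeff_single]
  split_ifs <;> rfl

theorem coeff_smul' (c : k) (z : LaurentSeries k) (n : ℤ) :
    (algebraMap k (LaurentSeries k) c * z).coeff n = c * z.coeff n := by
  rw [algMap_laurent, HahnSeries.C_mul_eq_smul, HahnSeries.coeff_smul, smul_eq_mul]

theorem map_smul' (σ : K →ₐ[k] LaurentSeries k) (c : k) (a : K) (n : ℤ) :
    (σ (c • a)).coeff n = c * (σ a).coeff n := by
  rw [Algebra.smul_def, map_mul, AlgHom.commutes, coeff_smul']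

theorem val_algMap (c : k) : Valued.v (algebraMap k (LaurentSeries k) c) ≤ (1 : ℤᵐ⁰) := by
  rw [val_le_one_iff]
  intro n hn
  rw [coeff_algMap, if_neg (by omega)]

theorem val_pt (P : Pt k x ρ) {a : K} (ha : a ∈ intRing k {x}) :
    Valued.v (P.σ a) ≤ (1 : ℤᵐ⁰) := by
  refine val_le_one (k := k) (Valuation.comap (P.σ : K →+* LaurentSeries k) Valued.v) ?_ ?_ ha
  · intro b hb
    rw [Set.mem_singleton_iff] at hb
    subst hb
    change Valued.v (P.σ b) ≤ 1
    rw [P.hx, val_single_one]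
    rw [← exp_zero, exp_le_exp]
    norm_num
  · intro c
    change Valued.v (P.σ (algebraMap k K c)) ≤ 1
    rw [AlgHom.commutes]
    exact val_algMap c

/-- elements of order at least `e` at the point -/
def idl (P : Pt k x ρ) (e : ℕ) (b : K) : Prop :=
  b ∈ intRing k {x} ∧ ∀ m < (e : ℤ), (P.σ b).coeff m = 0

theorem idl_val (P : Pt k x ρ) {e : ℕ} {b : K} (hb : idl P e b) :
    Valued.v (P.σ b) ≤ exp (-(e : ℤ)) := val_le_exp_iff.mpr hb.2

theorem idl_of_val (P : Pt k x ρ) {e : ℕ} {b : K} (hb : b ∈ intRing k {x})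
    (h : Valued.v (P.σ b) ≤ exp (-(e : ℤ))) : idl P e b := ⟨hb, val_le_exp_iff.mp h⟩

theorem idl_one_iff (P : Pt k x ρ) {b : K} (hb : b ∈ intRing k {x}) :
    idl P 1 b ↔ (P.σ b).coeff 0 = 0 := by
  constructor
  · intro h; exact h.2 0 (by norm_num)
  · intro h
    refine ⟨hb, fun m hm => ?_⟩
    rcases lt_or_ge m 0 with h1 | h1
    · exact val_le_one_iff.mp (val_pt P hb) m h1
    · have : m = 0 := by push_cast at hm; omega
      rw [this]; exact h

theorem idl_add (P : Pt k x ρ) {e : ℕ} {a b : K} (ha : idl P e a) (hb : idl P e b) :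
    idl P e (a + b) := by
  refine ⟨add_mem ha.1 hb.1, fun m hm => ?_⟩
  rw [map_add, HahnSeries.coeff_add, ha.2 m hm, hb.2 m hm, add_zero]

theorem idl_smul (P : Pt k x ρ) {e : ℕ} {a : K} (c : k) (ha : idl P e a) :
    idl P e (c • a) := by
  refine ⟨Subalgebra.smul_mem _ ha.1 c, fun m hm => ?_⟩
  rw [map_smul', ha.2 m hm, mul_zero]

theorem idl_mul (P : Pt k x ρ) {e : ℕ} {a b : K} (ha : idl P e a) (hb : b ∈ intRing k {x}) :
    idl P e (b * a) := by
  apply idl_of_val P (mul_mem hb ha.1)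
  rw [map_mul, map_mul]
  calc Valued.v (P.σ b) * Valued.v (P.σ a) ≤ 1 * exp (-(e : ℤ)) :=
        mul_le_mul' (val_pt P hb) (idl_val P ha)
    _ = _ := one_mul _

theorem x_mem : x ∈ intRing k ({x} : Set K) := subset_intRing rfl

theorem idl_x (P : Pt k x ρ) : idl P 1 x := by
  refine ⟨x_mem, fun m hm => ?_⟩
  rw [P.hx, HahnSeries.coeff_single_of_ne]
  push_cast at hm; omega

theorem u_mul_mem (P : Pt k x ρ) {b : K} (hb : idl P 1 b) : P.u * b ∈ intRing k {x} :=
  P.hu b hb.1 ((idl_one_iff P hb.1).mp hb)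

theorem u_mem (P : Pt k x ρ) (hx0 : x ≠ 0) : P.u ∈ intRing k {x, x⁻¹} := by
  have h1 : P.u * x ∈ intRing k {x, x⁻¹} :=
    intRing_mono (by intro a ha; left; exact ha) (u_mul_mem P (idl_x P))
  have h2 : x⁻¹ ∈ intRing k {x, x⁻¹} := subset_intRing (by right; rfl)
  have h3 : P.u = P.u * x * x⁻¹ := by field_simp
  rw [h3]
  exact mul_mem h1 h2

theorem mul_X (P : Pt k x ρ) (w : K) (n : ℤ) : (P.σ (x * w)).coeff (n + 1) = (P.σ w).coeff n := by
  rw [map_mul, P.hx, coeff_single_one_mul]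

/-- `u` has a simple pole -/
theorem val_u (P : Pt k x ρ) : Valued.v (P.σ P.u) = exp (1 : ℤ) := by
  have h1 := val_pt P (u_mul_mem P (idl_x P))
  have h2 : (P.σ (P.u * x)).coeff 0 ≠ 0 := by
    rw [mul_comm, show (0 : ℤ) = -1 + 1 by norm_num, mul_X]
    exact P.hu0
  have h3 := val_eq_one_of h1 h2
  rw [map_mul, P.hx, map_mul, val_single_one] at h3
  have h4 : exp (-1 : ℤ) * exp (1 : ℤ) = (1 : ℤᵐ⁰) := by rw [← exp_add]; simp
  calc Valued.v (P.σ P.u) = Valued.v (P.σ P.u) * (exp (-1 : ℤ) * exp (1 : ℤ)) := by rw [h4, mul_one]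
    _ = (Valued.v (P.σ P.u) * exp (-1 : ℤ)) * exp (1 : ℤ) := by rw [mul_assoc]
    _ = exp (1 : ℤ) := by rw [h3, one_mul]

theorem idl_two_iff (P : Pt k x ρ) {b : K} (hb : b ∈ intRing k {x}) :
    idl P 2 b ↔ (P.σ b).coeff 0 = 0 ∧ (P.σ b).coeff 1 = 0 := by
  constructor
  · intro h; exact ⟨h.2 0 (by norm_num), h.2 1 (by norm_num)⟩
  · rintro ⟨h0, h1⟩
    refine ⟨hb, fun m hm => ?_⟩
    push_cast at hm
    rcases lt_or_ge m 0 with h2 | h2
    · exact val_le_one_iff.mp (val_pt P hb) m h2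
    · have : m = 0 ∨ m = 1 := by omega
      rcases this with rfl | rfl
      · exact h0
      · exact h1

/-- `u ^ 3` times a product of two elements of order at least two is regular -/
theorem u3_mul (P : Pt k x ρ) {b c : K} (hb : idl P 2 b) (hc : idl P 2 c) :
    b * c * P.u ^ 3 ∈ intRing k {x} := by
  have hb1 : idl P 1 b := by
    rw [idl_one_iff P hb.1]; exact ((idl_two_iff P hb.1).mp hb).1
  have hc1 : idl P 1 c := by
    rw [idl_one_iff P hc.1]; exact ((idl_two_iff P hc.1).mp hc).1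
  have h1 : idl P 1 (P.u * b) := by
    apply idl_of_val P (u_mul_mem P hb1)
    rw [map_mul, map_mul, val_u]
    calc exp (1 : ℤ) * Valued.v (P.σ b) ≤ exp (1 : ℤ) * exp (-((2 : ℕ) : ℤ)) :=
          mul_le_mul_right (idl_val P hb) _
      _ = exp (-((1 : ℕ) : ℤ)) := by rw [← exp_add]; norm_num
  have h2 := u_mul_mem P h1
  have h3 := u_mul_mem P hc1
  have h4 : b * c * P.u ^ 3 = (P.u * (P.u * b)) * (P.u * c) := by ring
  rw [h4]
  exact mul_mem h2 h3

end pt

end Pool.Agent.Lib.MP_a82f45_ag
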