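import Pool.Agent.Lib.MP_a82f45_ag.Ext

set_option autoImplicit false
set_option linter.unusedSectionVars false
set_option linter.unusedSimpArgs false

namespace Pool.Agent.Lib.MP_a82f45_ag

universe u

open WithZero

section points

variable {k : Type u} [Field k] [CharP k 2] {K : Type u} [Field K] [Algebra k K] {x : K} {g : ℕ}
  {St : Stage k K x g} {e : ℕ} (B : Branch St e)

theorem two_laurent : (2 : LaurentSeries k) = 0 := two_eq_zero k (LaurentSeries k)

/-- extension of the embedding at `Q` -/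
noncomputable def ptHom (r : LaurentSeries k) (hr : r ^ 2 + r = St.Q.σ B.f1) :
    Ext B →ₐ[k] LaurentSeries k where
  toFun z := St.Q.σ z.re + St.Q.σ z.im * r
  map_one' := by
    change St.Q.σ 1 + St.Q.σ 0 * r = 1
    rw [map_one, map_zero, zero_mul, add_zero]
  map_mul' z w := by
    have h2 := two_laurent (k := k)
    rw [QuadraticAlgebra.re_mul, QuadraticAlgebra.im_mul, map_add, map_mul, map_mul, map_mul,
      map_add, map_add, map_mul, map_mul, map_mul, map_mul, map_one]
    linear_combination (-(St.Q.σ z.im * St.Q.σ w.im)) * hr + (St.Q.σ z.im * St.Q.σ w.im * r) * h2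
  map_zero' := by simp
  map_add' z w := by
    rw [QuadraticAlgebra.re_add, QuadraticAlgebra.im_add, map_add, map_add]
    ring
  commutes' c := by
    have : algebraMap k (Ext B) c = ⟨algebraMap k K c, 0⟩ := rfl
    rw [this]
    simp

theorem ptHom_apply (r : LaurentSeries k) (hr : r ^ 2 + r = St.Q.σ B.f1) (z : Ext B) :
    ptHom B r hr z = St.Q.σ z.re + St.Q.σ z.im * r := rfl

theorem ptHom_io (r : LaurentSeries k) (hr : r ^ 2 + r = St.Q.σ B.f1) (a : K) :
    ptHom B r hr (io B a) = St.Q.σ a := by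
  rw [ptHom_apply, io_re, io_im, map_zero, zero_mul, add_zero]

theorem root_shift (r0 : PowerSeries k) (h0 : (r0 : LaurentSeries k) ^ 2 + r0 = St.Q.σ B.f0) :
    ((r0 : LaurentSeries k) + St.Q.σ B.h) ^ 2 + ((r0 : LaurentSeries k) + St.Q.σ B.h) =
      St.Q.σ B.f1 := by
  have h2 := two_laurent (k := k)
  have h3 := congrArg St.Q.σ B.hfh
  rw [map_add, map_add, map_pow] at h3
  linear_combination h0 - h3 + (St.Q.σ B.f0 + (r0 : LaurentSeries k) * St.Q.σ B.h) * h2

theorem root_add_one (r0 : PowerSeries k) (h0 : (r0 : LaurentSeries k) ^ 2 + r0 = St.Q.σ B.f0) :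
    (((r0 + 1 : PowerSeries k) : LaurentSeries k)) ^ 2 + ((r0 + 1 : PowerSeries k) : LaurentSeries k)
      = St.Q.σ B.f0 := by
  have h2 := two_laurent (k := k)
  rw [PowerSeries.coe_add, PowerSeries.coe_one]
  linear_combination h0 + ((r0 : LaurentSeries k) + 1) * h2

/-- the embedding attached to a root -/
noncomputable def sg (r0 : PowerSeries k) (h0 : (r0 : LaurentSeries k) ^ 2 + r0 = St.Q.σ B.f0) :
    Ext B →ₐ[k] LaurentSeries k := ptHom B _ (root_shift B r0 h0)

theorem sg_apply (r0 : PowerSeries k) (h0 : (r0 : LaurentSeries k) ^ 2 + r0 = St.Q.σ B.f0)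
    (z : Ext B) : sg B r0 h0 z = St.Q.σ (z.re + z.im * B.h) + St.Q.σ z.im * r0 := by
  rw [sg, ptHom_apply, map_add, map_mul]
  ring

theorem sg_io (r0 : PowerSeries k) (h0 : (r0 : LaurentSeries k) ^ 2 + r0 = St.Q.σ B.f0)
    (a : K) : sg B r0 h0 (io B a) = St.Q.σ a := ptHom_io B _ _ a

theorem val_ps (r0 : PowerSeries k) : Valued.v (r0 : LaurentSeries k) ≤ (1 : ℤᵐ⁰) :=
  (LaurentSeries.val_le_one_iff_eq_coe k _).mpr ⟨r0, rfl⟩

theorem coeff_ps (r0 : PowerSeries k) : (r0 : LaurentSeries k).coeff 0 = PowerSeries.constantCoeff r0 := by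
  have := LaurentSeries.coeff_coe_powerSeries r0 0
  rw [PowerSeries.coeff_zero_eq_constantCoeff] at this
  exact_mod_cast this

/-- the embedding is regular on the first chart -/
theorem val_sg (r0 : PowerSeries k) (h0 : (r0 : LaurentSeries k) ^ 2 + r0 = St.Q.σ B.f0)
    {z : Ext B} (hz : z ∈ intRing k {io B x}) : Valued.v (sg B r0 h0 z) ≤ (1 : ℤᵐ⁰) := by
  rw [chart0] at hz
  rw [sg_apply]
  refine Valuation.map_add_le _ (val_pt _ hz.1) ?_
  rw [map_mul]
  exact mul_le_one' (val_pt _ hz.2.1) (val_ps r0)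

theorem coeff_sg (r0 : PowerSeries k) (h0 : (r0 : LaurentSeries k) ^ 2 + r0 = St.Q.σ B.f0)
    {z : Ext B} (hz : z ∈ intRing k {io B x}) : (sg B r0 h0 z).coeff 0 =
      (St.Q.σ (z.re + z.im * B.h)).coeff 0 + (St.Q.σ z.im).coeff 0 * PowerSeries.constantCoeff r0 := by
  rw [chart0] at hz
  rw [sg_apply, HahnSeries.coeff_add, coeff_zero_mul (val_pt _ hz.2.1) (val_ps r0), coeff_ps]

/-- an element of the ideal at `P` which does not vanish at `Q` -/
theorem exists_bstar (St : Stage k K x g) (e : ℕ) : ∃ b : K, idl St.P e b ∧ (St.Q.σ b).coeff 0 ≠ 0 := by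
  obtain ⟨s, hs, h0, h1⟩ := St.hPQ
  refine ⟨s ^ e, ?_, ?_⟩
  · apply idl_of_val St.P (pow_mem hs e)
    rw [map_pow, map_pow]
    have h2 : Valued.v (St.P.σ s) ≤ exp (-((1 : ℕ) : ℤ)) := idl_val St.P ((idl_one_iff St.P hs).mpr h0)
    calc Valued.v (St.P.σ s) ^ e ≤ exp (-((1 : ℕ) : ℤ)) ^ e := pow_le_pow_left' h2 e
      _ = exp (-(e : ℤ)) := by rw [← exp_nsmul]; simp
  · have : ∀ n : ℕ, (St.Q.σ (s ^ n)).coeff 0 = ((St.Q.σ s).coeff 0) ^ n := by
      intro n
      induction n with
      | zero => simp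
      | succ n ih =>
        rw [pow_succ, map_mul, coeff_zero_mul (val_pt _ (pow_mem hs n)) (val_pt _ hs), ih, pow_succ]
    rw [this]
    exact pow_ne_zero e h1

/-- auxiliary functions separating the two points above `Q` -/
noncomputable def sep (b : K) (c : k) : Ext B :=
  ⟨b * B.h + algebraMap k K ((St.Q.σ b).coeff 0 * c), b⟩

theorem sep_sum (b : K) (c : k) :
    (sep B b c).re + (sep B b c).im * B.h = algebraMap k K ((St.Q.σ b).coeff 0 * c) := by
  have h2 := two_eq_zero k K
  change b * B.h + algebraMap k K ((St.Q.σ b).coeff 0 * c) + b * B.h = _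
  linear_combination (b * B.h) * h2

theorem sep_mem {b : K} (hb : idl St.P e b) (c : k) : sep B b c ∈ intRing k {io B x} := by
  rw [chart0]
  refine ⟨?_, hb⟩
  rw [sep_sum]
  exact const_mem _ _

theorem coeff_sep (r0 : PowerSeries k) (h0 : (r0 : LaurentSeries k) ^ 2 + r0 = St.Q.σ B.f0)
    {b : K} (hb : idl St.P e b) (c : k) :
    (sg B r0 h0 (sep B b c)).coeff 0 = (St.Q.σ b).coeff 0 * (PowerSeries.constantCoeff r0 + c) := by
  rw [coeff_sg B r0 h0 (sep_mem B hb c), sep_sum, AlgHom.commutes, coeff_algMap, if_pos rfl]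
  change _ + (St.Q.σ b).coeff 0 * _ = _
  ring

/-- the new point -/
noncomputable def newPt (r0 : PowerSeries k) (h0 : (r0 : LaurentSeries k) ^ 2 + r0 = St.Q.σ B.f0)
    (b : K) (hb : idl St.P e b) (hb0 : (St.Q.σ b).coeff 0 ≠ 0) :
    Pt k (io B x) (rhoL B) where
  σ := sg B r0 h0
  hx := by rw [sg_io, St.Q.hx]
  u := io B St.Q.u * sep B b (PowerSeries.constantCoeff r0 + 1)
  hu := by
    have h2k : (2 : k) = 0 := two_eq_zero k k
    intro t ht ht0
    obtain ⟨w, hw⟩ : ∃ w, w = sep B b (PowerSeries.constantCoeff r0 + 1) * t := ⟨_, rfl⟩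
    have hwm : w ∈ intRing k {io B x} := hw ▸ mul_mem (sep_mem B hb _) ht
    have h1 : (sg B r0 h0 w).coeff 0 = 0 := by
      rw [hw, map_mul, coeff_zero_mul (val_sg B r0 h0 (sep_mem B hb _)) (val_sg B r0 h0 ht), ht0,
        mul_zero]
    have h2 : (sg B (r0 + 1) (root_add_one B r0 h0) w).coeff 0 = 0 := by
      rw [hw, map_mul, coeff_zero_mul (val_sg B _ _ (sep_mem B hb _)) (val_sg B _ _ ht),
        coeff_sep B _ _ hb, map_add, map_one]
      have : PowerSeries.constantCoeff r0 + 1 + (PowerSeries.constantCoeff r0 + 1) = 0 := by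
        linear_combination (PowerSeries.constantCoeff r0 + 1) * h2k
      rw [this, mul_zero, zero_mul]
    rw [coeff_sg B _ _ hwm] at h1 h2
    rw [map_add PowerSeries.constantCoeff, map_one PowerSeries.constantCoeff] at h2
    have h3 : (St.Q.σ w.im).coeff 0 = 0 := by linear_combination h2 - h1
    rw [h3, zero_mul, add_zero] at h1
    rw [mul_assoc, ← hw]
    rw [chart0] at hwm ⊢
    have e1 : (io B St.Q.u * w).re = St.Q.u * w.re := by simp [io_re, io_im]
    have e2 : (io B St.Q.u * w).im = St.Q.u * w.im := by simp [io_re, io_im]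
    rw [e1, e2]
    constructor
    · have : St.Q.u * w.re + St.Q.u * w.im * B.h = St.Q.u * (w.re + w.im * B.h) := by ring
      rw [this]
      exact St.Q.hu _ hwm.1 h1
    · apply idl_of_val _ (St.Q.hu _ hwm.2.1 h3)
      rw [map_mul, map_mul]
      calc Valued.v (St.P.σ St.Q.u) * Valued.v (St.P.σ w.im) ≤ 1 * exp (-(e : ℤ)) :=
            mul_le_mul' (val_other St.Q St.P (other_symm _ _ St.hPQ)) (idl_val _ hwm.2)
        _ = _ := one_mul _
  hu0 := by
    have h2k : (2 : k) = 0 := two_eq_zero k k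
    have h1 : (sg B r0 h0 (io B St.Q.u * sep B b (PowerSeries.constantCoeff r0 + 1))).coeff (-1) =
        (St.Q.σ St.Q.u).coeff (-1) * (St.Q.σ b).coeff 0 := by
      have h3 : Valued.v (St.Q.σ (x * St.Q.u)) ≤ (1 : ℤᵐ⁰) := by
        rw [mul_comm]; exact val_pt _ (u_mul_mem _ (idl_x _))
      have h4 : (sg B r0 h0 (sep B b (PowerSeries.constantCoeff r0 + 1))).coeff 0 = (St.Q.σ b).coeff 0 := by
        rw [coeff_sep B r0 h0 hb]
        linear_combination ((St.Q.σ b).coeff 0 * PowerSeries.constantCoeff r0) * h2k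
      have h5 := mul_X St.Q St.Q.u (-1)
      rw [show (-1 : ℤ) + 1 = 0 by norm_num] at h5
      rw [← coeff_single_one_mul, show (-1 : ℤ) + 1 = 0 by norm_num, map_mul, sg_io, ← mul_assoc,
        ← St.Q.hx, ← map_mul, coeff_zero_mul h3 (val_sg B r0 h0 (sep_mem B hb _)), h4, h5]
    rw [h1]
    exact mul_ne_zero St.Q.hu0 hb0
  hρ := by
    have h2k : (2 : k) = 0 := two_eq_zero k k
    intro w hw
    rw [rhoL_apply]
    have h1 : ∀ s ∈ intRing k {x}, (St.Q.σ s).coeff 0 = 0 → w.im * s ∈ intRing k {x} := by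
      intro s hs hs0
      have h3 := hw (io B s) (by
        rw [← im0]
        exact map_mem_intRing (io B) (s := {x}) (t := io B '' {x}) (fun a ha => ⟨a, ha, rfl⟩) hs) (by rw [sg_io]; exact hs0)
      rw [chart0] at h3
      have : (w * io B s).im = w.im * s := by simp [io_re, io_im]
      rw [this] at h3
      exact h3.2.1
    rw [St.Q.hρ _ h1]
    have h4 : Valued.v (sg B (r0 + 1) (root_add_one B r0 h0) w) ≤ (1 : ℤᵐ⁰) := by
      have h5 : (sg B r0 h0 (sep B b (PowerSeries.constantCoeff r0))).coeff 0 = 0 := by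
        rw [coeff_sep B r0 h0 hb]
        linear_combination ((St.Q.σ b).coeff 0 * PowerSeries.constantCoeff r0) * h2k
      have h6 : (sg B (r0 + 1) (root_add_one B r0 h0) (sep B b (PowerSeries.constantCoeff r0))).coeff 0 ≠ 0 := by
        rw [coeff_sep B _ _ hb, map_add, map_one]
        have : PowerSeries.constantCoeff r0 + 1 + PowerSeries.constantCoeff r0 = 1 := by
          linear_combination (PowerSeries.constantCoeff r0) * h2k
        rw [this, mul_one]; exact hb0
      have h7 := val_sg B (r0 + 1) (root_add_one B r0 h0) (hw _ (sep_mem B hb _) h5)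
      rw [map_mul, map_mul, val_eq_one_of (val_sg B _ _ (sep_mem B hb _)) h6, mul_one] at h7
      exact h7
    have h8 : St.Q.σ w.im = sg B r0 h0 w + sg B (r0 + 1) (root_add_one B r0 h0) w := by
      rw [sg_apply, sg_apply, PowerSeries.coe_add, PowerSeries.coe_one]
      linear_combination (-(St.Q.σ (w.re + w.im * B.h) + St.Q.σ w.im * (r0 : LaurentSeries k))) * two_laurent (k := k)
    rw [h8, HahnSeries.coeff_add, val_le_one_iff.mp h4 (-1) (by norm_num), add_zero]

theorem new_sep (r0 : PowerSeries k) (h0 : (r0 : LaurentSeries k) ^ 2 + r0 = St.Q.σ B.f0)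
    (b : K) (hb : idl St.P e b) (hb0 : (St.Q.σ b).coeff 0 ≠ 0) :
    ∃ s ∈ intRing k {io B x}, ((newPt B r0 h0 b hb hb0).σ s).coeff 0 = 0 ∧
      ((newPt B (r0 + 1) (root_add_one B r0 h0) b hb hb0).σ s).coeff 0 ≠ 0 := by
  have h2k : (2 : k) = 0 := two_eq_zero k k
  refine ⟨sep B b (PowerSeries.constantCoeff r0), sep_mem B hb _, ?_, ?_⟩
  · change (sg B r0 h0 _).coeff 0 = 0
    rw [coeff_sep B r0 h0 hb]
    linear_combination ((St.Q.σ b).coeff 0 * PowerSeries.constantCoeff r0) * h2k
  · change (sg B (r0 + 1) (root_add_one B r0 h0) _).coeff 0 ≠ 0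
    rw [coeff_sep B _ _ hb, map_add, map_one]
    have : PowerSeries.constantCoeff r0 + 1 + PowerSeries.constantCoeff r0 = 1 := by
      linear_combination (PowerSeries.constantCoeff r0) * h2k
    rw [this, mul_one]; exact hb0

end points

end Pool.Agent.Lib.MP_a82f45_ag
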