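import Pool.Agent.Lib.MP_a82f45_ag.Kern

set_option autoImplicit false
set_option linter.unusedSectionVars false
set_option linter.unusedSimpArgs false

namespace Pool.Agent.Lib.MP_a82f45_ag

universe u

open WithZero

section nil

variable {k : Type u} [Field k] [CharP k 2] {K : Type u} [Field K] [Algebra k K] {x : K} {g : ℕ}
  {St : Stage k K x g} {e : ℕ} (B : Branch St e)

theorem frob_pow_add {R : Type u} [Field R] (h2 : (2 : R) = 0) (a b : R) (n : ℕ) :
    (a + b) ^ (2 ^ n) = a ^ (2 ^ n) + b ^ (2 ^ n) := by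
  induction n with
  | zero => simp
  | succ n ih =>
    rw [pow_succ, pow_mul, pow_mul, pow_mul, ih, add_sq' h2]

theorem pow_mem_S {a : K} (ha : a ∈ Ssub k x) (n : ℕ) : a ^ (2 ^ n) ∈ Ssub k x := by
  induction n with
  | zero => simpa using ha
  | succ n ih => rw [pow_succ, pow_mul]; exact sq_mem_S ih

theorem pow_im (z : Ext B) (n : ℕ) : (z ^ (2 ^ n)).im = z.im ^ (2 ^ n) := by
  induction n with
  | zero => simp
  | succ n ih => rw [pow_succ, pow_mul, sq_im, ih, ← pow_mul]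

theorem nilL (he : e ≤ 2) (z : Ext B) (hz : z ∈ intRing k {io B x, (io B x)⁻¹}) :
    z ^ (2 ^ (2 * St.n + 1)) ∈ Ssub k (io B x) := by
  have h2 := two_eq_zero k K
  have h2L := two_eq_zero k (Ext B)
  have hz' := hz
  rw [chart01] at hz
  have h1 := St.nil _ hz.2
  rw [mem_S] at h1
  obtain ⟨s0, hs0, s1, hs1, hsum⟩ := h1
  obtain ⟨d0, d1, hd⟩ := exists_idl_two St.P hs0
  obtain ⟨p, hp⟩ : ∃ p, p = s0 + algebraMap k K d0 + algebraMap k K d1 * x := ⟨_, rfl⟩
  rw [← hp] at hd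
  obtain ⟨D0, hD0⟩ : ∃ D, D = algebraMap k K d0 := ⟨_, rfl⟩
  obtain ⟨D1, hD1⟩ : ∃ D, D = algebraMap k K d1 := ⟨_, rfl⟩
  have hD0m : ∀ s : Set K, D0 ∈ intRing k s := fun s => hD0 ▸ const_mem d0 s
  have hD1m : ∀ s : Set K, D1 ∈ intRing k s := fun s => hD1 ▸ const_mem d1 s
  obtain ⟨i0, hi0⟩ : ∃ i0, i0 = p ^ 2 + D1 ^ 2 * x ^ 2 := ⟨_, rfl⟩
  have hi0m : idl St.P e i0 := by
    apply idl_le (e := 2) (St := St) he
    rw [hi0]
    refine idl_add _ ?_ (idl_mul _ (x2_idl _) (pow_mem (hD1m _) 2))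
    rw [pow_two]
    exact idl_mul _ hd hd.1
  obtain ⟨w, hw⟩ : ∃ w, w = z ^ (2 ^ (St.n + 1)) := ⟨_, rfl⟩
  have hwim : w.im = i0 + (s1 ^ 2 + D0 ^ 2) := by
    have h3 : (s0 + s1) ^ 2 = w.im := by
      rw [hsum, hw, pow_im, ← pow_mul, ← pow_succ]
    rw [← h3, hi0, hp, hD0, hD1]
    linear_combination (s0 * s1 - s0 * algebraMap k K d0 - s0 * (algebraMap k K d1 * x)
      - algebraMap k K d0 * (algebraMap k K d1 * x) - (algebraMap k K d0) ^ 2
      - (algebraMap k K d1) ^ 2 * x ^ 2) * h2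
  have hs1m : s1 ^ 2 + D0 ^ 2 ∈ intRing k {x⁻¹} := add_mem (pow_mem hs1 2) (pow_mem (hD0m _) 2)
  have hred := reduce B hi0m hs1m hwim
  have hwV : w ∈ intRing k {io B x, (io B x)⁻¹} := hw ▸ pow_mem hz' _
  rw [chart01] at hwV
  have hVa : w.re + i0 * B.h ∈ intRing k {x, x⁻¹} :=
    add_mem hwV.1 (mul_mem (left_le hi0m.1) B.hh)
  have h4 := pow_mem_S hred St.n
  rw [frob_pow_add h2L, ← map_pow] at h4
  have h5 := (io_mem_SL B).mpr (St.nil _ hVa)
  have h6 := sub_mem h4 h5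
  rw [add_sub_cancel_right, hw, ← pow_mul, ← pow_add] at h6
  rw [show 2 * St.n + 1 = St.n + 1 + St.n by ring]
  exact h6

end nil

section rank

variable {k : Type u} [Field k] [CharP k 2] {K : Type u} [Field K] [Algebra k K] {x : K} {g : ℕ}
  {St : Stage k K x g} {e : ℕ} (B : Branch St e)

/-- the ideal of order `e` as a submodule -/
def idlSub {ρ : K →ₗ[k] k} (P : Pt k x ρ) (e : ℕ) : Submodule k K where
  carrier := {b | idl P e b}
  add_mem' := fun ha hb => idl_add P ha hb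
  zero_mem' := ⟨zero_mem _, fun m _ => by rw [map_zero]; rfl⟩
  smul_mem' := fun c _ ha => idl_smul P c ha

def Tsub {ρ : K →ₗ[k] k} (P : Pt k x ρ) (e : ℕ) : Submodule k K :=
  idlSub P e ⊔ Subalgebra.toSubmodule (intRing k {x⁻¹})

theorem mem_T {ρ : K →ₗ[k] k} (P : Pt k x ρ) {a : K} : a ∈ Tsub P e ↔
    ∃ b0, idl P e b0 ∧ ∃ b1 ∈ intRing k {x⁻¹}, b0 + b1 = a := by
  rw [Tsub, Submodule.mem_sup]
  rfl

/-- second coordinate modulo functions extending -/
noncomputable def piL : Vsub k (io B x) →ₗ[k]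
    (Vsub k x ⧸ (Tsub St.P e).submoduleOf (Vsub k x)) where
  toFun z := Submodule.Quotient.mk ⟨(z : Ext B).im, ((chart01 B).mp z.2).2⟩
  map_add' z w := by
    rw [← Submodule.Quotient.mk_add]; rfl
  map_smul' c z := by
    rw [RingHom.id_apply, ← Submodule.Quotient.mk_smul]; rfl

theorem piL_apply (z : Vsub k (io B x)) :
    piL B z = Submodule.Quotient.mk ⟨(z : Ext B).im, ((chart01 B).mp z.2).2⟩ := rfl

theorem piL_eq_zero (z : Vsub k (io B x)) : piL B z = 0 ↔ (z : Ext B).im ∈ Tsub St.P e := by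
  rw [piL_apply, Submodule.Quotient.mk_eq_zero]
  rfl

theorem S_le_ker : (Ssub k (io B x)).submoduleOf (Vsub k (io B x)) ≤ LinearMap.ker (piL B) := by
  intro z hz
  have hz' : (z : Ext B) ∈ Ssub k (io B x) := hz
  rw [LinearMap.mem_ker, piL_eq_zero, mem_T]
  rw [mem_SL] at hz'
  obtain ⟨b0, b1, h0, h1, him, -⟩ := hz'
  exact ⟨b0, h0, b1, h1, him.symm⟩

/-- the quotient map to the quotient line bundle -/
noncomputable def piQ : (Vsub k (io B x) ⧸ (Ssub k (io B x)).submoduleOf (Vsub k (io B x))) →ₗ[k]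
    (Vsub k x ⧸ (Tsub St.P e).submoduleOf (Vsub k x)) :=
  Submodule.liftQ _ (piL B) (S_le_ker B)

theorem piQ_surj : Function.Surjective (piQ B) := by
  intro y
  obtain ⟨b, rfl⟩ := Submodule.Quotient.mk_surjective _ y
  have hm : (⟨0, (b : K)⟩ : Ext B) ∈ intRing k {io B x, (io B x)⁻¹} := by
    rw [chart01]; exact ⟨zero_mem _, b.2⟩
  exact ⟨Submodule.Quotient.mk ⟨⟨0, (b : K)⟩, hm⟩, rfl⟩

/-- pull back of functions -/
noncomputable def jL : Vsub k x →ₗ[k]
    (Vsub k (io B x) ⧸ (Ssub k (io B x)).submoduleOf (Vsub k (io B x))) where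
  toFun a := Submodule.Quotient.mk ⟨io B a, (chart01 B).mpr ⟨a.2, zero_mem _⟩⟩
  map_add' a b := by
    rw [← Submodule.Quotient.mk_add]
    congr 1
    apply Subtype.ext
    exact map_add (io B) _ _
  map_smul' c a := by
    rw [RingHom.id_apply, ← Submodule.Quotient.mk_smul]
    congr 1
    apply Subtype.ext
    exact map_smul (io B) _ _

theorem ker_jL : LinearMap.ker (jL B) = (Ssub k x).submoduleOf (Vsub k x) := by
  ext a
  rw [LinearMap.mem_ker]
  change Submodule.Quotient.mk _ = 0 ↔ (a : K) ∈ Ssub k x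
  rw [Submodule.Quotient.mk_eq_zero]
  change io B (a : K) ∈ Ssub k (io B x) ↔ _
  exact io_mem_SL B

theorem range_jL : LinearMap.range (jL B) = LinearMap.ker (piQ B) := by
  have h2 := two_eq_zero k K
  have h2L := two_eq_zero k (Ext B)
  ext y
  constructor
  · rintro ⟨a, rfl⟩
    rw [LinearMap.mem_ker]
    change piL B ⟨io B a, _⟩ = 0
    rw [piL_eq_zero]
    change (io B (a : K)).im ∈ _
    rw [io_im]
    exact zero_mem _
  · intro hy
    obtain ⟨z, rfl⟩ := Submodule.Quotient.mk_surjective _ y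
    rw [LinearMap.mem_ker] at hy
    change piL B z = 0 at hy
    rw [piL_eq_zero, mem_T] at hy
    obtain ⟨b0, h0, b1, h1, hsum⟩ := hy
    have hred := reduce B h0 h1 hsum.symm
    have hz := (chart01 B).mp z.2
    have hmem : (z : Ext B).re + b0 * B.h ∈ intRing k {x, x⁻¹} :=
      add_mem hz.1 (mul_mem (left_le h0.1) B.hh)
    refine ⟨⟨(z : Ext B).re + b0 * B.h, hmem⟩, ?_⟩
    change Submodule.Quotient.mk _ = Submodule.Quotient.mk _
    rw [Submodule.Quotient.eq]
    change io B ((z : Ext B).re + b0 * B.h) - (z : Ext B) ∈ Ssub k (io B x)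
    have : io B ((z : Ext B).re + b0 * B.h) - (z : Ext B) =
        (z : Ext B) + io B ((z : Ext B).re + b0 * B.h) := by
      linear_combination (-(z : Ext B)) * h2L
    rw [this]
    exact hred

theorem rankL : Module.rank k (Vsub k (io B x) ⧸ (Ssub k (io B x)).submoduleOf (Vsub k (io B x))) =
    Module.rank k (Vsub k x ⧸ (Tsub St.P e).submoduleOf (Vsub k x)) +
    Module.rank k (Vsub k x ⧸ (Ssub k x).submoduleOf (Vsub k x)) := by
  rw [← LinearMap.rank_range_add_rank_ker (piQ B), ← range_jL]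
  congr 1
  · rw [LinearMap.range_eq_top.mpr (piQ_surj B), rank_top]
  · rw [← (LinearMap.quotKerEquivRange (jL B)).rank_eq]
    exact (Submodule.quotEquivOfEq _ _ (ker_jL B)).rank_eq

theorem T_one_eq {ρ : K →ₗ[k] k} (P : Pt k x ρ) : Tsub P 1 = Ssub k x := by
  apply le_antisymm
  · intro a ha
    rw [mem_T] at ha
    obtain ⟨b0, h0, b1, h1, rfl⟩ := ha
    exact add_mem (S_of_left h0.1) (S_of_right h1)
  · intro a ha
    rw [mem_S] at ha
    obtain ⟨b, hb, c, hc, rfl⟩ := ha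
    obtain ⟨d, hd⟩ := exists_idl_one P hb
    rw [mem_T]
    refine ⟨_, hd, c + algebraMap k K d, add_mem hc (const_mem _ _), ?_⟩
    linear_combination (algebraMap k K d) * two_eq_zero k K

theorem rank_T_one (St : Stage k K x g) :
    Module.rank k (Vsub k x ⧸ (Tsub St.P 1).submoduleOf (Vsub k x)) = g := by
  rw [T_one_eq, St.rk]

theorem T_two_le {ρ : K →ₗ[k] k} (P : Pt k x ρ) : Tsub P 2 ≤ Ssub k x := by
  intro a ha
  rw [mem_T] at ha
  obtain ⟨b0, h0, b1, h1, rfl⟩ := ha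
  exact add_mem (S_of_left h0.1) (S_of_right h1)

theorem rank_T_two (St : Stage k K x g) :
    Module.rank k (Vsub k x ⧸ (Tsub St.P 2).submoduleOf (Vsub k x)) = (g + 1 : ℕ) := by
  have hle : (Tsub St.P 2).submoduleOf (Vsub k x) ≤ (Ssub k x).submoduleOf (Vsub k x) := by
    intro a ha
    exact T_two_le _ ha
  let φ : (Vsub k x ⧸ (Tsub St.P 2).submoduleOf (Vsub k x)) →ₗ[k]
      (Vsub k x ⧸ (Ssub k x).submoduleOf (Vsub k x)) := Submodule.factor hle
  have hsurj : Function.Surjective φ := Submodule.factor_surjective hle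
  have hxV : x ∈ Vsub k x := left_le x_mem
  obtain ⟨v, hv⟩ : ∃ v : (Vsub k x ⧸ (Tsub St.P 2).submoduleOf (Vsub k x)),
    v = Submodule.Quotient.mk ⟨x, hxV⟩ := ⟨_, rfl⟩
  have hv0 : v ≠ 0 := by
    rw [hv]
    intro h
    rw [Submodule.Quotient.mk_eq_zero] at h
    have h' : x ∈ Tsub St.P 2 := h
    rw [mem_T] at h'
    obtain ⟨b0, h0, b1, h1, hsum⟩ := h'
    have h3 : x - b0 ∈ intRing k {x⁻¹} := by
      have : x - b0 = b1 := by linear_combination -hsum
      rw [this]; exact h1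
    obtain ⟨c, hc⟩ := St.inter (x - b0) (sub_mem x_mem h0.1) h3
    have h4 := congrArg (fun t => (St.P.σ t).coeff 1) hc
    simp only [map_sub, HahnSeries.coeff_sub, AlgHom.commutes, coeff_algMap, one_ne_zero,
      if_false] at h4
    rw [h0.2 1 (by norm_num), St.P.hx, HahnSeries.coeff_single_same, sub_zero] at h4
    exact one_ne_zero h4
  have hker : LinearMap.ker φ = Submodule.span k {v} := by
    apply le_antisymm
    · intro y hy
      obtain ⟨a, rfl⟩ := Submodule.Quotient.mk_surjective _ y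
      rw [LinearMap.mem_ker] at hy
      have hy' : (Submodule.Quotient.mk a : Vsub k x ⧸ (Ssub k x).submoduleOf (Vsub k x)) = 0 := hy
      rw [Submodule.Quotient.mk_eq_zero] at hy'
      have h' : (a : K) ∈ Ssub k x := hy'
      rw [mem_S] at h'
      obtain ⟨b, hb, c, hc, hsum⟩ := h'
      obtain ⟨d0, d1, hd⟩ := exists_idl_two St.P hb
      rw [Submodule.mem_span_singleton]
      refine ⟨d1, ?_⟩
      rw [hv, ← Submodule.Quotient.mk_smul, Submodule.Quotient.eq]
      change d1 • x - (a : K) ∈ Tsub St.P 2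
      rw [mem_T]
      refine ⟨_, hd, c + algebraMap k K d0, add_mem hc (const_mem _ _), ?_⟩
      rw [smul_algMap]
      linear_combination hsum + ((a : K) + algebraMap k K d0) * two_eq_zero k K
    · rw [Submodule.span_singleton_le_iff_mem, LinearMap.mem_ker, hv]
      change (Submodule.Quotient.mk ⟨x, hxV⟩ : Vsub k x ⧸ (Ssub k x).submoduleOf (Vsub k x)) = 0
      rw [Submodule.Quotient.mk_eq_zero]
      exact S_of_left x_mem
  rw [← LinearMap.rank_range_add_rank_ker φ, LinearMap.range_eq_top.mpr hsurj, rank_top, hker,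
    St.rk, ← (LinearEquiv.toSpanNonzeroSingleton k _ v hv0).rank_eq, Module.rank_self]
  push_cast
  rfl

end rank

end Pool.Agent.Lib.MP_a82f45_ag
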