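import Pool.Agent.Lib.MP_a82f45_ag.Next

set_option autoImplicit false
set_option linter.unusedSectionVars false
set_option linter.unusedSimpArgs false

namespace Pool.Agent.Lib.MP_a82f45_ag

universe u

open WithZero

section gen

variable {k : Type u} [Field k] {K : Type u} [Field K] [Algebra k K] {x : K}

theorem adjoin_clear (x0 : x ≠ 0) {c : K} (hc : c ∈ Algebra.adjoin k {x, x⁻¹}) :
    ∃ n : ℕ, ∀ m ≥ n, x ^ m * c ∈ Algebra.adjoin k {x} := by
  have hx : x ∈ Algebra.adjoin k {x} := Algebra.subset_adjoin rfl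
  induction hc using Algebra.adjoin_induction with
  | mem y hy =>
    rcases hy with rfl | rfl
    · exact ⟨0, fun m _ => mul_mem (pow_mem hx m) hx⟩
    · refine ⟨1, fun m hm => ?_⟩
      obtain ⟨j, rfl⟩ : ∃ j, m = j + 1 := ⟨m - 1, by omega⟩
      have : x ^ (j + 1) * x⁻¹ = x ^ j := by rw [pow_succ, mul_assoc, mul_inv_cancel₀ x0, mul_one]
      rw [this]; exact pow_mem hx j
  | algebraMap r => exact ⟨0, fun m _ => mul_mem (pow_mem hx m) (Subalgebra.algebraMap_mem _ r)⟩
  | add a b _ _ ha hb =>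
    obtain ⟨n1, h1⟩ := ha
    obtain ⟨n2, h2⟩ := hb
    refine ⟨n1 + n2, fun m hm => ?_⟩
    rw [mul_add]
    exact add_mem (h1 m (by omega)) (h2 m (by omega))
  | mul a b _ _ ha hb =>
    obtain ⟨n1, h1⟩ := ha
    obtain ⟨n2, h2⟩ := hb
    refine ⟨n1 + n2, fun m hm => ?_⟩
    obtain ⟨j, rfl⟩ : ∃ j, m = n1 + j := ⟨m - n1, by omega⟩
    have : x ^ (n1 + j) * (a * b) = (x ^ n1 * a) * (x ^ j * b) := by ring
    rw [this]
    exact mul_mem (h1 n1 le_rfl) (h2 j (by omega))

theorem clear_mem (x0 : x ≠ 0) {a : K} (ha : a ∈ intRing k {x, x⁻¹}) :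
    ∃ n : ℕ, x ^ n * a ∈ intRing k {x} := by
  classical
  rw [mem_intRing] at ha
  obtain ⟨p, hp, hp0⟩ := ha
  choose f hf using fun i : ℕ => adjoin_clear x0 (p.coeff i).2
  obtain ⟨N, hN⟩ : ∃ N, ∀ i ∈ Finset.range p.natDegree, f i ≤ N :=
    ⟨(Finset.range p.natDegree).sup f, fun i hi => Finset.le_sup hi⟩
  refine ⟨N, isIntegral_intRing ?_⟩
  have hmem : ∀ i, i < p.natDegree → (x ^ (N * (p.natDegree - i)) * ((p.coeff i : Algebra.adjoin k {x, x⁻¹}) : K)) ∈ intRing k {x} := by
    intro i hi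
    have h1 := hf i (N * (p.natDegree - i)) (by
      have := hN i (Finset.mem_range.mpr hi)
      calc f i ≤ N * 1 := by omega
        _ ≤ _ := Nat.mul_le_mul_left N (by omega))
    rw [mem_intRing]
    exact isIntegral_algebraMap (R := Algebra.adjoin k {x}) (A := K) (x := ⟨_, h1⟩)
  let q : Polynomial (intRing k {x}) := Polynomial.X ^ p.natDegree +
    ∑ i : Fin p.natDegree, Polynomial.C ⟨_, hmem i i.2⟩ * Polynomial.X ^ (i : ℕ)
  refine ⟨q, ?_, ?_⟩
  · apply Polynomial.monic_X_pow_add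
    refine lt_of_le_of_lt (Polynomial.degree_sum_le _ _) ?_
    rw [Finset.sup_lt_iff (WithBot.bot_lt_coe _)]
    intro i _
    refine lt_of_le_of_lt (Polynomial.degree_C_mul_X_pow_le _ _) ?_
    exact_mod_cast i.2
  · rw [Polynomial.eval₂_add, Polynomial.eval₂_finsetSum, Polynomial.eval₂_pow, Polynomial.eval₂_X]
    simp only [Polynomial.eval₂_mul, Polynomial.eval₂_C, Polynomial.eval₂_pow, Polynomial.eval₂_X]
    rw [Polynomial.eval₂_eq_sum_range, Finset.sum_range_succ] at hp0
    have hlead : (algebraMap (Algebra.adjoin k {x, x⁻¹}) K) (p.coeff p.natDegree) = 1 := by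
      have : p.coeff p.natDegree = 1 := hp
      rw [this, map_one]
    rw [hlead, one_mul] at hp0
    have h3 := congrArg (fun z => (x ^ N) ^ p.natDegree * z) hp0
    simp only [mul_zero, mul_add] at h3
    rw [← h3, mul_pow, add_comm, Finset.mul_sum, ← Fin.sum_univ_eq_sum_range
      (fun i => (x ^ N) ^ p.natDegree * ((algebraMap (Algebra.adjoin k {x, x⁻¹}) K) (p.coeff i) * a ^ i))]
    congr 1
    apply Finset.sum_congr rfl
    intro i _
    change x ^ (N * (p.natDegree - i)) * ((p.coeff i : Algebra.adjoin k {x, x⁻¹}) : K) * (x ^ N * a) ^ (i : ℕ) =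
      (x ^ N) ^ p.natDegree * (((p.coeff i : Algebra.adjoin k {x, x⁻¹}) : K) * a ^ (i : ℕ))
    have h4 : (x ^ N) ^ p.natDegree = x ^ (N * (p.natDegree - i)) * (x ^ N) ^ (i : ℕ) := by
      rw [← pow_mul, ← pow_mul, ← pow_add, ← Nat.mul_add]
      congr 2
      have := i.2
      omega
    rw [h4, mul_pow]
    ring

end gen

section rat

open Polynomial

variable (k : Type u) [Field k]

/-- the coordinate -/
noncomputable abbrev tt : RatFunc k := RatFunc.X

theorem tt0 : tt k ≠ 0 := RatFunc.X_ne_zero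

theorem aeval_single (p : k[X]) : aeval (HahnSeries.single (1 : ℤ) (1 : k) : LaurentSeries k) p =
    ((p : PowerSeries k) : LaurentSeries k) := by
  induction p using Polynomial.induction_on' with
  | add p q hp hq => rw [map_add, hp, hq, Polynomial.coe_add, PowerSeries.coe_add]
  | monomial n c =>
    rw [← C_mul_X_pow_eq_monomial, map_mul, map_pow, aeval_X, aeval_C, Polynomial.coe_mul,
      Polynomial.coe_pow, Polynomial.coe_X, Polynomial.coe_C, PowerSeries.coe_mul, PowerSeries.coe_pow,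
      PowerSeries.coe_X, PowerSeries.coe_C, algMap_laurent]

theorem aeval_single_ne {p : k[X]} (hp : p ≠ 0) :
    aeval (HahnSeries.single (1 : ℤ) (1 : k) : LaurentSeries k) p ≠ 0 := by
  rw [aeval_single]
  intro h
  apply hp
  have h2 : (p : PowerSeries k) = 0 := by
    apply HahnSeries.ofPowerSeries_injective (Γ := ℤ)
    rw [map_zero]; exact h
  exact_mod_cast h2

/-- Laurent expansion at zero -/
noncomputable def lau : RatFunc k →ₐ[k] LaurentSeries k :=
  RatFunc.liftAlgHom (aeval (HahnSeries.single (1 : ℤ) (1 : k) : LaurentSeries k)) (by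
    intro p hp
    rw [Submonoid.mem_comap]
    apply mem_nonZeroDivisors_of_ne_zero
    exact aeval_single_ne k (nonZeroDivisors.ne_zero hp))

variable {k}

theorem lau_poly (p : k[X]) : lau k (algebraMap k[X] (RatFunc k) p) = ((p : PowerSeries k) : LaurentSeries k) := by
  rw [← aeval_single, lau, RatFunc.liftAlgHom_apply]
  simp

theorem lau_X : lau k (tt k) = HahnSeries.single 1 1 := by
  rw [tt, ← RatFunc.algebraMap_X, lau_poly, Polynomial.coe_X, PowerSeries.coe_X]

theorem algMap_C (c : k) : algebraMap k[X] (RatFunc k) (C c) = algebraMap k (RatFunc k) c := by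
  rw [IsScalarTower.algebraMap_apply k k[X] (RatFunc k)]; rfl

theorem t_mem : tt k ∈ intRing k {tt k} := subset_intRing (Set.mem_singleton _)

theorem tinv_mem : (tt k)⁻¹ ∈ intRing k {(tt k)⁻¹} := subset_intRing (Set.mem_singleton _)

theorem c_mem (c : k) (s : Set (RatFunc k)) : algebraMap k (RatFunc k) c ∈ intRing k s :=
  Subalgebra.algebraMap_mem (intRing k s) c

theorem mem_A0 {a : RatFunc k} : a ∈ intRing k {tt k} ↔ ∃ p : k[X], algebraMap k[X] (RatFunc k) p = a := by
  constructor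
  · intro ha
    rw [mem_intRing] at ha
    apply IsIntegrallyClosed.algebraMap_eq_of_integral
    obtain ⟨p, hp, hp0⟩ := ha
    let ψ : Algebra.adjoin k {tt k} →ₐ[k] RatFunc k := (Algebra.adjoin k {tt k}).val
    have hle : ∀ b ∈ Algebra.adjoin k {tt k}, ∃ p : k[X], algebraMap k[X] (RatFunc k) p = b := by
      intro b hb
      induction hb using Algebra.adjoin_induction with
      | mem y hy => rw [Set.mem_singleton_iff] at hy; subst hy; exact ⟨X, RatFunc.algebraMap_X⟩
      | algebraMap r => exact ⟨C r, algMap_C r⟩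
      | add a b _ _ ha hb =>
        obtain ⟨p, rfl⟩ := ha
        obtain ⟨q, rfl⟩ := hb
        exact ⟨p + q, map_add _ _ _⟩
      | mul a b _ _ ha hb =>
        obtain ⟨p, rfl⟩ := ha
        obtain ⟨q, rfl⟩ := hb
        exact ⟨p * q, map_mul _ _ _⟩
    have hlift : p.map (algebraMap (Algebra.adjoin k {tt k}) (RatFunc k)) ∈
        Polynomial.lifts (algebraMap k[X] (RatFunc k)) := by
      rw [Polynomial.lifts_iff_coeff_lifts]
      intro n
      rw [Polynomial.coeff_map]
      obtain ⟨q, hq⟩ := hle _ (p.coeff n).2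
      exact ⟨q, hq⟩
    obtain ⟨q, hq, -, hqm⟩ := Polynomial.lifts_and_degree_eq_and_monic hlift (hp.map _)
    refine ⟨q, hqm, ?_⟩
    rw [← Polynomial.eval_map, hq, Polynomial.eval_map]
    exact hp0
  · rintro ⟨p, rfl⟩
    induction p using Polynomial.induction_on' with
    | add p q hp hq => rw [map_add]; exact add_mem hp hq
    | monomial n c =>
      rw [← C_mul_X_pow_eq_monomial, map_mul, map_pow, RatFunc.algebraMap_X, algMap_C]
      exact mul_mem (c_mem c _) (pow_mem t_mem n)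

theorem coeff_lau_poly_neg (p : k[X]) {n : ℤ} (hn : n < 0) :
    (lau k (algebraMap k[X] (RatFunc k) p)).coeff n = 0 := by
  rw [lau_poly]
  exact val_le_one_iff.mp ((LaurentSeries.val_le_one_iff_eq_coe k _).mpr ⟨_, rfl⟩) n hn

theorem coeff_lau_poly (p : k[X]) (n : ℕ) :
    (lau k (algebraMap k[X] (RatFunc k) p)).coeff n = p.coeff n := by
  rw [lau_poly]
  have := LaurentSeries.coeff_coe_powerSeries (p : PowerSeries k) n
  rw [Polynomial.coeff_coe] at this
  exact this

theorem lau_shift (w : RatFunc k) (n : ℕ) (m : ℤ) :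
    (lau k ((tt k) ^ n * w)).coeff (m + n) = (lau k w).coeff m := by
  induction n generalizing m with
  | zero => simp
  | succ n ih =>
    have h1 : (tt k) ^ (n + 1) * w = tt k * ((tt k) ^ n * w) := by ring
    rw [h1, map_mul, lau_X, show m + ((n + 1 : ℕ) : ℤ) = (m + n) + 1 by push_cast; ring,
      coeff_single_one_mul, ih]

/-- elements of the overlap -/
theorem mem_A01 {a : RatFunc k} (ha : a ∈ intRing k {tt k, (tt k)⁻¹}) :
    ∃ (n : ℕ) (p : k[X]), (tt k) ^ n * a = algebraMap k[X] (RatFunc k) p := by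
  obtain ⟨n, hn⟩ := clear_mem (tt0 k) ha
  obtain ⟨p, hp⟩ := mem_A0.mp hn
  exact ⟨n, p, hp.symm⟩

open Classical in
/-- valuation at infinity -/
noncomputable def vv (k : Type u) [Field k] : Valuation (RatFunc k) ℤᵐ⁰ := RatFunc.inftyValuation k

theorem vv_X : vv k (tt k) = exp 1 := by
  classical
  rw [vv]
  convert RatFunc.inftyValuation.X k

theorem vv_poly {p : k[X]} (hp : p ≠ 0) : vv k (algebraMap k[X] (RatFunc k) p) = exp (p.natDegree : ℤ) := by
  classical
  rw [vv, RatFunc.inftyValuation_apply]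
  convert RatFunc.inftyValuation.polynomial k hp

theorem vv_const (c : k) : vv k (algebraMap k (RatFunc k) c) ≤ 1 := by
  rw [← algMap_C]
  by_cases hc : c = 0
  · rw [hc, C_0, map_zero, map_zero]; exact zero_le
  · rw [vv_poly (C_ne_zero.mpr hc), natDegree_C]; simp

theorem vv_A1 {a : RatFunc k} (ha : a ∈ intRing k {(tt k)⁻¹}) : vv k a ≤ 1 := by
  refine val_le_one (vv k) ?_ vv_const ha
  intro b hb
  rw [Set.mem_singleton_iff] at hb
  rw [hb, map_inv₀, vv_X, ← exp_neg, ← exp_zero, exp_le_exp]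
  norm_num

theorem mul_vv {a : RatFunc k} (n : ℕ) : vv k ((tt k) ^ n * a) = exp (n : ℤ) * vv k a := by
  rw [map_mul, map_pow, vv_X, ← exp_nsmul]; simp

theorem eq_of_mul {a : RatFunc k} {n : ℕ} {p : k[X]} (h : (tt k) ^ n * a = algebraMap k[X] (RatFunc k) p) :
    a = ((tt k)⁻¹) ^ n * algebraMap k[X] (RatFunc k) p := by
  rw [← h, ← mul_assoc, ← mul_pow, inv_mul_cancel₀ (tt0 k), one_pow, one_mul]

/-- degree bound from the valuation at infinity -/
theorem natDegree_le {a : RatFunc k} {n : ℕ} {p : k[X]} (h : (tt k) ^ n * a = algebraMap k[X] (RatFunc k) p)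
    {e : ℕ} (hv : vv k a ≤ exp (-(e : ℤ))) (hp : p ≠ 0) : p.natDegree + e ≤ n := by
  have h1 := congrArg (vv k) h
  rw [mul_vv, vv_poly hp] at h1
  have h2 : exp (p.natDegree : ℤ) ≤ exp (n : ℤ) * exp (-(e : ℤ)) := by
    rw [← h1]
    exact mul_le_mul_right hv _
  rw [← exp_add, exp_le_exp] at h2
  omega

theorem mem_A1_of {a : RatFunc k} (ha : a ∈ intRing k {tt k, (tt k)⁻¹}) (hv : vv k a ≤ 1) :
    a ∈ intRing k {(tt k)⁻¹} := by
  obtain ⟨n, p, h⟩ := mem_A01 ha
  by_cases hp : p = 0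
  · rw [eq_of_mul h, hp, map_zero, mul_zero]; exact zero_mem _
  have hd := natDegree_le h (e := 0) (by simpa using hv) hp
  rw [eq_of_mul h, Polynomial.as_sum_range' p (n + 1) (by omega), map_sum, Finset.mul_sum]
  apply sum_mem
  intro i hi
  rw [Finset.mem_range] at hi
  rw [← C_mul_X_pow_eq_monomial, map_mul, map_pow, RatFunc.algebraMap_X, algMap_C]
  obtain ⟨j, rfl⟩ : ∃ j, n = j + i := ⟨n - i, by omega⟩
  have : ((tt k)⁻¹) ^ (j + i) * (algebraMap k (RatFunc k) (p.coeff i) * (tt k) ^ i) =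
      algebraMap k (RatFunc k) (p.coeff i) * ((tt k)⁻¹) ^ j := by
    rw [pow_add]
    have h3 : ((tt k)⁻¹) ^ i * (tt k) ^ i = 1 := by rw [← mul_pow, inv_mul_cancel₀ (tt0 k), one_pow]
    linear_combination (((tt k)⁻¹) ^ j * algebraMap k (RatFunc k) (p.coeff i)) * h3
  rw [this]
  exact mul_mem (c_mem _ _) (pow_mem tinv_mem j)

/-- the residue coefficient vanishes on functions with a double zero at infinity -/
theorem coeff_of_vv {a : RatFunc k} (ha : a ∈ intRing k {tt k, (tt k)⁻¹}) (hv : vv k a ≤ exp (-2 : ℤ)) :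
    (lau k a).coeff (-1) = 0 := by
  obtain ⟨n, p, h⟩ := mem_A01 ha
  rw [← lau_shift a n (-1), h]
  by_cases hp : p = 0
  · rw [hp, map_zero, map_zero]; rfl
  have hd := natDegree_le h (e := 2) (by simpa using hv) hp
  obtain ⟨m, rfl⟩ : ∃ m, n = m + 2 := ⟨n - 2, by omega⟩
  rw [show (-1 : ℤ) + ((m + 2 : ℕ) : ℤ) = ((m + 1 : ℕ) : ℤ) by push_cast; ring, coeff_lau_poly]
  exact Polynomial.coeff_eq_zero_of_natDegree_lt (by omega)

theorem inter_zero {a : RatFunc k} (ha : a ∈ intRing k {tt k}) (hv : vv k a ≤ exp (-2 : ℤ)) : a = 0 := by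
  obtain ⟨p, rfl⟩ := mem_A0.mp ha
  by_cases hp : p = 0
  · rw [hp, map_zero]
  rw [vv_poly hp, exp_le_exp] at hv
  omega

theorem inter_const {a : RatFunc k} (ha : a ∈ intRing k {tt k}) (hv : vv k a ≤ 1) :
    ∃ c : k, a = algebraMap k (RatFunc k) c := by
  obtain ⟨p, rfl⟩ := mem_A0.mp ha
  by_cases hp : p = 0
  · exact ⟨0, by rw [hp, map_zero, map_zero]⟩
  rw [vv_poly hp, ← exp_zero, exp_le_exp] at hv
  refine ⟨p.coeff 0, ?_⟩
  rw [← algMap_C, ← Polynomial.eq_C_of_natDegree_eq_zero (by omega)]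

/-- decomposition of functions on the overlap -/
theorem decomp {a : RatFunc k} (ha : a ∈ intRing k {tt k, (tt k)⁻¹}) :
    ∃ q ∈ intRing k {tt k}, ∃ c : k, ∃ w ∈ intRing k {(tt k)⁻¹}, vv k w ≤ exp (-2 : ℤ) ∧
      a = q + c • (tt k)⁻¹ + w := by
  obtain ⟨n, p, h⟩ := mem_A01 ha
  rw [eq_of_mul h]
  clear h ha
  induction p using Polynomial.induction_on' with
  | add p q hp hq =>
    obtain ⟨q1, h1, c1, w1, h2, h3, h4⟩ := hp
    obtain ⟨q2, h5, c2, w2, h6, h7, h8⟩ := hq
    refine ⟨q1 + q2, add_mem h1 h5, c1 + c2, w1 + w2, add_mem h2 h6, (vv k).map_add_le h3 h7, ?_⟩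
    rw [map_add, mul_add, h4, h8, add_smul]
    ring
  | monomial i c =>
    rw [← C_mul_X_pow_eq_monomial, map_mul, map_pow, RatFunc.algebraMap_X, algMap_C]
    have hinv : ∀ i : ℕ, ((tt k)⁻¹) ^ i * (tt k) ^ i = 1 := by
      intro i; rw [← mul_pow, inv_mul_cancel₀ (tt0 k), one_pow]
    rcases le_or_gt n i with hi | hi
    · obtain ⟨j, rfl⟩ : ∃ j, i = n + j := ⟨i - n, by omega⟩
      refine ⟨algebraMap k (RatFunc k) c * (tt k) ^ j,
        mul_mem (c_mem _ _) (pow_mem t_mem j), 0, 0, zero_mem _,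
        by rw [map_zero]; exact zero_le, ?_⟩
      rw [zero_smul, add_zero, add_zero, pow_add]
      linear_combination (algebraMap k (RatFunc k) c * (tt k) ^ j) * hinv n
    · obtain ⟨j, rfl⟩ : ∃ j, n = j + 1 + i := ⟨n - i - 1, by omega⟩
      have e1 : ((tt k)⁻¹) ^ (j + 1 + i) * (algebraMap k (RatFunc k) c * (tt k) ^ i) =
          algebraMap k (RatFunc k) c * ((tt k)⁻¹) ^ (j + 1) := by
        rw [pow_add]
        linear_combination (((tt k)⁻¹) ^ (j + 1) * algebraMap k (RatFunc k) c) * hinv i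
      rw [e1]
      cases j with
      | zero =>
        refine ⟨0, zero_mem _, c, 0, zero_mem _, by rw [map_zero]; exact zero_le, ?_⟩
        rw [Algebra.smul_def]
        ring
      | succ j =>
        refine ⟨0, zero_mem _, 0, algebraMap k (RatFunc k) c * ((tt k)⁻¹) ^ (j + 1 + 1),
          mul_mem (c_mem _ _) (pow_mem tinv_mem _), ?_, by rw [zero_smul]; ring⟩
        rw [map_mul, map_pow, map_inv₀, vv_X, ← exp_neg, ← exp_nsmul]
        calc vv k (algebraMap k (RatFunc k) c) * exp ((j + 1 + 1) • (-1 : ℤ))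
            ≤ 1 * exp ((j + 1 + 1) • (-1 : ℤ)) := mul_le_mul_left (vv_const c) _
          _ ≤ exp (-2 : ℤ) := by
            rw [one_mul, exp_le_exp]
            simp only [nsmul_eq_mul]
            push_cast
            omega

theorem A1_le {a : RatFunc k} (ha : a ∈ intRing k {(tt k)⁻¹}) : a ∈ intRing k {tt k, (tt k)⁻¹} :=
  intRing_mono (by intro a ha; right; exact ha) ha

theorem A0_le {a : RatFunc k} (ha : a ∈ intRing k {tt k}) : a ∈ intRing k {tt k, (tt k)⁻¹} :=
  intRing_mono (by intro a ha; left; exact ha) ha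

end rat

end Pool.Agent.Lib.MP_a82f45_ag
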