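import Pool.Agent.Lib.MP_a82f45_ag.Gpoly

set_option autoImplicit false

namespace Pool.Agent.Lib.MP_a82f45_ag

open Polynomial Finset

section sqf

variable {k : Type*} [Field k]

/-- scaled parameter -/
def Lam {D : Type*} [One D] (l : ℕ → D) (r : ℕ) (e : Bool) : D := if e then l r else 1

theorem lin_eq {u : k} (hu : u ≠ 0) : (1 - C u * X : k[X]) = C (-u) * (X - C u⁻¹) := by
  rw [mul_sub, ← C_mul, neg_mul, mul_inv_cancel₀ hu]
  simp only [C_neg, map_one]
  ring

theorem phi_eq (K g : ℕ) {s : k} (hs : s ≠ 0) {l : ℕ → k} (hl : ∀ r < g, l r ≠ 0) :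
    ∃ c : k, c ≠ 0 ∧ phi K g s l = C c * ∏ i : Option (Fin g × Bool),
      (X - C (i.elim 0 fun x => (Lam l x.1 x.2 * s ^ (2 * K * (x.1 : ℕ)))⁻¹)) := by
  have hne : ∀ x : Fin g × Bool, Lam l x.1 x.2 * s ^ (2 * K * (x.1 : ℕ)) ≠ 0 := by
    rintro ⟨r, e⟩
    refine mul_ne_zero ?_ (pow_ne_zero _ hs)
    rw [Lam]
    split_ifs
    · exact hl r r.2
    · exact one_ne_zero
  refine ⟨∏ x : Fin g × Bool, -(Lam l x.1 x.2 * s ^ (2 * K * (x.1 : ℕ))),
    Finset.prod_ne_zero_iff.mpr fun x _ => neg_ne_zero.mpr (hne x), ?_⟩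
  rw [Fintype.prod_option]
  simp only [Option.elim_none, Option.elim_some, C_0, sub_zero]
  rw [phi, map_prod, mul_left_comm, ← Finset.prod_mul_distrib, Finset.prod_range]
  congr 1
  have h2 : ∀ x : Fin g × Bool, C (-(Lam l x.1 x.2 * s ^ (2 * K * (x.1 : ℕ)))) *
      (X - C (Lam l x.1 x.2 * s ^ (2 * K * (x.1 : ℕ)))⁻¹) =
      1 - C (Lam l x.1 x.2 * s ^ (2 * K * (x.1 : ℕ))) * X := fun x => (lin_eq (hne x)).symm
  simp only [h2]
  rw [Fintype.prod_prod_type]
  apply Finset.prod_congr rfl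
  intro r _
  rw [Fintype.prod_bool, Lam, Lam, if_pos rfl, if_neg (by simp), qf, one_mul, mul_comm]

theorem phi_sqf (K g : ℕ) {s : k} (hs : s ≠ 0) {l : ℕ → k} (hl : ∀ r < g, l r ≠ 0)
    (hnd : ∀ x y : Fin g × Bool, x ≠ y → x.1 ≤ y.1 →
      Lam l x.1 x.2 - Lam l y.1 y.2 * s ^ (2 * K * ((y.1 : ℕ) - x.1)) ≠ 0) :
    Squarefree (phi K g s l) ∧ (phi K g s l).natDegree = 2 * g + 1 := by
  obtain ⟨c, hc, h⟩ := phi_eq K g hs hl
  have hinj : Function.Injective (fun i : Option (Fin g × Bool) =>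
      i.elim 0 fun x => (Lam l x.1 x.2 * s ^ (2 * K * (x.1 : ℕ)))⁻¹) := by
    have hne : ∀ x : Fin g × Bool, Lam l x.1 x.2 * s ^ (2 * K * (x.1 : ℕ)) ≠ 0 := by
      rintro ⟨r, e⟩
      refine mul_ne_zero ?_ (pow_ne_zero _ hs)
      rw [Lam]
      split_ifs
      · exact hl r r.2
      · exact one_ne_zero
    have key : ∀ x y : Fin g × Bool, x.1 ≤ y.1 →
        Lam l x.1 x.2 * s ^ (2 * K * (x.1 : ℕ)) = Lam l y.1 y.2 * s ^ (2 * K * (y.1 : ℕ)) → x = y := by
      intro x y hxy h1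
      by_contra hne'
      apply hnd x y hne' hxy
      have h2 : (y.1 : ℕ) = (y.1 - x.1 : ℕ) + x.1 := by
        have : (x.1 : ℕ) ≤ y.1 := hxy
        omega
      have h3 : s ^ (2 * K * (y.1 : ℕ)) = s ^ (2 * K * ((y.1 : ℕ) - x.1)) * s ^ (2 * K * (x.1 : ℕ)) := by
        rw [← pow_add, ← Nat.mul_add, ← h2]
      rw [h3, ← mul_assoc] at h1
      exact sub_eq_zero.mpr (mul_right_cancel₀ (pow_ne_zero _ hs) h1)
    intro x y hxy
    simp only at hxy
    match x, y with
    | none, none => rfl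
    | none, some y => exact absurd hxy.symm (inv_ne_zero (hne y))
    | some x, none => exact absurd hxy (inv_ne_zero (hne x))
    | some x, some y =>
      have h1 := inv_injective hxy
      rcases le_total x.1 y.1 with h2 | h2
      · rw [key x y h2 h1]
      · rw [key y x h2 h1.symm]
  constructor
  · rw [h]
    have h1 := (separable_prod_X_sub_C_iff.mpr hinj).squarefree
    exact (Associated.squarefree_iff ((associated_unit_mul_left _ _
      (isUnit_C.mpr (isUnit_iff_ne_zero.mpr hc))))).mpr h1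
  · rw [h, natDegree_C_mul hc, natDegree_prod_of_monic _ _ (fun i _ => monic_X_sub_C _)]
    simp only [natDegree_X_sub_C, Finset.sum_const, Finset.card_univ, Fintype.card_option,
      Fintype.card_prod, Fintype.card_fin, Fintype.card_bool, smul_eq_mul, mul_one]
    ring

end sqf

end Pool.Agent.Lib.MP_a82f45_ag
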