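import Pool.Agent.Lib.MP_a82f45_ag.Point

set_option autoImplicit false
set_option linter.unusedSectionVars false
set_option linter.unusedSimpArgs false

namespace Pool.Agent.Lib.MP_a82f45_ag

universe u

open WithZero

/-- functions on the overlap which extend to one of the two charts -/
def Ssub (k : Type u) [Field k] {K : Type u} [Field K] [Algebra k K] (x : K) : Submodule k K :=
  Subalgebra.toSubmodule (intRing k {x}) ⊔ Subalgebra.toSubmodule (intRing k {x⁻¹})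

/-- functions on the overlap -/
def Vsub (k : Type u) [Field k] {K : Type u} [Field K] [Algebra k K] (x : K) : Submodule k K :=
  Subalgebra.toSubmodule (intRing k {x, x⁻¹})

structure Stage (k : Type u) [Field k] (K : Type u) [Field K] [Algebra k K] (x : K) (g : ℕ) where
  x0 : x ≠ 0
  inter : ∀ a ∈ intRing k {x}, a ∈ intRing k {x⁻¹} → ∃ c : k, a = algebraMap k K c
  ρ : K →ₗ[k] k
  ρ0 : ∀ a ∈ intRing k {x}, ρ a = 0
  ρ1 : ∀ a ∈ intRing k {x⁻¹}, ρ a = 0
  ρsq : ∀ a : K, ρ (a ^ 2) = 0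
  α : K
  κ : K
  hα : α ∈ intRing k {x⁻¹}
  hκ : κ ∈ intRing k {x, x⁻¹}
  hκα : κ ^ 2 = α + x
  ρα : ∀ a : K, ρ (α * a ^ 2) = (ρ a) ^ 2
  hκS : κ ∉ Ssub k x
  ker : ∀ a ∈ intRing k {x, x⁻¹}, a ^ 2 ∈ Ssub k x → ∃ c : k, a + c • κ ∈ Ssub k x
  n : ℕ
  nil : ∀ a ∈ intRing k {x, x⁻¹}, a ^ (2 ^ n) ∈ Ssub k x
  rk : Module.rank k (Vsub k x ⧸ (Ssub k x).submoduleOf (Vsub k x)) = g
  P : Pt k x ρ
  Q : Pt k x ρ
  hPQ : ∃ s ∈ intRing k {x}, (P.σ s).coeff 0 = 0 ∧ (Q.σ s).coeff 0 ≠ 0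

section step

variable {k : Type u} [Field k] [CharP k 2] {K : Type u} [Field K] [Algebra k K] {x : K} {g : ℕ}

theorem mem_S {a : K} : a ∈ Ssub k x ↔
    ∃ b ∈ intRing k {x}, ∃ c ∈ intRing k {x⁻¹}, b + c = a := by
  rw [Ssub, Submodule.mem_sup]
  rfl

theorem S_of_left {a : K} (ha : a ∈ intRing k {x}) : a ∈ Ssub k x :=
  Submodule.mem_sup_left ha

theorem S_of_right {a : K} (ha : a ∈ intRing k {x⁻¹}) : a ∈ Ssub k x :=
  Submodule.mem_sup_right ha

theorem left_le {a : K} (ha : a ∈ intRing k {x}) : a ∈ intRing k {x, x⁻¹} :=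
  intRing_mono (by intro a ha; left; exact ha) ha

theorem right_le {a : K} (ha : a ∈ intRing k {x⁻¹}) : a ∈ intRing k {x, x⁻¹} :=
  intRing_mono (by intro a ha; right; exact ha) ha

theorem S_le {a : K} (ha : a ∈ Ssub k x) : a ∈ intRing k {x, x⁻¹} := by
  rw [mem_S] at ha
  obtain ⟨b, hb, c, hc, rfl⟩ := ha
  exact add_mem (left_le hb) (right_le hc)

theorem sq_mem_S {a : K} (ha : a ∈ Ssub k x) : a ^ 2 ∈ Ssub k x := by
  rw [mem_S] at ha ⊢
  obtain ⟨b, hb, c, hc, rfl⟩ := ha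
  refine ⟨b ^ 2, pow_mem hb 2, c ^ 2, pow_mem hc 2, ?_⟩
  linear_combination (-(b * c)) * two_eq_zero k K

omit [Algebra k K] in
theorem add_sq' (h2 : (2 : K) = 0) (a b : K) : (a + b) ^ 2 = a ^ 2 + b ^ 2 := by
  linear_combination (a * b) * h2

theorem ρS (St : Stage k K x g) {a : K} (ha : a ∈ Ssub k x) : St.ρ a = 0 := by
  rw [mem_S] at ha
  obtain ⟨b, hb, c, hc, rfl⟩ := ha
  rw [map_add, St.ρ0 b hb, St.ρ1 c hc, add_zero]

theorem const_mem (c : k) (s : Set K) : algebraMap k K c ∈ intRing k s :=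
  Subalgebra.algebraMap_mem _ c

/-- every regular function is constant modulo functions vanishing at the point -/
theorem exists_idl_one {ρ : K →ₗ[k] k} (P : Pt k x ρ) {a : K} (ha : a ∈ intRing k {x}) :
    ∃ c : k, idl P 1 (a + algebraMap k K c) := by
  have h2 : (2 : k) = 0 := two_eq_zero k k
  refine ⟨(P.σ a).coeff 0, ?_⟩
  have hm : a + algebraMap k K ((P.σ a).coeff 0) ∈ intRing k {x} := add_mem ha (const_mem _ _)
  rw [idl_one_iff P hm, map_add, AlgHom.commutes, HahnSeries.coeff_add, coeff_algMap, if_pos rfl]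
  linear_combination ((P.σ a).coeff 0) * h2

theorem exists_idl_two {ρ : K →ₗ[k] k} (P : Pt k x ρ) {a : K} (ha : a ∈ intRing k {x}) :
    ∃ c c' : k, idl P 2 (a + algebraMap k K c + algebraMap k K c' * x) := by
  have h2 : (2 : k) = 0 := two_eq_zero k k
  refine ⟨(P.σ a).coeff 0, (P.σ a).coeff 1, ?_⟩
  have hm : a + algebraMap k K ((P.σ a).coeff 0) + algebraMap k K ((P.σ a).coeff 1) * x
      ∈ intRing k {x} := add_mem (add_mem ha (const_mem _ _)) (mul_mem (const_mem _ _) x_mem)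
  rw [idl_two_iff P hm]
  simp only [map_add, map_mul, AlgHom.commutes, HahnSeries.coeff_add, coeff_algMap, coeff_smul',
    P.hx]
  have e1 : (HahnSeries.single (1 : ℤ) (1 : k)).coeff 0 = 0 :=
    HahnSeries.coeff_single_of_ne (by norm_num)
  have e2 : (HahnSeries.single (1 : ℤ) (1 : k)).coeff 1 = 1 := HahnSeries.coeff_single_same _ _
  constructor
  · simp only [e1, if_true]
    linear_combination ((P.σ a).coeff 0) * h2
  · simp only [e2, one_ne_zero, if_false]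
    linear_combination ((P.σ a).coeff 1) * h2

/-- a point where the other one is regular -/
theorem val_other {ρ : K →ₗ[k] k} (P Q : Pt k x ρ)
    (h : ∃ s ∈ intRing k {x}, (P.σ s).coeff 0 = 0 ∧ (Q.σ s).coeff 0 ≠ 0) :
    Valued.v (Q.σ P.u) ≤ (1 : ℤᵐ⁰) := by
  obtain ⟨s, hs, h0, h1⟩ := h
  have h2 := val_pt Q (P.hu s hs h0)
  rw [map_mul, map_mul, val_eq_one_of (val_pt Q hs) h1, mul_one] at h2
  exact h2

theorem other_symm {ρ : K →ₗ[k] k} (P Q : Pt k x ρ)
    (h : ∃ s ∈ intRing k {x}, (P.σ s).coeff 0 = 0 ∧ (Q.σ s).coeff 0 ≠ 0) :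
    ∃ s ∈ intRing k {x}, (Q.σ s).coeff 0 = 0 ∧ (P.σ s).coeff 0 ≠ 0 := by
  have h2 : (2 : k) = 0 := two_eq_zero k k
  obtain ⟨s, hs, h0, h1⟩ := h
  refine ⟨s + algebraMap k K ((Q.σ s).coeff 0), add_mem hs (const_mem _ _), ?_, ?_⟩
  · rw [map_add, AlgHom.commutes, HahnSeries.coeff_add, coeff_algMap, if_pos rfl]
    linear_combination ((Q.σ s).coeff 0) * h2
  · rw [map_add, AlgHom.commutes, HahnSeries.coeff_add, coeff_algMap, if_pos rfl, h0, zero_add]
    exact h1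

/-- data for a double cover branched at `P` -/
structure Branch (St : Stage k K x g) (e : ℕ) where
  f0 : K
  f1 : K
  h : K
  hf1 : f1 ∈ intRing k {x⁻¹}
  hh : h ∈ intRing k {x, x⁻¹}
  hfh : f0 + f1 = h ^ 2 + h
  hval : Valued.v (St.P.σ f0) = exp (2 * (e : ℤ) - 1)
  hreg : ∀ b, idl St.P e b → b ^ 2 * f0 ∈ intRing k {x}
  hQ : Valued.v (St.Q.σ f0) ≤ (1 : ℤᵐ⁰)
  he : 1 ≤ e

omit [Algebra k K] in
theorem sum_frob (h2 : (2 : K) = 0) (U : K) (n : ℕ) :
    (∑ i ∈ Finset.range n, U ^ (2 ^ i)) ^ 2 + (∑ i ∈ Finset.range n, U ^ (2 ^ i)) =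
      U ^ (2 ^ n) + U := by
  induction n with
  | zero => simp; linear_combination (-U) * h2
  | succ n ih =>
    rw [Finset.sum_range_succ, add_sq' h2]
    have h3 : (U ^ 2 ^ n) ^ 2 = U ^ 2 ^ (n + 1) := by rw [← pow_mul, pow_succ]
    rw [h3]
    linear_combination ih + U ^ 2 ^ n * h2

/-- construction of the branch data from a function with a pole at `P` only -/
theorem exists_branch (St : Stage k K x g) (e : ℕ) (he : 1 ≤ e) (U : K)
    (hU : U ∈ intRing k {x, x⁻¹})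
    (hval : Valued.v (St.P.σ U) = exp (2 * (e : ℤ) - 1))
    (hreg : ∀ b, idl St.P e b → b ^ 2 * U ∈ intRing k {x})
    (hQ : Valued.v (St.Q.σ U) ≤ (1 : ℤᵐ⁰)) :
    ∃ B : Branch St e, B.f0 + U ∈ intRing k {x} := by
  have h2 := two_eq_zero k K
  have hS := St.nil U hU
  rw [mem_S] at hS
  obtain ⟨a0, ha0, a1, ha1, hsum⟩ := hS
  refine ⟨⟨U + a0, a1, ∑ i ∈ Finset.range St.n, U ^ (2 ^ i), ha1, ?_, ?_, ?_, ?_, ?_, he⟩, ?_⟩
  · exact sum_mem fun i _ => pow_mem hU _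
  · rw [sum_frob h2, ← hsum]; ring
  · rw [map_add, Valuation.map_add_eq_of_lt_left, hval]
    rw [hval]
    refine lt_of_le_of_lt (val_pt _ ha0) ?_
    rw [← exp_zero, exp_lt_exp]
    omega
  · intro b hb
    rw [mul_add]
    exact add_mem (hreg b hb) (mul_mem (pow_mem hb.1 2) ha0)
  · rw [map_add]
    exact Valuation.map_add_le _ hQ (val_pt _ ha0)
  · have : U + a0 + U = a0 := by linear_combination U * h2
    change U + a0 + U ∈ _
    rw [this]; exact ha0

theorem fact_of_branch {St : Stage k K x g} {e : ℕ} (B : Branch St e) :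
    ∀ r : K, r ^ 2 ≠ B.f1 + 1 * r := by
  intro r hr
  have h2 := two_eq_zero k K
  have h3 : (r + B.h) * (r + B.h + 1) = B.f0 := by
    linear_combination hr - B.hfh + (r * B.h + r + B.f1) * h2
  have h4 := congrArg (fun t => Valued.v (St.P.σ t)) h3
  rw [B.hval, map_mul, map_mul] at h4
  have hgt : (1 : ℤᵐ⁰) < exp (2 * (e : ℤ) - 1) := by
    rw [← exp_zero, exp_lt_exp]
    have := B.he
    omega
  have hr1 : 1 < Valued.v (St.P.σ (r + B.h)) := by
    by_contra hcon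
    rw [not_lt] at hcon
    have : Valued.v (St.P.σ (r + B.h + 1)) ≤ (1 : ℤᵐ⁰) := by
      rw [map_add, map_one]
      exact Valuation.map_add_le _ hcon (by rw [map_one])
    have h5 := mul_le_mul' hcon this
    rw [h4, mul_one] at h5
    exact absurd hgt (not_lt.mpr h5)
  have h6 : Valued.v (St.P.σ (r + B.h + 1)) = Valued.v (St.P.σ (r + B.h)) := by
    rw [map_add _ (r + B.h) 1, map_one]
    exact Valuation.map_add_eq_of_lt_left _ (by rw [map_one]; exact hr1)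
  rw [h6] at h4
  have h7 : Valued.v (St.P.σ (r + B.h)) ≠ (0 : ℤᵐ⁰) := (lt_trans zero_lt_one hr1).ne'
  have h8 := congrArg log h4
  rw [log_mul h7 h7, log_exp] at h8
  omega

end step

end Pool.Agent.Lib.MP_a82f45_ag
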