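import Pool.Agent.Lib.MP_a82f45_ag.All
import Pool.Agent.Lib.MP_a82f45_ag.H1

set_option autoImplicit false

namespace Pool.Agent.Lib.MP_a82f45_ag

universe u

namespace Two

section aux

variable {k : Type u} [Field k] {K : Type u} [Field K] [Algebra k K] {x : K}

theorem mem_cob (a : Overlap k x) : a ∈ coboundary k x ↔ a.1 ∈ Ssub k x := Iff.rfl

/-- the class of a function on the overlap -/
def cls (a : Overlap k x) : H1 k x := Submodule.Quotient.mk a

theorem cls_surj (h : H1 k x) : ∃ a, cls a = h := Submodule.Quotient.mk_surjective _ h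

theorem cls_eq_zero (a : Overlap k x) : cls a = 0 ↔ a.1 ∈ Ssub k x :=
  Submodule.Quotient.mk_eq_zero (coboundary k x)

theorem cls_eq (a b : Overlap k x) : cls a = cls b ↔ (a - b).1 ∈ Ssub k x :=
  Submodule.Quotient.eq (coboundary k x)

theorem cls_smul (c : k) (a : Overlap k x) : c • cls a = cls (c • a) := rfl

theorem frob_cls [CharP k 2] (a : Overlap k x) : frob 2 k x (cls a) = cls (powMap 2 k x a) := rfl

theorem frob_iter [CharP k 2] (a : Overlap k x) (n : ℕ) :
    ∃ b : Overlap k x, (frob 2 k x)^[n] (cls a) = cls b ∧ b.1 = a.1 ^ (2 ^ n) := by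
  induction n with
  | zero => exact ⟨a, rfl, by rw [pow_zero, pow_one]⟩
  | succ n ih =>
    obtain ⟨b, h1, h2⟩ := ih
    refine ⟨powMap 2 k x b, ?_, ?_⟩
    · rw [Function.iterate_succ_apply', h1, frob_cls]
    · change b.1 ^ 2 = _
      rw [h2, ← pow_mul, ← pow_succ]

theorem finrank_one (V : Type u) [AddCommGroup V] [Module k V] (v : V) (h1 : v ≠ 0)
    (h2 : ∀ w : V, ∃ c : k, c • v = w) : Module.finrank k V = 1 :=
  finrank_eq_one v h1 h2

end aux

/-- Over every algebraically closed field `k` of characteristic two there are curves of every genus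
`g ≥ 1` on whose `H¹(X, O_X)` Frobenius is nilpotent with one-dimensional kernel, that is,
curves whose Jacobian has `2`-rank zero and `a`-number one. -/
theorem binary (k : Type u) [Field k] [IsAlgClosed k] [CharP k 2] (g : ℕ) (hg : 1 ≤ g) :
    ∃ (K : Type u) (_ : Field K) (_ : Algebra k K) (x : K),
      IsFunctionField k x ∧
      Module.finrank k (H1 k x) = g ∧
      (∃ n : ℕ, ∀ h : H1 k x, (frob 2 k x)^[n] h = 0) ∧
      Module.finrank k (LinearMap.ker (frob 2 k x)) = 1 := by
  obtain ⟨K, _, _, x, hF, ⟨St⟩⟩ := exists_stage_all k g hg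
  refine ⟨K, inferInstance, inferInstance, x, ⟨hF.transcendental, hF.finite⟩, ?_, ⟨St.n, ?_⟩, ?_⟩
  · exact Module.finrank_eq_of_rank_eq St.rk
  · intro h
    obtain ⟨a, rfl⟩ := cls_surj h
    obtain ⟨b, h1, h2⟩ := frob_iter a St.n
    rw [h1, cls_eq_zero, h2]
    exact St.nil a.1 a.2
  · obtain ⟨κ, hκ⟩ : ∃ κ : Overlap k x, κ.1 = St.κ := ⟨⟨St.κ, St.hκ⟩, rfl⟩
    have hκm : frob 2 k x (cls κ) = 0 := by
      rw [frob_cls, cls_eq_zero]
      change κ.1 ^ 2 ∈ Ssub k x
      rw [hκ, St.hκα]
      exact add_mem (S_of_right St.hα) (S_of_left x_mem)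
    refine finrank_one _ (⟨cls κ, LinearMap.mem_ker.mpr hκm⟩ : LinearMap.ker (frob 2 k x)) ?_ ?_
    · intro h0
      have h1 : cls κ = 0 := congrArg Subtype.val h0
      rw [cls_eq_zero, hκ] at h1
      exact St.hκS h1
    · rintro ⟨w, hw⟩
      obtain ⟨a, rfl⟩ := cls_surj w
      have hw' : frob 2 k x (cls a) = 0 := LinearMap.mem_ker.mp hw
      rw [frob_cls, cls_eq_zero] at hw'
      obtain ⟨c, hc⟩ := St.ker a.1 a.2 hw'
      refine ⟨c, Subtype.ext ?_⟩
      change c • cls κ = cls a
      rw [cls_smul, cls_eq]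
      have h2 := two_eq_zero k K
      have h3 : (c • κ - a).1 = a.1 + c • St.κ := by
        change c • κ.1 - a.1 = _
        rw [hκ]
        linear_combination (-a.1) * h2
      rw [h3]
      exact hc

end Two

end Pool.Agent.Lib.MP_a82f45_ag
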